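import Pool.Agent.P.MP_a9a441_nt.Mom
import Pool.Agent.P.MP_a1177c_nt.HL.Primes

/-! Most moduli have a prime factor of medium degree and no exceptional common divisors. -/

namespace Pool.Agent.P.MP_a9a441_nt

open Polynomial Finset Pool.Agent.P.MP_a1177c_nt.HL
open scoped Classical

variable {K : Type*} [Field K] [Fintype K]

theorem cnt_dvd {G : K[X]} (hG : G.Monic) {k : ℕ} (hk : G.natDegree ≤ k) :
    ∑ y ∈ Mn K k, (if G ∣ y then (1 : ℝ) else 0) =
      (Fintype.card K : ℝ) ^ k * ((Fintype.card K : ℝ) ^ G.natDegree)⁻¹ := by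
  have h := card_Mn_dvd_eq hG hk 0
  simp only [sub_zero] at h
  have hq : (0 : ℝ) < Fintype.card K := by exact_mod_cast Fintype.card_pos
  rw [Finset.sum_boole, h, Nat.cast_pow, pow_sub₀ _ hq.ne' hk]

theorem second_moment (P : Finset K[X]) {k : ℕ}
    (hP : ∀ π ∈ P, π.Monic ∧ Irreducible π ∧ 2 * π.natDegree ≤ k) :
    (((Mn K k).filter fun y => ∀ π ∈ P, ¬ π ∣ y).card : ℝ) *
      ∑ π ∈ P, ((Fintype.card K : ℝ) ^ π.natDegree)⁻¹ ≤ (Fintype.card K : ℝ) ^ k := by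
  set q : ℝ := (Fintype.card K : ℝ) with hq
  have hq0 : 0 < q := by rw [hq]; exact_mod_cast Fintype.card_pos
  set θ : K[X] → ℝ := fun π => (q ^ π.natDegree)⁻¹ with hθ
  have hθ0 : ∀ π, 0 ≤ θ π := fun π => by simp only [hθ]; positivity
  set L := ∑ π ∈ P, θ π with hL
  have hL0 : 0 ≤ L := Finset.sum_nonneg fun π _ => hθ0 π
  set N : K[X] → ℝ := fun y => ∑ π ∈ P, if π ∣ y then (1 : ℝ) else 0 with hN
  have h1 : ∑ y ∈ Mn K k, N y = q ^ k * L := by
    rw [Finset.sum_comm, hL, Finset.mul_sum]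
    refine Finset.sum_congr rfl fun π hπ => cnt_dvd (hP π hπ).1 ?_
    have := (hP π hπ).2.2
    omega
  have h2 : ∑ y ∈ Mn K k, N y ^ 2 ≤ q ^ k * (L + L ^ 2) := by
    have e1 : ∀ y, N y ^ 2 = ∑ π ∈ P, ∑ π' ∈ P,
        (if π ∣ y then (1 : ℝ) else 0) * (if π' ∣ y then (1 : ℝ) else 0) := fun y => by
      rw [sq, hN, Finset.sum_mul_sum]
    simp only [e1]
    rw [Finset.sum_comm]
    have e2 : q ^ k * (L + L ^ 2) = ∑ π ∈ P, ∑ π' ∈ P,
        ((if π' = π then q ^ k * θ π else 0) + q ^ k * (θ π * θ π')) := by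
      simp only [Finset.sum_add_distrib]
      rw [mul_add, sq, hL, Finset.sum_mul_sum, Finset.mul_sum, Finset.mul_sum]
      congr 1
      · refine Finset.sum_congr rfl fun π hπ => ?_
        rw [Finset.sum_ite_eq' P π, if_pos hπ]
      · refine Finset.sum_congr rfl fun π _ => ?_
        rw [Finset.mul_sum]
    rw [e2]
    refine Finset.sum_le_sum fun π hπ => ?_
    rw [Finset.sum_comm]
    refine Finset.sum_le_sum fun π' hπ' => ?_
    obtain ⟨m1, i1, d1⟩ := hP π hπ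
    obtain ⟨m2, i2, d2⟩ := hP π' hπ'
    have hnn : 0 ≤ q ^ k * (θ π * θ π') :=
      mul_nonneg (by positivity) (mul_nonneg (hθ0 _) (hθ0 _))
    by_cases he : π' = π
    · rw [if_pos he, he]
      have : ∑ y ∈ Mn K k, (if π ∣ y then (1 : ℝ) else 0) * (if π ∣ y then (1 : ℝ) else 0)
          = q ^ k * θ π := by
        rw [← cnt_dvd m1 (by omega)]
        refine Finset.sum_congr rfl fun y _ => ?_
        split_ifs <;> simp
      rw [this]
      rw [he] at hnn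
      linarith
    · rw [if_neg he, zero_add]
      have hc : IsCoprime π π' := by
        refine (i1.coprime_iff_not_dvd).2 fun hd => he ?_
        exact (eq_of_monic_of_associated m1 m2 (i1.associated_of_dvd i2 hd)).symm
      have hdeg : (π * π').natDegree = π.natDegree + π'.natDegree := m1.natDegree_mul m2
      have := cnt_dvd (m1.mul m2) (k := k) (by omega)
      rw [hdeg, pow_add, mul_inv] at this
      refine le_of_eq (Eq.trans ?_ this)
      refine Finset.sum_congr rfl fun y _ => ?_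
      by_cases a1 : π ∣ y <;> by_cases a2 : π' ∣ y
      · rw [if_pos a1, if_pos a2, if_pos (hc.mul_dvd a1 a2), mul_one]
      · rw [if_neg a2, mul_zero, if_neg (fun h => a2 ((dvd_mul_left _ _).trans h))]
      · rw [if_neg a1, zero_mul, if_neg (fun h => a1 ((dvd_mul_right _ _).trans h))]
      · rw [if_neg a1, zero_mul, if_neg (fun h => a1 ((dvd_mul_right _ _).trans h))]
  have h3 : ∑ y ∈ Mn K k, (N y - L) ^ 2 ≤ q ^ k * L := by
    have : ∑ y ∈ Mn K k, (N y - L) ^ 2 =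
        ∑ y ∈ Mn K k, N y ^ 2 - 2 * L * ∑ y ∈ Mn K k, N y + q ^ k * L ^ 2 := by
      rw [Finset.mul_sum, ← Finset.sum_sub_distrib]
      have : q ^ k * L ^ 2 = ∑ _y ∈ Mn K k, L ^ 2 := by
        rw [Finset.sum_const, card_Mn, nsmul_eq_mul]; push_cast; rfl
      rw [this, ← Finset.sum_add_distrib]
      exact Finset.sum_congr rfl fun y _ => by ring
    rw [this, h1]
    linarith
  set S := (Mn K k).filter fun y => ∀ π ∈ P, ¬ π ∣ y with hS
  have h4 : (S.card : ℝ) * L ^ 2 ≤ ∑ y ∈ Mn K k, (N y - L) ^ 2 := by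
    calc (S.card : ℝ) * L ^ 2 = ∑ y ∈ S, (N y - L) ^ 2 := by
          rw [← nsmul_eq_mul, ← Finset.sum_const]
          refine Finset.sum_congr rfl fun y hy => ?_
          have : N y = 0 := Finset.sum_eq_zero fun π hπ =>
            if_neg ((Finset.mem_filter.1 hy).2 π hπ)
          rw [this]; ring
      _ ≤ _ := Finset.sum_le_sum_of_subset_of_nonneg (Finset.filter_subset _ _)
          fun _ _ _ => sq_nonneg _
  rcases hL0.eq_or_lt with h0 | h0
  · rw [← h0, mul_zero]; positivity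
  · refine le_of_mul_le_mul_right ?_ h0
    nlinarith

theorem harmonic_ge (a : ℕ) (ha : 1 ≤ a) (j : ℕ) :
    (j : ℝ) / 2 ≤ ∑ d ∈ Ico a (2 ^ j * a), (d : ℝ)⁻¹ := by
  induction j with
  | zero => simp
  | succ j ih =>
    have h1 : a ≤ 2 ^ j * a := Nat.le_mul_of_pos_left a (by positivity)
    have h2 : 2 ^ j * a ≤ 2 ^ (j + 1) * a := by rw [pow_succ]; nlinarith
    rw [← Finset.sum_Ico_consecutive _ h1 h2]
    have hpos : (0 : ℝ) < ((2 ^ j * a : ℕ) : ℝ) := by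
      have : 0 < 2 ^ j * a := by positivity
      exact_mod_cast this
    have h3 : (1 : ℝ) / 2 ≤ ∑ d ∈ Ico (2 ^ j * a) (2 ^ (j + 1) * a), (d : ℝ)⁻¹ := by
      have h4 : ∑ _d ∈ Ico (2 ^ j * a) (2 ^ (j + 1) * a), (2 * ((2 ^ j * a : ℕ) : ℝ))⁻¹
          ≤ ∑ d ∈ Ico (2 ^ j * a) (2 ^ (j + 1) * a), (d : ℝ)⁻¹ := by
        refine Finset.sum_le_sum fun d hd => ?_
        obtain ⟨h5, h6⟩ := Finset.mem_Ico.1 hd
        have h7 : (0 : ℝ) < d := lt_of_lt_of_le hpos (by exact_mod_cast h5)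
        refine inv_anti₀ h7 ?_
        have : d ≤ 2 * (2 ^ j * a) := by rw [pow_succ] at h6; nlinarith
        exact_mod_cast this
      refine le_trans (le_of_eq ?_) h4
      rw [Finset.sum_const, Nat.card_Ico, nsmul_eq_mul,
        show 2 ^ (j + 1) * a - 2 ^ j * a = 2 ^ j * a by
          rw [show 2 ^ (j + 1) * a = 2 ^ j * a + 2 ^ j * a by ring]; omega]
      field_simp
    push_cast
    linarith

theorem prime_density {d : ℕ} (hd : 40 ≤ d) :
    (d : ℝ)⁻¹ / 2 ≤ (((Mn K d).filter fun π => Irreducible π).card : ℝ) *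
      ((Fintype.card K : ℝ) ^ d)⁻¹ := by
  set q : ℝ := (Fintype.card K : ℝ) with hq
  have hq2 : (2 : ℝ) ≤ q := by rw [hq]; exact_mod_cast Fintype.one_lt_card
  have h1 := card_irreducible_ge (K := K) (h := d) (by omega)
  have h2 : 2 * d ^ 2 ≤ 2 ^ (d - d / 2) := by
    have h3 := primes_num (d / 2) (by omega)
    have h4 : d ≤ 9 * (d / 2) + 16 := by omega
    calc 2 * d ^ 2 ≤ 17 * (9 * (d / 2) + 16) ^ 2 :=
          Nat.mul_le_mul (by norm_num) (Nat.pow_le_pow_left h4 2)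
      _ ≤ 2 ^ (d / 2) := h3
      _ ≤ 2 ^ (d - d / 2) := Nat.pow_le_pow_right (by norm_num) (by omega)
  have h3 : (2 : ℝ) * d ^ 2 ≤ q ^ (d - d / 2) := by
    calc (2 : ℝ) * d ^ 2 ≤ 2 ^ (d - d / 2) := by exact_mod_cast h2
      _ ≤ q ^ (d - d / 2) := pow_le_pow_left₀ (by norm_num) hq2 _
  have h4 : q ^ d = q ^ (d - d / 2) * q ^ (d / 2) := by
    rw [← pow_add]; congr 1; omega
  have h5 : 2 * ((d : ℝ) ^ 2 * q ^ (d / 2)) ≤ q ^ d := by
    rw [h4, ← mul_assoc]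
    exact mul_le_mul_of_nonneg_right h3 (by positivity)
  have hd0 : (0 : ℝ) < d := by exact_mod_cast (by omega : 0 < d)
  have hqd : 0 < q ^ d := by positivity
  rw [← div_eq_mul_inv, le_div_iff₀ hqd, div_mul_eq_mul_div, div_le_iff₀ (by norm_num),
    inv_mul_le_iff₀ hd0]
  linarith

theorem bad_two {a j k : ℕ} (ha : 40 ≤ a) (hk : 2 * (2 ^ j * a) ≤ k) :
    (((Mn K k).filter fun y => ¬ ∃ π : K[X], π.Monic ∧ Irreducible π ∧ a ≤ π.natDegree ∧
      π.natDegree < 2 ^ j * a ∧ π ∣ y).card : ℝ) * j ≤ 4 * (Fintype.card K : ℝ) ^ k := by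
  set b := 2 ^ j * a with hb
  set P := (Pl K b).filter fun π => π.Monic ∧ Irreducible π ∧ a ≤ π.natDegree with hP
  have hmem : ∀ π, π ∈ P ↔ π.Monic ∧ Irreducible π ∧ a ≤ π.natDegree ∧ π.natDegree < b := by
    intro π
    rw [hP, Finset.mem_filter, mem_Pl]
    constructor
    · rintro ⟨h1, h2, h3, h4⟩
      exact ⟨h2, h3, h4, (natDegree_lt_iff_degree_lt h2.ne_zero).2 h1⟩
    · rintro ⟨h2, h3, h4, h1⟩
      exact ⟨(natDegree_lt_iff_degree_lt h2.ne_zero).1 h1, h2, h3, h4⟩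
  have h1 := second_moment P (k := k) (fun π hπ => by
    obtain ⟨h2, h3, _, h5⟩ := (hmem π).1 hπ
    exact ⟨h2, h3, by omega⟩)
  have h2 : (j : ℝ) / 4 ≤ ∑ π ∈ P, ((Fintype.card K : ℝ) ^ π.natDegree)⁻¹ := by
    rw [← Finset.sum_fiberwise_of_maps_to (s := P) (t := Ico a b) (g := fun π => π.natDegree)
      (fun π hπ => Finset.mem_Ico.2 ((hmem π).1 hπ).2.2)]
    have h3 := harmonic_ge a (by omega) j
    calc (j : ℝ) / 4 ≤ (∑ d ∈ Ico a b, (d : ℝ)⁻¹) / 2 := by linarith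
      _ = ∑ d ∈ Ico a b, (d : ℝ)⁻¹ / 2 := Finset.sum_div _ _ _
      _ ≤ _ := by
        refine Finset.sum_le_sum fun d hd => ?_
        obtain ⟨h4, h5⟩ := Finset.mem_Ico.1 hd
        refine (prime_density (K := K) (d := d) (by omega)).trans (le_of_eq ?_)
        have : (P.filter fun π => π.natDegree = d) = (Mn K d).filter fun π => Irreducible π := by
          ext π
          rw [Finset.mem_filter, hmem, Finset.mem_filter, mem_Mn]
          constructor
          · rintro ⟨⟨h6, h7, -, -⟩, h8⟩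
            exact ⟨⟨h6, h8⟩, h7⟩
          · rintro ⟨⟨h6, h8⟩, h7⟩
            exact ⟨⟨h6, h7, by omega, by omega⟩, h8⟩
        rw [Finset.sum_congr rfl (g := fun _ => ((Fintype.card K : ℝ) ^ d)⁻¹)
          (fun π hπ => by rw [(Finset.mem_filter.1 hπ).2]), Finset.sum_const, this, nsmul_eq_mul]
  have h3 : ((Mn K k).filter fun y => ¬ ∃ π : K[X], π.Monic ∧ Irreducible π ∧ a ≤ π.natDegree ∧
      π.natDegree < b ∧ π ∣ y) = (Mn K k).filter fun y => ∀ π ∈ P, ¬ π ∣ y := by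
    refine Finset.filter_congr fun y _ => ?_
    constructor
    · intro h π hπ hd
      obtain ⟨h4, h5, h6, h7⟩ := (hmem π).1 hπ
      exact h ⟨π, h4, h5, h6, h7, hd⟩
    · rintro h ⟨π, h4, h5, h6, h7, hd⟩
      exact h π ((hmem π).2 ⟨h4, h5, h6, h7⟩) hd
  rw [h3]
  have h4 := mul_le_mul_of_nonneg_left h2
    (Nat.cast_nonneg (α := ℝ) ((Mn K k).filter fun y => ∀ π ∈ P, ¬ π ∣ y).card)
  linarith

theorem sum_momWt_le {Z : K[X]} (hZ : Z ≠ 0) (n : ℕ) :
    ∑ p ∈ Mn K n, momWt p Z ≤ 2 ^ (pf Z).card * (Fintype.card K : ℝ) ^ (n + 1) := by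
  refine le_trans ?_ (sum_gcd_weight_le hZ (n + 1))
  have hsub : Mn K n ⊆ (Pl K (n + 1)).erase 0 := fun p hp =>
    Finset.mem_erase.2 ⟨(mem_Mn.1 hp).1.ne_zero, (Finset.mem_filter.1 hp).1⟩
  refine le_trans (le_of_eq ?_) (Finset.sum_le_sum_of_subset_of_nonneg hsub
    fun _ _ _ => Finset.prod_nonneg fun _ _ => by positivity)
  refine Finset.sum_congr rfl fun p hp => ?_
  rw [momWt]
  refine Finset.prod_congr ?_ fun _ _ => rfl
  ext π
  rw [Finset.mem_filter, Finset.mem_filter, mem_pf (mem_Mn.1 hp).1.ne_zero, mem_pf hZ]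
  tauto

theorem bad_three (T : Finset K[X]) (s₀ : K[X]) (a k l : ℕ) (B M : ℝ) (hM0 : 0 ≤ M)
    (hM : ∀ y₁ : K[X], y₁.Monic → a ≤ y₁.natDegree → y₁.natDegree ≤ k →
      ∀ w ∈ (Pl K l).erase 0, zz T s₀ y₁ w ≠ 0 ∧ (2 : ℝ) ^ (pf (zz T s₀ y₁ w)).card ≤ M)
    (hB : 0 ≤ B) :
    (((Mn K k).filter fun y => ∃ y₁ p : K[X], y₁.Monic ∧ p.Monic ∧ y = y₁ * p ∧
      a ≤ y₁.natDegree ∧ (Fintype.card K : ℝ) ^ l * B <
        ∑ w ∈ (Pl K l).erase 0, momWt p (zz T s₀ y₁ w)).card : ℝ) * B ≤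
      (k + 1) * (M * (Fintype.card K : ℝ) ^ (k + 1)) := by
  set q : ℝ := (Fintype.card K : ℝ) with hq
  have hq0 : 0 < q := by rw [hq]; exact_mod_cast Fintype.card_pos
  set Bp : ℕ → K[X] → Finset K[X] := fun i y₁ => (Mn K (k - i)).filter fun p =>
    q ^ l * B < ∑ w ∈ (Pl K l).erase 0, momWt p (zz T s₀ y₁ w) with hBp
  have h1 : ∀ i ∈ Icc a k, ∀ y₁ ∈ Mn K i, ((Bp i y₁).card : ℝ) * B ≤ M * q ^ (k - i + 1) := by
    intro i hi y₁ hy₁
    obtain ⟨hi1, hi2⟩ := Finset.mem_Icc.1 hi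
    obtain ⟨hm, hd⟩ := mem_Mn.1 hy₁
    have hM' := hM y₁ hm (by omega) (by omega)
    have h2 : ((Bp i y₁).card : ℝ) * (q ^ l * B) ≤ q ^ l * (M * q ^ (k - i + 1)) := by
      calc ((Bp i y₁).card : ℝ) * (q ^ l * B) = ∑ _p ∈ Bp i y₁, q ^ l * B := by
            rw [Finset.sum_const, nsmul_eq_mul]
        _ ≤ ∑ p ∈ Bp i y₁, ∑ w ∈ (Pl K l).erase 0, momWt p (zz T s₀ y₁ w) :=
            Finset.sum_le_sum fun p hp => (Finset.mem_filter.1 hp).2.le
        _ ≤ ∑ p ∈ Mn K (k - i), ∑ w ∈ (Pl K l).erase 0, momWt p (zz T s₀ y₁ w) :=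
            Finset.sum_le_sum_of_subset_of_nonneg (Finset.filter_subset _ _)
              fun _ _ _ => Finset.sum_nonneg fun _ _ => momWt_nonneg _ _
        _ = ∑ w ∈ (Pl K l).erase 0, ∑ p ∈ Mn K (k - i), momWt p (zz T s₀ y₁ w) :=
            Finset.sum_comm
        _ ≤ ∑ _w ∈ (Pl K l).erase 0, M * q ^ (k - i + 1) :=
            Finset.sum_le_sum fun w hw => (sum_momWt_le (hM' w hw).1 _).trans
              (mul_le_mul_of_nonneg_right (hM' w hw).2 (by positivity))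
        _ ≤ ∑ _w ∈ Pl K l, M * q ^ (k - i + 1) :=
            Finset.sum_le_sum_of_subset_of_nonneg (Finset.erase_subset _ _)
              fun _ _ _ => by positivity
        _ = _ := by rw [Finset.sum_const, card_Pl, nsmul_eq_mul]; push_cast; rfl
    refine le_of_mul_le_mul_left ?_ (pow_pos hq0 l)
    linarith
  have hsub : ((Mn K k).filter fun y => ∃ y₁ p : K[X], y₁.Monic ∧ p.Monic ∧ y = y₁ * p ∧
      a ≤ y₁.natDegree ∧ q ^ l * B < ∑ w ∈ (Pl K l).erase 0, momWt p (zz T s₀ y₁ w)) ⊆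
      (Icc a k).biUnion fun i => (Mn K i).biUnion fun y₁ => (Bp i y₁).image fun p => y₁ * p := by
    intro y hy
    obtain ⟨hy1, y₁, p, m1, m2, rfl, h3, h4⟩ := Finset.mem_filter.1 hy
    have hd := (mem_Mn.1 hy1).2
    rw [m1.natDegree_mul m2] at hd
    refine Finset.mem_biUnion.2 ⟨y₁.natDegree, Finset.mem_Icc.2 ⟨h3, by omega⟩,
      Finset.mem_biUnion.2 ⟨y₁, mem_Mn.2 ⟨m1, rfl⟩, Finset.mem_image.2 ⟨p, ?_, rfl⟩⟩⟩
    exact Finset.mem_filter.2 ⟨mem_Mn.2 ⟨m2, by omega⟩, h4⟩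
  have h2 := (Finset.card_le_card hsub).trans (Finset.card_biUnion_le.trans
    (Finset.sum_le_sum fun i _ => Finset.card_biUnion_le.trans
      (Finset.sum_le_sum fun y₁ _ => Finset.card_image_le)))
  have h3 : (((Mn K k).filter fun y => ∃ y₁ p : K[X], y₁.Monic ∧ p.Monic ∧ y = y₁ * p ∧
      a ≤ y₁.natDegree ∧ q ^ l * B <
        ∑ w ∈ (Pl K l).erase 0, momWt p (zz T s₀ y₁ w)).card : ℝ) ≤
      ∑ i ∈ Icc a k, ∑ y₁ ∈ Mn K i, ((Bp i y₁).card : ℝ) := by exact_mod_cast h2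
  refine (mul_le_mul_of_nonneg_right h3 hB).trans ?_
  rw [Finset.sum_mul]
  calc ∑ i ∈ Icc a k, (∑ y₁ ∈ Mn K i, ((Bp i y₁).card : ℝ)) * B
      ≤ ∑ _i ∈ Icc a k, M * q ^ (k + 1) := by
        refine Finset.sum_le_sum fun i hi => ?_
        rw [Finset.sum_mul]
        refine (Finset.sum_le_sum fun y₁ hy₁ => h1 i hi y₁ hy₁).trans (le_of_eq ?_)
        rw [Finset.sum_const, card_Mn, nsmul_eq_mul]
        have := (Finset.mem_Icc.1 hi).2
        rw [show k + 1 = i + (k - i + 1) by omega, pow_add q i]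
        push_cast
        ring
    _ ≤ _ := by
        rw [Finset.sum_const, Nat.card_Icc, nsmul_eq_mul]
        refine mul_le_mul_of_nonneg_right ?_ (by positivity)
        exact_mod_cast (by omega : k + 1 - a ≤ k + 1)

end Pool.Agent.P.MP_a9a441_nt
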