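import Mathlib

/-! Repeated Cauchy-Schwarz: averages over cubes are controlled by box averages. -/

namespace Pool.Agent.P.MP_a9a441_nt

open Finset
open scoped BigOperators

variable {G ι : Type*} [AddCommGroup G] [Fintype ι] [Nonempty ι]

/-- iterated box average of `F` at the base point `g` along the shifts `e u` -/
noncomputable def Box (e : ι → G) : ℕ → (G → ℝ) → G → ℝ
  | 0, F, g => F g
  | s + 1, F, g => 𝔼 u, 𝔼 u', Box e s (fun z => F (z + e u) * F (z + e u')) g

theorem sq_expect_le {κ : Type*} (S : Finset κ) (Y : κ → ℝ) :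
    (𝔼 i ∈ S, Y i) ^ 2 ≤ 𝔼 i ∈ S, Y i ^ 2 := by
  rcases S.eq_empty_or_nonempty with rfl | hS
  · simp
  have h := Finset.expect_mul_sq_le_sq_mul_sq S Y (fun _ => 1)
  simpa [Finset.expect_const hS] using h

theorem expect_pow_two_pow_le {κ : Type*} (S : Finset κ) (s : ℕ) (Y : κ → ℝ) :
    (𝔼 i ∈ S, Y i) ^ 2 ^ s ≤ 𝔼 i ∈ S, Y i ^ 2 ^ s := by
  induction s generalizing Y with
  | zero => simp
  | succ s ih =>
    simp only [pow_succ' 2 s, pow_mul]
    exact (pow_le_pow_left₀ (sq_nonneg _) (sq_expect_le S Y) _).trans (ih fun i => Y i ^ 2)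

omit [Nonempty ι] in
theorem expect_cons (s : ℕ) (Φ : (Fin (s + 1) → ι) → ℝ) :
    𝔼 w, Φ w = 𝔼 w' : Fin s → ι, 𝔼 u : ι, Φ (Fin.cons u w') := by
  rw [Finset.expect_comm, ← Finset.expect_product', Finset.univ_product_univ]
  exact (Fintype.expect_equiv (Fin.consEquiv fun _ => ι) _ _ fun _ => rfl).symm

theorem box_cs (e : ι → G) (s : ℕ) : ∀ (F : G → ℝ) (g : G) (b : Fin s → (Fin s → ι) → ℝ),
    (∀ j w, |b j w| ≤ 1) → (∀ j w u, b j (Function.update w j u) = b j w) →
    (𝔼 w : Fin s → ι, F (g + ∑ i, e (w i)) * ∏ j, b j w) ^ 2 ^ s ≤ Box e s F g := by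
  induction s with
  | zero =>
    intro F g b _ _
    simp [Box]
  | succ s ih =>
    intro F g b hb hbu
    obtain ⟨u₀⟩ := (inferInstance : Nonempty ι)
    set Z : (Fin s → ι) → ι → ℝ := fun w u =>
      F (g + ∑ i, e (w i) + e u) * ∏ j : Fin s, b j.succ (Fin.cons u w) with hZ
    have h1 : 𝔼 w : Fin (s + 1) → ι, F (g + ∑ i, e (w i)) * ∏ j, b j w =
        𝔼 w : Fin s → ι, b 0 (Fin.cons u₀ w) * 𝔼 u, Z w u := by
      rw [expect_cons]
      refine Finset.expect_congr rfl fun w _ => ?_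
      rw [Finset.mul_expect]
      refine Finset.expect_congr rfl fun u _ => ?_
      have h0 : b 0 (Fin.cons u w) = b 0 (Fin.cons u₀ w) := by
        rw [← hbu 0 (Fin.cons u₀ w) u, Fin.update_cons_zero]
      rw [Fin.sum_univ_succ, Fin.prod_univ_succ, h0]
      simp only [hZ, Fin.cons_zero, Fin.cons_succ]
      rw [add_comm (e u), add_assoc]
      ring
    set Y : ι → ι → ℝ := fun u u' => 𝔼 w : Fin s → ι,
      (fun z => F (z + e u) * F (z + e u')) (g + ∑ i, e (w i)) *
        ∏ j : Fin s, (b j.succ (Fin.cons u w) * b j.succ (Fin.cons u' w)) with hY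
    have h2 : (𝔼 w : Fin s → ι, b 0 (Fin.cons u₀ w) * 𝔼 u, Z w u) ^ 2 ≤ 𝔼 u, 𝔼 u', Y u u' := by
      refine (sq_expect_le _ _).trans ?_
      calc 𝔼 w : Fin s → ι, (b 0 (Fin.cons u₀ w) * 𝔼 u, Z w u) ^ 2
          ≤ 𝔼 w : Fin s → ι, 𝔼 u, 𝔼 u', Z w u * Z w u' := by
            refine Finset.expect_le_expect fun w _ => ?_
            rw [← Finset.expect_mul_expect, ← sq, mul_pow]
            exact mul_le_of_le_one_left (sq_nonneg _) ((sq_le_one_iff_abs_le_one _).2 (hb _ _))
        _ = 𝔼 u, 𝔼 u', Y u u' := by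
            rw [Finset.expect_comm]
            refine Finset.expect_congr rfl fun u _ => ?_
            rw [Finset.expect_comm]
            refine Finset.expect_congr rfl fun u' _ => Finset.expect_congr rfl fun w _ => ?_
            simp only [hZ, Finset.prod_mul_distrib]
            ring
    have h3 : ∀ u u', Y u u' ^ 2 ^ s ≤ Box e s (fun z => F (z + e u) * F (z + e u')) g := by
      intro u u'
      have h := ih (fun z => F (z + e u) * F (z + e u')) g
        (fun j w => b j.succ (Fin.cons u w) * b j.succ (Fin.cons u' w))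
        (fun j w => by
          rw [abs_mul]
          exact mul_le_one₀ (hb _ _) (abs_nonneg _) (hb _ _))
        (fun j w v => by simp only [Fin.cons_update, hbu])
      simp only [hY]
      convert h
    rw [h1, pow_succ' 2 s, pow_mul, Box]
    refine (pow_le_pow_left₀ (sq_nonneg _) h2 _).trans ((expect_pow_two_pow_le _ s _).trans
      (Finset.expect_le_expect fun u _ => (expect_pow_two_pow_le _ s _).trans
        (Finset.expect_le_expect fun u' _ => h3 u u')))

theorem box_nonneg (e : ι → G) (s : ℕ) (F : G → ℝ) (g : G) : 0 ≤ Box e (s + 1) F g := by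
  refine le_trans ?_ (box_cs e (s + 1) F g (fun _ _ => 1) (fun _ _ => by simp) fun _ _ _ => rfl)
  rw [pow_succ' 2 s, pow_mul]
  positivity

theorem box_le_one (e : ι → G) (s : ℕ) : ∀ (F : G → ℝ) (g : G), (∀ z, |F z| ≤ 1) →
    Box e s F g ≤ 1 := by
  induction s with
  | zero => intro F g hF; exact (le_abs_self _).trans (hF g)
  | succ s ih =>
    intro F g hF
    refine Finset.expect_le Finset.univ_nonempty fun u _ =>
      Finset.expect_le Finset.univ_nonempty fun u' _ => ih _ g fun z => ?_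
    rw [abs_mul]
    exact mul_le_one₀ (hF _) (abs_nonneg _) (hF _)

omit [Nonempty ι] in
theorem box_rel (e e' : ι → G) (R : G → G → Prop)
    (hR : ∀ z z' u, R z z' → R (z + e u) (z' + e' u)) (s : ℕ) :
    ∀ (F F' : G → ℝ) (g g' : G), (∀ z z', R z z' → F z = F' z') → R g g' →
      Box e s F g = Box e' s F' g' := by
  induction s with
  | zero => intro F F' g g' h hg; exact h g g' hg
  | succ s ih =>
    intro F F' g g' h hg
    refine Finset.expect_congr rfl fun u _ => Finset.expect_congr rfl fun u' _ =>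
      ih _ _ g g' (fun z z' hz => ?_) hg
    rw [h _ _ (hR z z' u hz), h _ _ (hR z z' u' hz)]

omit [Nonempty ι] in
theorem box_zero (e : ι → G) (s : ℕ) (g : G) : Box e s (fun _ => 0) g = 0 := by
  induction s with
  | zero => rfl
  | succ s ih => simp [Box, ih]

theorem abs_le_add_pow_div {x δ y : ℝ} (hδ : 0 < δ) (s : ℕ) (h : x ^ 2 ^ (s + 1) ≤ y) :
    |x| ≤ δ + y / δ ^ (2 ^ (s + 1) - 1) := by
  have he : Even (2 ^ (s + 1)) := by rw [pow_succ]; exact even_two.mul_left _
  have hy : 0 ≤ y := (he.pow_nonneg x).trans h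
  by_cases hx : |x| ≤ δ
  · exact hx.trans (le_add_of_nonneg_right (by positivity))
  · refine le_trans ?_ (le_add_of_nonneg_left hδ.le)
    rw [le_div_iff₀ (by positivity)]
    refine le_trans ?_ h
    rw [← he.pow_abs]
    obtain ⟨M, hM⟩ : ∃ M, 2 ^ (s + 1) = M + 1 := ⟨2 ^ (s + 1) - 1, by
      have : 0 < 2 ^ (s + 1) := by positivity
      omega⟩
    rw [hM, Nat.add_sub_cancel, pow_succ']
    exact mul_le_mul_of_nonneg_left (pow_le_pow_left₀ hδ.le (not_le.1 hx).le _) (abs_nonneg _)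

/-- averages of `F` against bounded functions each missing one coordinate -/
theorem mult_le_box (e : ι → G) (s : ℕ) (P : Finset (Fin (s + 1) → G)) (hP : P.Nonempty)
    (hshift : ∀ (Φ : (Fin (s + 1) → G) → ℝ) (w : Fin (s + 1) → ι),
      𝔼 h ∈ P, Φ (fun i => h i + e (w i)) = 𝔼 h ∈ P, Φ h)
    (F : G → ℝ) (b : Fin (s + 1) → (Fin (s + 1) → G) → ℝ) (hb : ∀ j h, |b j h| ≤ 1)
    (hbu : ∀ j h z, b j (Function.update h j z) = b j h) (g : G) {δ : ℝ} (hδ : 0 < δ) :
    |𝔼 h ∈ P, F (g + ∑ i, h i) * ∏ j, b j h| ≤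
      δ + (𝔼 h ∈ P, Box e (s + 1) F (g + ∑ i, h i)) / δ ^ (2 ^ (s + 1) - 1) := by
  set Φ : (Fin (s + 1) → G) → ℝ := fun h => F (g + ∑ i, h i) * ∏ j, b j h with hΦ
  have h1 : 𝔼 h ∈ P, Φ h = 𝔼 h ∈ P, 𝔼 w : Fin (s + 1) → ι, Φ (fun i => h i + e (w i)) := by
    rw [Finset.expect_comm, Finset.expect_congr rfl (fun w _ => hshift Φ w),
      Fintype.expect_const]
  have h2 : ∀ h ∈ P, |𝔼 w : Fin (s + 1) → ι, Φ (fun i => h i + e (w i))| ≤
      δ + Box e (s + 1) F (g + ∑ i, h i) / δ ^ (2 ^ (s + 1) - 1) := by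
    intro h _
    refine abs_le_add_pow_div hδ s (le_trans (le_of_eq ?_) (box_cs e (s + 1) F (g + ∑ i, h i)
      (fun a w => b a (fun i => h i + e (w i))) (fun a w => hb _ _) (fun a w u => ?_)))
    · refine congrArg (fun t => t ^ 2 ^ (s + 1)) (Finset.expect_congr rfl fun w _ => ?_)
      simp only [hΦ]
      rw [Finset.sum_add_distrib, add_assoc]
    · have : (fun i => h i + e (Function.update w a u i)) =
          Function.update (fun i => h i + e (w i)) a (h a + e u) := by
        funext i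
        by_cases hi : i = a
        · subst hi; simp
        · simp [Function.update_of_ne hi]
      simp only [this, hbu]
  rw [h1]
  refine (Finset.abs_expect_le _ _).trans ((Finset.expect_le_expect h2).trans (le_of_eq ?_))
  rw [Finset.expect_add_distrib, Finset.expect_const hP, Finset.expect_div]

/-- a product over a cube splits into the top corner and functions missing one coordinate -/
theorem cube_factor (s : ℕ) (Λ : G → ℝ) (hΛ : ∀ z, |Λ z| ≤ 1) (g : G) :
    ∃ b : Fin (s + 1) → (Fin (s + 1) → G) → ℝ, (∀ j h, |b j h| ≤ 1) ∧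
      (∀ j h z, b j (Function.update h j z) = b j h) ∧
      ∀ h, ∏ ω : Finset (Fin (s + 1)), Λ (g + ∑ i ∈ ω, h i) = Λ (g + ∑ i, h i) * ∏ j, b j h := by
  have hj : ∀ ω : Finset (Fin (s + 1)), ∃ j, ω ≠ univ → j ∉ ω := by
    intro ω
    by_cases h : ω = univ
    · exact ⟨0, fun h' => absurd h h'⟩
    · obtain ⟨j, hj⟩ : ∃ j, j ∉ ω := by
        by_contra hc
        push Not at hc
        exact h (Finset.eq_univ_iff_forall.2 hc)
      exact ⟨j, fun _ => hj⟩
  choose j hj using hj
  refine ⟨fun a h => ∏ ω ∈ (univ.erase univ).filter (fun ω => j ω = a), Λ (g + ∑ i ∈ ω, h i),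
    fun a h => ?_, fun a h z => ?_, fun h => ?_⟩
  · rw [Finset.abs_prod]
    exact Finset.prod_le_one (fun _ _ => abs_nonneg _) fun _ _ => hΛ _
  · refine Finset.prod_congr rfl fun ω hω => ?_
    obtain ⟨hω1, hω2⟩ := Finset.mem_filter.1 hω
    have hn : a ∉ ω := hω2 ▸ hj ω (Finset.mem_erase.1 hω1).1
    refine congrArg (fun t => Λ (g + t)) (Finset.sum_congr rfl fun i hi => ?_)
    have hia : i ≠ a := fun h' => hn (h' ▸ hi)
    rw [Function.update_of_ne hia]
  · rw [Finset.prod_fiberwise, Finset.mul_prod_erase univ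
      (fun ω : Finset (Fin (s + 1)) => Λ (g + ∑ i ∈ ω, h i)) (Finset.mem_univ univ)]

end Pool.Agent.P.MP_a9a441_nt
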