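import Pool.Agent.P.MP_a9a441_nt.Core
import Pool.Agent.P.MP_a9a441_nt.Box

/-! Box averages of the Moebius function along fourth powers, and the passage from the Liouville
function to the Moebius function. -/

namespace Pool.Agent.P.MP_a9a441_nt

open Polynomial Finset Pool.Agent.P.MP_a1177c_nt.HL
open scoped Classical BigOperators

variable {K : Type*} [Field K] [Fintype K] [CharP K 2]

omit [CharP K 2] in
theorem zero_mem_Pl (n : ℕ) : (0 : K[X]) ∈ Pl K n := by
  rw [mem_Pl, degree_zero]; exact WithBot.bot_lt_coe _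

instance plNonempty (n : ℕ) : Nonempty (Pl K n) := ⟨⟨0, zero_mem_Pl n⟩⟩

/-- product of the Moebius function over shifts by fourth powers -/
noncomputable def FT (T : Finset K[X]) (z : K[X]) : ℝ := ∏ t ∈ T, mu (z + t ^ 4)

omit [Fintype K] [CharP K 2] in
theorem abs_FT_le (T : Finset K[X]) (z : K[X]) : |FT T z| ≤ 1 := by
  rw [FT, Finset.abs_prod]
  exact Finset.prod_le_one (fun _ _ => abs_nonneg _) fun _ _ => abs_mu_le _

theorem FT_shift (T : Finset K[X]) (z v : K[X]) :
    FT T (z + v ^ 4) = FT (T.image fun t => t + v) z := by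
  have h2 : (2 : K[X]) = 0 := two_eq_zero_poly
  rw [FT, FT, Finset.prod_image (fun a _ b _ h => add_right_cancel h)]
  refine Finset.prod_congr rfl fun t _ => congrArg mu ?_
  linear_combination (-(2 * t ^ 3 * v + 3 * t ^ 2 * v ^ 2 + 2 * t * v ^ 3)) * h2

omit [CharP K 2] in
theorem expect_not_disjoint {e₀ : K[X]} (he₀ : e₀ ≠ 0) (T : Finset K[X]) (L : ℕ) (v : K[X]) :
    𝔼 u : Pl K L, (if Disjoint (T.image fun t => t + v) (T.image fun t => t + e₀ * u)
      then (0 : ℝ) else 1) ≤ (T.card : ℝ) ^ 2 / (Fintype.card K : ℝ) ^ L := by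
  rw [Fintype.expect_eq_sum_div_card, Fintype.card_coe, card_Pl]
  push_cast
  refine div_le_div_of_nonneg_right ?_ (by positivity)
  simp only [← ite_not (Disjoint _ _)]
  rw [Finset.sum_boole]
  have h : (univ.filter fun u : Pl K L => ¬ Disjoint (T.image fun t => t + v)
      (T.image fun t => t + e₀ * u)).card ≤
      ((T ×ˢ T).image fun z => z.1 + v - z.2).card := by
    refine Finset.card_le_card_of_injOn (fun u => e₀ * (u : K[X])) (fun u hu => ?_)
      (fun u _ u' _ h => Subtype.ext (mul_left_cancel₀ he₀ h))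
    obtain ⟨x, hx1, hx2⟩ := Finset.not_disjoint_iff.1 (Finset.mem_filter.1 hu).2
    obtain ⟨t, ht, rfl⟩ := Finset.mem_image.1 hx1
    obtain ⟨t', ht', h'⟩ := Finset.mem_image.1 hx2
    refine Finset.mem_coe.2 (Finset.mem_image.2 ⟨(t, t'), Finset.mem_product.2 ⟨ht, ht'⟩, ?_⟩)
    show t + v - t' = e₀ * u
    rw [← h']; ring
  have h' := h.trans Finset.card_image_le
  rw [Finset.card_product, ← sq] at h'
  exact_mod_cast h'

theorem box_mu {e₀ : K[X]} (he₀ : e₀ ≠ 0) (s : ℕ) : ∀ (m : ℕ) (η : ℝ), 0 < η → ∃ L₀ : ℕ,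
    ∀ L ≥ L₀, ∀ T : Finset K[X], T.Nonempty → T.card ≤ m → ∀ᶠ k in Filter.atTop,
      𝔼 G ∈ Mn K (2 * k + 1), Box (fun u : Pl K L => (e₀ * u) ^ 4) s (FT T) G ≤ η := by
  have hq : (2 : ℝ) ≤ Fintype.card K := by exact_mod_cast Fintype.one_lt_card
  induction s with
  | zero =>
    intro m η hη
    refine ⟨0, fun L _ T hT _ => ?_⟩
    obtain ⟨k₀, hk₀⟩ := chowla_four T hT hη
    refine Filter.eventually_atTop.2 ⟨k₀, fun k hk => ?_⟩
    rw [Finset.expect_eq_sum_div_card, card_Mn, div_le_iff₀ (by positivity)]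
    push_cast
    exact (le_abs_self _).trans (hk₀ k hk)
  | succ s ih =>
    intro m η hη
    obtain ⟨L₁, hL₁⟩ := ih (2 * m) (η / 2) (by positivity)
    obtain ⟨L₂, hL₂⟩ := exists_two_pow_ge ((m : ℝ) ^ 2 / (η / 2))
    refine ⟨L₁ + L₂, fun L hL T hT hm => ?_⟩
    have hsmall : (T.card : ℝ) ^ 2 / (Fintype.card K : ℝ) ^ L ≤ η / 2 := by
      have h1 := hL₂ L (by omega)
      have h2 : (0 : ℝ) ≤ L := Nat.cast_nonneg _
      have h3 : (m : ℝ) ^ 2 / (η / 2) ≤ (Fintype.card K : ℝ) ^ L :=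
        (le_trans (le_mul_of_one_le_right (by positivity) (by linarith)) h1).trans
          (pow_le_pow_left₀ (by norm_num) hq _)
      rw [div_le_iff₀ (by positivity)] at h3 ⊢
      have h4 : (T.card : ℝ) ^ 2 ≤ (m : ℝ) ^ 2 :=
        pow_le_pow_left₀ (Nat.cast_nonneg _) (by exact_mod_cast hm) 2
      linarith
    set e : Pl K L → K[X] := fun u => (e₀ * u) ^ 4 with he
    have hev : ∀ u u' : Pl K L, ∀ᶠ k in Filter.atTop, 𝔼 G ∈ Mn K (2 * k + 1),
        Box e s (fun z => FT T (z + e u) * FT T (z + e u')) G ≤ η / 2 +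
          if Disjoint (T.image fun t => t + e₀ * u) (T.image fun t => t + e₀ * u') then 0
          else 1 := by
      intro u u'
      split_ifs with hd
      · have hF : (fun z => FT T (z + e u) * FT T (z + e u')) =
            FT ((T.image fun t => t + e₀ * (u : K[X])) ∪
              T.image fun t => t + e₀ * (u' : K[X])) := by
          funext z
          simp only [he]
          rw [FT_shift, FT_shift, FT, FT, FT, Finset.prod_union hd]
        rw [hF, add_zero]
        refine hL₁ L (by omega) _ ((hT.image _).mono Finset.subset_union_left) ?_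
        have h1 := Finset.card_union_le (T.image fun t => t + e₀ * (u : K[X]))
          (T.image fun t => t + e₀ * (u' : K[X]))
        have h2 := Finset.card_image_le (s := T) (f := fun t => t + e₀ * (u : K[X]))
        have h3 := Finset.card_image_le (s := T) (f := fun t => t + e₀ * (u' : K[X]))
        omega
      · refine Filter.Eventually.of_forall fun k => ?_
        have hne : (Mn K (2 * k + 1)).Nonempty := by
          rw [← Finset.card_pos, card_Mn]; positivity
        refine Finset.expect_le hne fun G _ => (box_le_one e s _ G fun z => ?_).trans (by linarith)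
        rw [abs_mul]
        exact mul_le_one₀ (abs_FT_le _ _) (abs_nonneg _) (abs_FT_le _ _)
    filter_upwards [Filter.eventually_all.2 fun u => Filter.eventually_all.2 (hev u)] with k hk
    simp only [Box]
    rw [Finset.expect_comm]
    refine Finset.expect_le Finset.univ_nonempty fun u _ => ?_
    rw [Finset.expect_comm]
    refine (Finset.expect_le_expect fun u' _ => hk u u').trans ?_
    rw [Finset.expect_add_distrib, Fintype.expect_const]
    have := expect_not_disjoint he₀ T L (e₀ * u)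
    linarith

omit [Fintype K] [CharP K 2] in
theorem sq_part_unique {d d₀ G G₀ : K[X]} (hd : d.Monic) (hd₀ : d₀.Monic) (hG : Squarefree G)
    (hG₀ : Squarefree G₀) (h : d ^ 2 * G = d₀ ^ 2 * G₀) : d = d₀ := by
  obtain ⟨a, b, c, hab, rfl, rfl⟩ :=
    UniqueFactorizationMonoid.exists_reduced_factors d hd.ne_zero d₀
  have hc : c ≠ 0 := left_ne_zero_of_mul hd.ne_zero
  have h1 : a ^ 2 * G = b ^ 2 * G₀ := by
    refine mul_left_cancel₀ (pow_ne_zero 2 hc) ?_
    linear_combination h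
  have hc2 : IsCoprime (a ^ 2) (b ^ 2) := hab.isCoprime.pow
  have ha : IsUnit a := hG₀ a (by
    rw [← sq]; exact hc2.dvd_of_dvd_mul_left ⟨G, h1.symm⟩)
  have hb : IsUnit b := hG b (by
    rw [← sq]; exact hc2.symm.dvd_of_dvd_mul_left ⟨G₀, h1⟩)
  exact eq_of_monic_of_associated hd hd₀
    ((associated_mul_unit_left c a ha).trans (associated_mul_unit_right c b hb))

omit [CharP K 2] in
theorem lam_decomp {G : K[X]} (hG : G.Monic) (t : ℕ) :
    |lam G - ∑ d ∈ (Pl K t).filter Monic, (if d ^ 2 ∣ G then mu (G /ₘ d ^ 2) else 0)| ≤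
      if ∃ g : K[X], g.Monic ∧ t ≤ g.natDegree ∧ g ^ 2 ∣ G then 1 else 0 := by
  obtain ⟨g, G₀, hg, hG₀, hs, rfl⟩ := ro_sq_mul_squarefree _ G hG rfl
  have h0 : ∀ d ∈ (Pl K t).filter Monic, d ≠ g →
      (if d ^ 2 ∣ g ^ 2 * G₀ then mu ((g ^ 2 * G₀) /ₘ d ^ 2) else 0) = 0 := by
    intro d hd hne
    have hdm : d.Monic := (Finset.mem_filter.1 hd).2
    split_ifs with h
    · obtain ⟨G₁, h1⟩ := h
      rw [h1, mul_divByMonic_cancel_left _ (hdm.pow 2), mu, if_neg]
      intro hs₁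
      exact hne (sq_part_unique hdm hg hs₁ hs h1.symm)
    · rfl
  by_cases hgt : g.natDegree < t
  · have hmem : g ∈ (Pl K t).filter Monic :=
      Finset.mem_filter.2 ⟨mem_Pl.2 ((natDegree_lt_iff_degree_lt hg.ne_zero).1 hgt), hg⟩
    rw [Finset.sum_eq_single_of_mem g hmem h0, if_pos (dvd_mul_right _ _),
      mul_divByMonic_cancel_left _ (hg.pow 2), mu, if_pos hs, sq,
      lam_mul (mul_ne_zero hg.ne_zero hg.ne_zero) hG₀.ne_zero, lam_mul hg.ne_zero hg.ne_zero,
      lam_mul_self, one_mul, sub_self, abs_zero]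
    split_ifs <;> norm_num
  · rw [if_pos ⟨g, hg, not_lt.1 hgt, dvd_mul_right _ _⟩, Finset.sum_eq_zero, sub_zero, abs_lam]
    intro d hd
    refine h0 d hd ?_
    rintro rfl
    exact hgt ((natDegree_lt_iff_degree_lt hg.ne_zero).2 (mem_Pl.1 (Finset.mem_filter.1 hd).1))

omit [CharP K 2] in
theorem expect_div_le {e₀ M : K[X]} (he₀ : e₀.Monic) (he₁ : e₀.natDegree ≤ 1) (hM : M.Monic)
    {n N : ℕ} (hN : N + M.natDegree = n + e₀.natDegree) (Ψ : K[X] → ℝ) (hΨ : ∀ z, 0 ≤ Ψ z) :
    𝔼 G ∈ Mn K n, (if M ∣ e₀ * G then Ψ ((e₀ * G) /ₘ M) else 0) ≤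
      Fintype.card K * 𝔼 G ∈ Mn K N, Ψ G := by
  set q : ℝ := (Fintype.card K : ℝ) with hq
  have hq1 : 1 ≤ q := mom_one_le_card
  have h1 : ∑ G ∈ Mn K n, (if M ∣ e₀ * G then Ψ ((e₀ * G) /ₘ M) else 0) ≤ ∑ G ∈ Mn K N, Ψ G := by
    rw [← Finset.sum_filter, ← Finset.sum_image (g := fun G => (e₀ * G) /ₘ M)]
    · refine Finset.sum_le_sum_of_subset_of_nonneg (fun z hz => ?_) fun _ _ _ => hΨ _
      obtain ⟨G, hG, rfl⟩ := Finset.mem_image.1 hz
      obtain ⟨hG1, G', hG'⟩ := Finset.mem_filter.1 hG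
      obtain ⟨hGm, hGd⟩ := mem_Mn.1 hG1
      have hm : G'.Monic := hM.of_mul_monic_left (hG' ▸ he₀.mul hGm)
      have hd := congrArg natDegree hG'
      rw [he₀.natDegree_mul hGm, hM.natDegree_mul hm] at hd
      rw [hG', mul_divByMonic_cancel_left _ hM]
      exact mem_Mn.2 ⟨hm, by omega⟩
    · intro G hG G₂ hG₂ h
      obtain ⟨-, G', hG'⟩ := Finset.mem_filter.1 (Finset.mem_coe.1 hG)
      obtain ⟨-, G₂', hG₂'⟩ := Finset.mem_filter.1 (Finset.mem_coe.1 hG₂)
      have h' : (e₀ * G) /ₘ M = (e₀ * G₂) /ₘ M := h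
      rw [hG', hG₂', mul_divByMonic_cancel_left _ hM, mul_divByMonic_cancel_left _ hM] at h'
      refine mul_left_cancel₀ he₀.ne_zero ?_
      rw [hG', hG₂', h']
  have h0 : 0 ≤ ∑ G ∈ Mn K N, Ψ G := Finset.sum_nonneg fun _ _ => hΨ _
  rw [Finset.expect_eq_sum_div_card, Finset.expect_eq_sum_div_card, card_Mn, card_Mn]
  push_cast
  rw [← mul_div_assoc, div_le_div_iff₀ (by positivity) (by positivity)]
  calc _ ≤ (∑ G ∈ Mn K N, Ψ G) * q ^ N := mul_le_mul_of_nonneg_right h1 (by positivity)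
    _ ≤ (∑ G ∈ Mn K N, Ψ G) * q ^ (n + 1) :=
        mul_le_mul_of_nonneg_left (pow_le_pow_right₀ hq1 (by omega)) h0
    _ = _ := by ring

end Pool.Agent.P.MP_a9a441_nt
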