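import Pool.Agent.P.MP_a9a441_nt.CoreK

/-! Correlations of the Liouville function along linear forms. -/

namespace Pool.Agent.P.MP_a9a441_nt

open Polynomial Finset Pool.Agent.P.MP_a1177c_nt.HL
open scoped BigOperators Classical

variable {K : Type*} [Field K] [Fintype K] [CharP K 2]

theorem chowla_sq {J : Type} [Fintype J] (i₀ : J) {A : K[X]} (hA : A.Monic) (t : ℕ) {ε : ℝ}
    (hε : 0 < ε) : ∃ n₀ : ℕ, ∀ n ≥ n₀, Odd (n + A.natDegree) → ∀ B d : J → K[X],
      (∀ i, B i ∈ Pl K (A.natDegree + n)) → (∀ i, i ≠ i₀ → B i ≠ B i₀) →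
      (∀ i, (d i).Monic ∧ (d i).natDegree ≤ t) →
      |∑ g ∈ Mn K n, ∏ i, if d i ^ 2 ∣ A * g + B i then mu ((A * g + B i) /ₘ d i ^ 2) else 0| ≤
        ε * (Fintype.card K : ℝ) ^ n := by
  obtain ⟨k₀, hk₀⟩ := chowla_mu (K := K) i₀ (A.natDegree + Fintype.card J * t) hε
  refine ⟨A.natDegree + 2 * (Fintype.card J * t) + 2 * k₀ + 1, fun n hn hodd B d hB hne hd => ?_⟩
  set P : K[X] := ∏ i, d i with hP
  have hPm : P.Monic := monic_prod_of_monic _ _ fun i _ => (hd i).1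
  have hPd : P.natDegree ≤ Fintype.card J * t :=
    (natDegree_prod_le _ _).trans (sum_le_card_nsmul _ _ t fun i _ => (hd i).2)
  have hM : (A * P ^ 2).Monic := hA.mul (hPm.pow 2)
  have hMd : (A * P ^ 2).natDegree = A.natDegree + 2 * P.natDegree := by
    rw [hA.natDegree_mul (hPm.pow 2), hPm.natDegree_pow]
  obtain ⟨k, hk, rfl⟩ : ∃ k, k₀ ≤ k ∧ n = (A * P ^ 2).natDegree + (2 * k + 1) := by
    obtain ⟨m, hm⟩ := hodd
    exact ⟨m - A.natDegree - P.natDegree, by omega, by omega⟩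
  have h1 : ∀ i, ∃ α : K[X], A * P = d i * α := fun i =>
    (Finset.dvd_prod_of_mem d (mem_univ i)).mul_left A
  choose α hα using h1
  have hαm : ∀ i, (α i).Monic := fun i => (hd i).1.of_mul_monic_left (hα i ▸ hA.mul hPm)
  have hαd : ∀ i, (d i).natDegree + (α i).natDegree = A.natDegree + P.natDegree := fun i => by
    rw [← (hd i).1.natDegree_mul (hαm i), ← hα i, hA.natDegree_mul hPm]
  rw [sum_Mn_divmod hM, pow_add, mul_left_comm]
  refine (Finset.abs_sum_le_sum_abs _ _).trans ((Finset.sum_le_card_nsmul _ _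
    (ε * (Fintype.card K : ℝ) ^ (2 * k + 1)) fun ρ hρ => ?_).trans (le_of_eq ?_))
  · have e1 : ∀ G i, A * (ρ + A * P ^ 2 * G) + B i = A * ρ + B i + d i ^ 2 * (α i ^ 2 * G) := by
      intro G i
      linear_combination (G * (A * P + d i * α i)) * hα i
    simp only [e1]
    by_cases h2 : ∀ i, d i ^ 2 ∣ A * ρ + B i
    · choose B' hB' using h2
      have e2 : ∀ G i, (if d i ^ 2 ∣ A * ρ + B i + d i ^ 2 * (α i ^ 2 * G) then
          mu ((A * ρ + B i + d i ^ 2 * (α i ^ 2 * G)) /ₘ d i ^ 2) else 0) =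
          mu (α i ^ 2 * G + B' i) := by
        intro G i
        rw [hB' i, ← mul_add, if_pos (dvd_mul_right _ _),
          mul_divByMonic_cancel_left _ ((hd i).1.pow 2), add_comm]
      simp only [e2]
      refine hk₀ k hk α B' (fun i => ⟨hαm i, by have := hαd i; omega⟩) (fun i => ?_)
        fun i hi h3 => hne i hi ?_
      · have h3 : A * ρ + B i ∈ Pl K (A.natDegree + ((A * P ^ 2).natDegree + (2 * k + 1))) :=
          add_mem_Pl (mul_mem_Pl hρ (by omega)) (hB i)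
        rcases eq_or_ne (B' i) 0 with h0 | h0
        · rw [h0]; exact zero_mem_Pl _
        have h4 := ((hd i).1.pow 2).ne_zero
        rw [hB' i, mem_Pl, ← natDegree_lt_iff_degree_lt (mul_ne_zero h4 h0), natDegree_mul h4 h0,
          natDegree_pow] at h3
        rw [mem_Pl, ← natDegree_lt_iff_degree_lt h0]
        have := hαd i
        omega
      · refine add_left_cancel (a := A * ρ) (mul_left_cancel₀ ((hA.mul hPm).pow 2).ne_zero ?_)
        calc (A * P) ^ 2 * (A * ρ + B i) = d i₀ ^ 2 * d i ^ 2 * (α i₀ ^ 2 * B' i) := by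
              rw [hB' i, hα i₀]; ring
          _ = (A * P) ^ 2 * (A * ρ + B i₀) := by rw [h3, hB' i₀, hα i]; ring
    · obtain ⟨i, hi⟩ := not_forall.1 h2
      rw [Finset.sum_eq_zero, abs_zero]
      · positivity
      · exact fun G _ => Finset.prod_eq_zero (mem_univ i)
          (if_neg fun h => hi ((dvd_add_left (dvd_mul_right _ _)).1 h))
  · rw [card_Pl, nsmul_eq_mul, Nat.cast_pow]

theorem abs_prod_sub_le {J : Type*} [Fintype J] (f g : J → ℝ) (P : J → Prop) [DecidablePred P]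
    (hf : ∀ i, |f i| = 1) (h : ∀ i, |f i - g i| ≤ if P i then 1 else 0) :
    |∏ i, f i - ∏ i, g i| ≤ (1 + 2 ^ Fintype.card J) * ∑ i, if P i then (1 : ℝ) else 0 := by
  by_cases h1 : ∃ i, P i
  · obtain ⟨i, hi⟩ := h1
    have h2 : (1 : ℝ) ≤ ∑ i, if P i then (1 : ℝ) else 0 :=
      le_trans (if_pos hi).ge (Finset.single_le_sum (f := fun i => if P i then (1 : ℝ) else 0)
        (fun i _ => by positivity) (mem_univ i))
    refine le_trans ?_ (le_mul_of_one_le_right (by positivity) h2)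
    refine (abs_sub _ _).trans (add_le_add ?_ ?_)
    · simp only [Finset.abs_prod, hf, Finset.prod_const_one, le_refl]
    · rw [Finset.abs_prod, ← card_univ, ← Finset.prod_const]
      refine Finset.prod_le_prod (fun _ _ => abs_nonneg _) fun j _ => ?_
      have h3 : |f j - g j| ≤ 1 := (h j).trans (by split_ifs <;> norm_num)
      have h4 := abs_sub (f j) (f j - g j)
      rw [sub_sub_cancel, hf] at h4
      linarith
  · have h2 : f = g := funext fun i => by
      have h3 := h i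
      rw [if_neg (not_exists.1 h1 i)] at h3
      exact sub_eq_zero.1 (abs_nonpos_iff.1 h3)
    rw [h2, sub_self, abs_zero]
    positivity

theorem chowla_lam {J : Type} [Fintype J] (i₀ : J) {A : K[X]} (hA : A.Monic) {ε : ℝ}
    (hε : 0 < ε) : ∃ n₀ : ℕ, ∀ n ≥ n₀, Odd (n + A.natDegree) → ∀ B : J → K[X],
      (∀ i, B i ∈ Pl K (A.natDegree + n)) → (∀ i, i ≠ i₀ → B i ≠ B i₀) →
      |∑ g ∈ Mn K n, ∏ i, lam (A * g + B i)| ≤ ε * (Fintype.card K : ℝ) ^ n := by
  set q : ℝ := (Fintype.card K : ℝ) with hq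
  have hq2 : (2 : ℝ) ≤ q := by rw [hq]; exact_mod_cast Fintype.one_lt_card
  set r := Fintype.card J with hr
  set δ : ℝ := ε / 2 / ((1 + 2 ^ r) * (r + 1)) with hδ
  have hδ0 : 0 < δ := by positivity
  obtain ⟨t, ht⟩ := exists_pow_ge hq2 (2 * q ^ A.natDegree) hδ0
  set D := Fintype.piFinset fun _ : J => (Pl K t).filter Monic with hD
  obtain ⟨n₀, hn₀⟩ := chowla_sq i₀ hA t (ε := ε / 2 / (D.card + 1)) (by positivity)
  refine ⟨n₀, fun n hn hodd B hB hne => ?_⟩
  set P : K[X] → Prop := fun Y => ∃ g : K[X], g.Monic ∧ t ≤ g.natDegree ∧ g ^ 2 ∣ Y with hP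
  set S : K[X] → ℝ := fun g => ∏ i, ∑ d ∈ (Pl K t).filter Monic,
    if d ^ 2 ∣ A * g + B i then mu ((A * g + B i) /ₘ d ^ 2) else 0 with hS
  have h1 : |∑ g ∈ Mn K n, S g| ≤ ε / 2 * q ^ n := by
    simp only [hS, Finset.prod_univ_sum]
    rw [Finset.sum_comm]
    refine (Finset.abs_sum_le_sum_abs _ _).trans ((Finset.sum_le_card_nsmul _ _
      (ε / 2 / (D.card + 1) * q ^ n) fun d hd => hn₀ n hn hodd B d hB hne fun i => ?_).trans ?_)
    · obtain ⟨h2, h3⟩ := Finset.mem_filter.1 (Fintype.mem_piFinset.1 hd i)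
      exact ⟨h3, ((natDegree_lt_iff_degree_lt h3.ne_zero).2 (mem_Pl.1 h2)).le⟩
    · rw [nsmul_eq_mul, ← mul_assoc]
      refine mul_le_mul_of_nonneg_right ?_ (by positivity)
      rw [← mul_div_assoc, div_le_iff₀ (by positivity), ← hD]
      nlinarith
  have h2 : ∀ i, ∑ g ∈ Mn K n, (if P (A * g + B i) then (1 : ℝ) else 0) ≤ δ * q ^ n := by
    intro i
    refine (card_lin_le hA (hB i) P fun Y hY h => ?_).trans (le_of_mul_pow (Q := q ^ t)
      (c := 2 * q ^ A.natDegree) (by positivity) (by positivity)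
      ((card_bad_y (A.natDegree + n) t).trans ?_) ?_)
    · exact Finset.mem_filter.2 ⟨hY, h⟩
    · rw [pow_add, mul_assoc]
    · exact (le_mul_of_one_le_right (by positivity)
        (by linarith [Nat.cast_nonneg (α := ℝ) t])).trans (ht t le_rfl)
  have h3 : |∑ g ∈ Mn K n, (∏ i, lam (A * g + B i) - S g)| ≤ ε / 2 * q ^ n := by
    refine (Finset.abs_sum_le_sum_abs _ _).trans ((Finset.sum_le_sum fun g hg =>
      abs_prod_sub_le _ _ (fun i => P (A * g + B i)) (fun i => abs_lam _) fun i =>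
        lam_decomp (mem_Mn.1 (lin_mem_Mn hA (hB i) hg)).1 t).trans ?_)
    rw [← Finset.mul_sum, Finset.sum_comm]
    refine (mul_le_mul_of_nonneg_left (Finset.sum_le_card_nsmul _ _ _ fun i _ => h2 i)
      (by positivity)).trans ?_
    rw [card_univ, nsmul_eq_mul, ← mul_assoc, ← mul_assoc]
    refine mul_le_mul_of_nonneg_right ?_ (by positivity)
    have h4 : δ * ((1 + 2 ^ r) * (r + 1)) = ε / 2 := by rw [hδ]; field_simp
    have h5 : 0 ≤ δ * (1 + 2 ^ r) := by positivity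
    rw [← hr]
    linarith
  rw [Finset.sum_sub_distrib] at h3
  have h4 := abs_add_le (∑ g ∈ Mn K n, ∏ i, lam (A * g + B i) - ∑ g ∈ Mn K n, S g)
    (∑ g ∈ Mn K n, S g)
  rw [sub_add_cancel] at h4
  linarith

theorem chowla_aux {J : Type} [Fintype J] (i₀ : J) {a : J → K[X]} (ha : ∀ i, a i ≠ 0) {A : K[X]}
    (hA : A.Monic) (haA : ∀ i, a i ∣ A) {ε : ℝ} (hε : 0 < ε) :
    ∃ n₀ : ℕ, ∀ n ≥ n₀, Odd (n + A.natDegree) → ∀ b : J → K[X],
      (∀ i, b i ∈ Pl K ((a i).natDegree + n)) → (∀ i, i ≠ i₀ → a i₀ * b i ≠ a i * b i₀) →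
      |∑ g ∈ Mn K n, ∏ i, lam (a i * g + b i)| ≤ ε * (Fintype.card K : ℝ) ^ n := by
  obtain ⟨n₀, hn₀⟩ := chowla_lam i₀ hA hε
  refine ⟨n₀, fun n hn hodd b hb hne => ?_⟩
  choose m hm using haA
  have hm0 : ∀ i, m i ≠ 0 := fun i => right_ne_zero_of_mul (hm i ▸ hA.ne_zero)
  have hB : ∀ i, m i * b i ∈ Pl K (A.natDegree + n) := fun i => mul_mem_Pl (hb i) (by
    rw [hm i, natDegree_mul (ha i) (hm0 i)]; omega)
  have h1 := hn₀ n hn hodd (fun i => m i * b i) hB fun i hi h => hne i hi (by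
    refine mul_left_cancel₀ hA.ne_zero ?_
    calc A * (a i₀ * b i) = a i * a i₀ * (m i * b i) := by rw [hm i]; ring
      _ = A * (a i * b i₀) := by rw [h, hm i₀]; ring)
  have h2 : ∀ g ∈ Mn K n, ∏ i, lam (A * g + m i * b i) =
      (∏ i, lam (m i)) * ∏ i, lam (a i * g + b i) := by
    intro g hg
    rw [← Finset.prod_mul_distrib]
    refine Finset.prod_congr rfl fun i _ => ?_
    have h3 := (mem_Mn.1 (lin_mem_Mn hA (hB i) hg)).1.ne_zero
    have h4 : A * g + m i * b i = m i * (a i * g + b i) := by rw [hm i]; ring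
    rw [h4] at h3 ⊢
    exact lam_mul (hm0 i) (right_ne_zero_of_mul h3)
  rw [Finset.sum_congr rfl h2, ← Finset.mul_sum, abs_mul, Finset.abs_prod] at h1
  simpa only [abs_lam, Finset.prod_const_one, one_mul] using h1

theorem chowla {J : Type} [Fintype J] (i₀ : J) {a : J → K[X]} (ha : ∀ i, a i ≠ 0) {ε : ℝ}
    (hε : 0 < ε) : ∃ n₀ : ℕ, ∀ n ≥ n₀, ∀ b : J → K[X],
      (∀ i, b i ∈ Pl K ((a i).natDegree + n)) → (∀ i, i ≠ i₀ → a i₀ * b i ≠ a i * b i₀) →
      |∑ g ∈ Mn K n, ∏ i, lam (a i * g + b i)| ≤ ε * (Fintype.card K : ℝ) ^ n := by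
  obtain ⟨A, hA, haA⟩ : ∃ A : K[X], A.Monic ∧ ∀ i, a i ∣ A :=
    ⟨_, monic_mul_leadingCoeff_inv (Finset.prod_ne_zero_iff.2 fun i (_ : i ∈ univ) => ha i),
      fun i => (Finset.dvd_prod_of_mem a (mem_univ i)).mul_right _⟩
  obtain ⟨n₁, h₁⟩ := chowla_aux i₀ ha hA haA hε
  obtain ⟨n₂, h₂⟩ := chowla_aux i₀ ha (monic_X.mul hA) (fun i => (haA i).mul_left X) hε
  refine ⟨n₁ + n₂, fun n hn => ?_⟩
  rcases Nat.even_or_odd (n + A.natDegree) with h | h
  · refine h₂ n (by omega) ?_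
    rw [monic_X.natDegree_mul hA, natDegree_X, add_left_comm, add_comm]
    exact h.add_one
  · exact h₁ n (by omega) h

end Pool.Agent.P.MP_a9a441_nt
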