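import Pool.Agent.P.MP_a9a441_nt.Good
import Pool.Agent.P.MP_a9a441_nt.BadY
import Pool.Agent.P.MP_a1177c_nt.HL.RangeOne

/-! Correlations of the Moebius function at shifts by fourth powers. -/

namespace Pool.Agent.P.MP_a9a441_nt

open Polynomial Finset Pool.Agent.P.MP_a1177c_nt.HL
open scoped Classical

variable {K : Type*} [Field K] [Fintype K] [CharP K 2]

theorem core_num {m ω e a : ℕ} {δ Q S N : ℝ} (hm : 1 ≤ m) (hω : 192 * m * ω ≤ e)
    (he : 100 * e ≤ a) (hQ : 2 ≤ Q) (hδ : 0 ≤ δ) (hδe : 2 ^ 49 ≤ δ ^ 16 * 2 ^ e) (hN : 0 ≤ N)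
    (h : S ^ 16 * Q ^ a ≤ N ^ 16 * (6 ^ ω * (8 ^ 16 + 16 * (32 * m) ^ ω * (4 ^ e) ^ 15))) :
    S ≤ δ * N := by
  have hm' : (1 : ℝ) ≤ m := by exact_mod_cast hm
  have h1 : (6 : ℝ) ^ ω * (32 * m) ^ ω ≤ 2 ^ e := by
    rw [← mul_pow]
    have h2 : ((192 * m : ℕ) : ℝ) ≤ 2 ^ (192 * m) := by exact_mod_cast (Nat.lt_two_pow_self).le
    calc (6 * (32 * m) : ℝ) ^ ω = ((192 * m : ℕ) : ℝ) ^ ω := by push_cast; ring
      _ ≤ (2 ^ (192 * m)) ^ ω := pow_le_pow_left₀ (by positivity) h2 _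
      _ ≤ 2 ^ e := by rw [← pow_mul]; exact pow_le_pow_right₀ (by norm_num) hω
  have h2 : (6 : ℝ) ^ ω ≤ 2 ^ e :=
    le_trans (le_mul_of_one_le_right (by positivity) (one_le_pow₀ (by linarith))) h1
  set E : ℝ := 2 ^ e with hE
  have hE1 : 1 ≤ E := one_le_pow₀ (by norm_num)
  have h4 : (4 : ℝ) ^ e = E ^ 2 := by
    rw [hE, ← pow_mul, mul_comm, pow_mul]; norm_num
  have h5 : E ^ 100 ≤ Q ^ a := by
    rw [hE, ← pow_mul]
    exact (pow_le_pow_right₀ (by norm_num) (by omega)).trans (pow_le_pow_left₀ (by norm_num) hQ _)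
  have h6 : (6 : ℝ) ^ ω * (8 ^ 16 + 16 * (32 * m) ^ ω * (4 ^ e) ^ 15) ≤ 2 ^ 49 * E ^ 31 := by
    have h7 : E ≤ E ^ 31 := le_self_pow₀ hE1 (by norm_num)
    have h8 : (0 : ℝ) ≤ E ^ 30 := by positivity
    calc (6 : ℝ) ^ ω * (8 ^ 16 + 16 * (32 * m) ^ ω * (4 ^ e) ^ 15)
        = 8 ^ 16 * 6 ^ ω + 16 * (6 ^ ω * (32 * m) ^ ω) * E ^ 30 := by rw [h4]; ring
      _ ≤ 8 ^ 16 * E ^ 31 + 16 * E * E ^ 30 := by
          gcongr
          exact h2.trans h7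
      _ = (8 ^ 16 + 16) * E ^ 31 := by ring
      _ ≤ 2 ^ 49 * E ^ 31 := by gcongr; norm_num
  have h7 : (2 : ℝ) ^ 49 * E ^ 31 ≤ δ ^ 16 * Q ^ a := by
    calc (2 : ℝ) ^ 49 * E ^ 31 ≤ δ ^ 16 * E * E ^ 31 := by gcongr
      _ = δ ^ 16 * E ^ 32 := by ring
      _ ≤ δ ^ 16 * E ^ 100 := by gcongr; norm_num
      _ ≤ δ ^ 16 * Q ^ a := by gcongr
  have hQa : 0 < Q ^ a := by positivity
  have h8 : S ^ 16 ≤ (δ * N) ^ 16 := by
    refine le_of_mul_le_mul_right (h.trans ?_) hQa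
    calc N ^ 16 * (6 ^ ω * (8 ^ 16 + 16 * (32 * m) ^ ω * (4 ^ e) ^ 15))
        ≤ N ^ 16 * (δ ^ 16 * Q ^ a) := mul_le_mul_of_nonneg_left (h6.trans h7) (by positivity)
      _ = (δ * N) ^ 16 * Q ^ a := by ring
  exact le_of_pow_le_pow_left₀ (by norm_num) (by positivity) h8

theorem good_of_not_bad {T : Finset K[X]} {s₀ Δ : K[X]} (hs₀ : s₀ ∈ T) (hΔ : Δ.Monic)
    (hΔd : ∀ s ∈ T, s ≠ s₀ → s + s₀ ∣ Δ) {k a b t e : ℕ} {δ : ℝ} (hδ : 0 ≤ δ)
    (hσ : ∀ s ∈ T, 2 * s.natDegree ≤ k) (hn : 2 * (3 * t + b + Δ.natDegree + (k / 8 + 1)) ≤ k)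
    (he : 100 * e ≤ a)
    (hω : ∀ p : K[X], p ≠ 0 → p.natDegree ≤ k → 192 * T.card * (pf p).card ≤ e)
    (hδe : 2 ^ 49 ≤ δ ^ 16 * 2 ^ e) {y : K[X]} (hy : y ∈ Mn K k)
    (h1 : ¬ ∃ g : K[X], g.Monic ∧ t ≤ g.natDegree ∧ g ^ 2 ∣ y)
    (h2 : ∃ π : K[X], π.Monic ∧ Irreducible π ∧ a ≤ π.natDegree ∧ π.natDegree < b ∧ π ∣ y)
    (h3 : ¬ ∃ y₁ p : K[X], y₁.Monic ∧ p.Monic ∧ y = y₁ * p ∧ a ≤ y₁.natDegree ∧
      (Fintype.card K : ℝ) ^ (k / 8 + 1) * 4 ^ e <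
        ∑ w ∈ (Pl K (k / 8 + 1)).erase 0, momWt p (zz T s₀ y₁ w)) :
    |∑ x ∈ Pl K (k + 1), ∏ s ∈ T, mu ((x + s ^ 2) ^ 2 + X * y ^ 2)| ≤
      δ * (Fintype.card K : ℝ) ^ (k + 1) := by
  obtain ⟨π, hπm, hπi, hπa, hπb, hπy⟩ := h2
  obtain ⟨hym, hyk⟩ := mem_Mn.1 hy
  obtain ⟨g, y₁, p, hg, hy₁, hp, hgy, hyp, hsq, hc, hd⟩ := split_y hym (hπm.mul hΔ)
  rw [hπm.natDegree_mul hΔ] at hd
  have hgt : g.natDegree < t := by
    by_contra h
    exact h1 ⟨g, hg, not_lt.1 h, hgy⟩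
  have hπp : IsCoprime π p := hc.of_mul_left_left.of_mul_left_left
  have hΔp : IsCoprime Δ p := hc.of_mul_left_left.of_mul_left_right
  have hπy₁ : π ∣ y₁ := hπp.dvd_of_dvd_mul_right (hyp ▸ hπy)
  have ha₁ : a ≤ y₁.natDegree := hπa.trans (natDegree_le_of_dvd hπy₁ hy₁.ne_zero)
  have hdeg : y₁.natDegree + p.natDegree = k := by rw [← hyk, hyp, hy₁.natDegree_mul hp]
  have hΛ : ∑ w ∈ (Pl K (k / 8 + 1)).erase 0, momWt p (zz T s₀ y₁ w) ≤
      (Fintype.card K : ℝ) ^ (k / 8 + 1) * 4 ^ e := by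
    by_contra h
    exact h3 ⟨y₁, p, hy₁, hp, hyp, ha₁, not_le.1 h⟩
  have key := good_bound hy₁ hp hsq hc.of_mul_left_right (k := k) (by rw [← hyp, hyk]) hs₀
    (fun s hs hne => hΔp.of_isCoprime_of_dvd_left (hΔd s hs hne)) hσ (l := k / 8 + 1)
    (by omega) (by omega) (by omega) (4 ^ e) (by positivity) hΛ
  rw [← hyp] at key
  have hQ : (2 : ℝ) ≤ Fintype.card K := by exact_mod_cast Fintype.one_lt_card
  exact core_num (Finset.card_pos.2 ⟨s₀, hs₀⟩) (hω p hp.ne_zero (by omega)) (he.trans ha₁) hQ hδ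
    hδe (by positivity) key

omit [Fintype K] [CharP K 2] in
theorem zz_facts {T : Finset K[X]} {s₀ y₁ w : K[X]} (hs₀ : s₀ ∈ T) {a k l : ℕ}
    (hσ : ∀ s ∈ T, s.natDegree < a) (hy₁ : y₁.Monic) (ha : a ≤ y₁.natDegree)
    (hk : y₁.natDegree ≤ k) (hw0 : w ≠ 0) (hw : w.natDegree ≤ l) (hl : l ≤ k) :
    zz T s₀ y₁ w ≠ 0 ∧ (zz T s₀ y₁ w).natDegree ≤ 2 * T.card * k := by
  have hd : (y₁ * w).natDegree = y₁.natDegree + w.natDegree := natDegree_mul hy₁.ne_zero hw0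
  have h1 : ∀ s ∈ T, (s + s₀ + y₁ * w).natDegree = y₁.natDegree + w.natDegree := by
    intro s hs
    rw [← hd]
    refine natDegree_add_eq_right_of_natDegree_lt ?_
    have h2 := natDegree_add_le s s₀
    have h3 := hσ s hs
    have h4 := hσ s₀ hs₀
    omega
  constructor
  · refine Finset.prod_ne_zero_iff.2 fun s hs h0 => ?_
    have h2 := h1 s hs
    have h3 := hσ s hs
    rw [h0, natDegree_zero] at h2
    omega
  · refine (natDegree_prod_le _ _).trans ?_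
    calc ∑ s ∈ T, (s + s₀ + y₁ * w).natDegree ≤ ∑ _s ∈ T, 2 * k :=
          Finset.sum_le_sum fun s hs => by rw [h1 s hs]; omega
      _ = 2 * T.card * k := by rw [Finset.sum_const, smul_eq_mul]; ring

theorem exists_two_pow_ge (c : ℝ) : ∃ e₀ : ℕ, ∀ e ≥ e₀, c * (e + 1) ≤ 2 ^ e := by
  have h := tendsto_pow_const_div_const_pow_of_one_lt 1 (r := 2) (by norm_num)
  have hc : 0 < 1 / (2 * (|c| + 1)) := by positivity
  obtain ⟨e₀, he₀⟩ := Filter.eventually_atTop.1 (h.eventually (gt_mem_nhds hc))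
  refine ⟨e₀ + 1, fun e he => ?_⟩
  have h1 := he₀ e (by omega)
  have h2 : (1 : ℝ) ≤ e := by exact_mod_cast (by omega : 1 ≤ e)
  rw [pow_one, div_lt_div_iff₀ (by positivity) (by positivity), one_mul] at h1
  have h3 := le_abs_self c
  have h4 := abs_nonneg c
  nlinarith

theorem chowla_four (T : Finset K[X]) (hT : T.Nonempty) {ε : ℝ} (hε : 0 < ε) :
    ∃ k₀ : ℕ, ∀ k ≥ k₀, |∑ g ∈ Mn K (2 * k + 1), ∏ s ∈ T, mu (g + s ^ 4)| ≤
      ε * (Fintype.card K : ℝ) ^ (2 * k + 1) := by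
  have h2 : (2 : K[X]) = 0 := two_eq_zero_poly
  obtain ⟨s₀, hs₀⟩ := hT
  set q : ℝ := (Fintype.card K : ℝ) with hq
  have hq2 : (2 : ℝ) ≤ q := by rw [hq]; exact_mod_cast Fintype.one_lt_card
  obtain ⟨Δ, hΔ, hΔd⟩ : ∃ Δ : K[X], Δ.Monic ∧ ∀ s ∈ T, s ≠ s₀ → s + s₀ ∣ Δ := by
    have h0 : ∏ s ∈ T.erase s₀, (s + s₀) ≠ 0 := by
      refine Finset.prod_ne_zero_iff.2 fun s hs h => (Finset.mem_erase.1 hs).1 ?_
      linear_combination h - s₀ * h2
    exact ⟨_, monic_mul_leadingCoeff_inv h0, fun s hs hne =>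
      (Finset.dvd_prod_of_mem _ (Finset.mem_erase.2 ⟨hne, hs⟩)).mul_right _⟩
  set σ := T.sup natDegree with hσ
  have hσle : ∀ s ∈ T, s.natDegree ≤ σ := fun s hs => Finset.le_sup (f := natDegree) hs
  set m := T.card with hm
  have hm1 : 1 ≤ m := Finset.card_pos.2 ⟨s₀, hs₀⟩
  have hm' : (0 : ℝ) < m := by exact_mod_cast hm1
  obtain ⟨j, hj⟩ := exists_nat_ge (16 / ε)
  set A := 2 ^ j * 4 with hA
  have hA0 : 0 < A := by positivity
  have hA' : (0 : ℝ) < A := by exact_mod_cast hA0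
  obtain ⟨k₁, hk₁⟩ := card_pf_le (K := K) (ε := 1 / (200 * A * (192 * m))) (by positivity)
  obtain ⟨k₂, hk₂⟩ := card_pf_le (K := K) (ε := 1 / (400 * A * m)) (by positivity)
  obtain ⟨e₁, he₁⟩ := exists_two_pow_ge (2 ^ 49 / (ε / 4) ^ 16)
  obtain ⟨e₂, he₂⟩ := exists_two_pow_ge (100 * A * q / (ε / 4))
  obtain ⟨t₁, ht₁⟩ := exists_two_pow_ge (8 / ε)
  refine ⟨k₁ + k₂ + 100 * t₁ + 100 * (Δ.natDegree + 1) + 100 * A * (e₁ + e₂ + σ + 1),
    fun k hk => ?_⟩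
  set a := k / A with ha
  set e := a / 100 with he
  set t := k / 100 with ht
  have ha1 : 100 * (e₁ + e₂ + σ + 1) ≤ a := by
    rw [ha, Nat.le_div_iff_mul_le hA0]
    nlinarith
  have haA : a * A ≤ k := Nat.div_mul_le_self k A
  have hb : 4 * (2 ^ j * a) ≤ k := by rw [hA] at haA; nlinarith
  have hke : k + 1 ≤ 100 * A * (e + 1) := by
    have h3 : k < A * (a + 1) := by rw [ha]; exact Nat.lt_mul_div_succ k hA0
    have h4 : a + 1 ≤ 100 * (e + 1) := by omega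
    nlinarith
  have hke' : (k : ℝ) + 1 ≤ 100 * A * (e + 1) := by exact_mod_cast hke
  have he1 : (1 : ℝ) ≤ e := by exact_mod_cast (by omega : 1 ≤ e)
  have hke2 : (k : ℝ) ≤ 200 * A * e := by nlinarith
  have hω : ∀ p : K[X], p ≠ 0 → p.natDegree ≤ k → 192 * m * (pf p).card ≤ e := by
    intro p hp hpk
    have h3 := hk₁ k (by omega) p hp hpk
    rw [one_div, inv_mul_eq_div, le_div_iff₀ (by positivity)] at h3
    have h4 : (192 : ℝ) * m * (pf p).card ≤ e := by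
      refine le_of_mul_le_mul_left ?_ (show (0 : ℝ) < 200 * A by positivity)
      nlinarith
    exact_mod_cast h4
  have hZ : ∀ y₁ : K[X], y₁.Monic → a ≤ y₁.natDegree → y₁.natDegree ≤ k →
      ∀ w ∈ (Pl K (k / 8 + 1)).erase 0,
        zz T s₀ y₁ w ≠ 0 ∧ (2 : ℝ) ^ (pf (zz T s₀ y₁ w)).card ≤ 2 ^ e := by
    intro y₁ hy₁ h3 h4 w hw
    obtain ⟨hw0, hw1⟩ := Finset.mem_erase.1 hw
    have hw2 := (natDegree_lt_iff_degree_lt hw0).2 (mem_Pl.1 hw1)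
    obtain ⟨h5, h6⟩ := zz_facts (a := a) (k := k) (l := k / 8) hs₀
      (fun s hs => by have := hσle s hs; omega) hy₁ h3 h4 hw0 (by omega) (by omega)
    refine ⟨h5, pow_le_pow_right₀ (by norm_num) ?_⟩
    have h7 := hk₂ (2 * m * k) (by nlinarith) _ h5 h6
    rw [one_div, inv_mul_eq_div, le_div_iff₀ (by positivity)] at h7
    push_cast at h7
    have h8 : ((pf (zz T s₀ y₁ w)).card : ℝ) ≤ e := by
      refine le_of_mul_le_mul_left ?_ (show (0 : ℝ) < 400 * A * m by positivity)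
      nlinarith
    exact_mod_cast h8
  have hδe : (2 : ℝ) ^ 49 ≤ (ε / 4) ^ 16 * 2 ^ e := by
    have h3 := he₁ e (by omega)
    have h4 : (2 : ℝ) ^ 49 / (ε / 4) ^ 16 ≤ 2 ^ e :=
      le_trans (le_mul_of_one_le_right (by positivity) (by linarith)) h3
    rwa [div_le_iff₀ (by positivity), mul_comm] at h4
  set B1 := (Mn K k).filter fun y => ∃ g : K[X], g.Monic ∧ t ≤ g.natDegree ∧ g ^ 2 ∣ y with hB1
  set B2 := (Mn K k).filter fun y => ¬ ∃ π : K[X], π.Monic ∧ Irreducible π ∧ a ≤ π.natDegree ∧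
      π.natDegree < 2 ^ j * a ∧ π ∣ y with hB2
  set B3 := (Mn K k).filter fun y => ∃ y₁ p : K[X], y₁.Monic ∧ p.Monic ∧ y = y₁ * p ∧
      a ≤ y₁.natDegree ∧ q ^ (k / 8 + 1) * 4 ^ e <
        ∑ w ∈ (Pl K (k / 8 + 1)).erase 0, momWt p (zz T s₀ y₁ w) with hB3
  have hqk : 0 < q ^ k := by positivity
  have c1 : (B1.card : ℝ) ≤ ε / 4 * q ^ k := by
    have h3 := card_bad_y (K := K) k t
    have h4 : 8 / ε ≤ q ^ t := by
      have h5 := ht₁ t (by omega)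
      have h6 : (0 : ℝ) ≤ t := Nat.cast_nonneg _
      exact (le_trans (le_mul_of_one_le_right (by positivity) (by linarith)) h5).trans
        (pow_le_pow_left₀ (by norm_num) hq2 _)
    rw [div_le_iff₀ hε] at h4
    have h5 : (0 : ℝ) ≤ B1.card := Nat.cast_nonneg _
    nlinarith
  have c2 : (B2.card : ℝ) ≤ ε / 4 * q ^ k := by
    have h3 := bad_two (K := K) (a := a) (j := j) (k := k) (by omega) (by omega)
    rw [div_le_iff₀ hε] at hj
    have h5 : (0 : ℝ) ≤ B2.card := Nat.cast_nonneg _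
    nlinarith
  have c3 : (B3.card : ℝ) ≤ ε / 4 * q ^ k := by
    have h3 := bad_three T s₀ a k (k / 8 + 1) (4 ^ e) (2 ^ e) (by positivity) hZ (by positivity)
    have h4 := he₂ e (by omega)
    rw [div_mul_eq_mul_div, div_le_iff₀ (by positivity)] at h4
    have h5 : (4 : ℝ) ^ e = 2 ^ e * 2 ^ e := by rw [← mul_pow]; norm_num
    have h6 : (0 : ℝ) < 2 ^ e * 2 ^ e := by positivity
    refine le_of_mul_le_mul_right ?_ h6
    rw [← h5]
    refine h3.trans ?_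
    rw [h5, pow_succ]
    calc ((k : ℝ) + 1) * (2 ^ e * (q ^ k * q)) = (k + 1) * q * (2 ^ e * q ^ k) := by ring
      _ ≤ (100 * A * (e + 1)) * q * (2 ^ e * q ^ k) := by gcongr
      _ = (100 * A * q * (e + 1)) * (2 ^ e * q ^ k) := by ring
      _ ≤ (2 ^ e * (ε / 4)) * (2 ^ e * q ^ k) := by gcongr
      _ = _ := by ring
  have hy : ∀ y ∈ Mn K k, |∑ x ∈ Pl K (k + 1), ∏ s ∈ T, mu (x ^ 2 + X * y ^ 2 + s ^ 4)| ≤
      q ^ (k + 1) * (ε / 4 + (if y ∈ B1 then 1 else 0) + (if y ∈ B2 then 1 else 0) +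
        (if y ∈ B3 then 1 else 0)) := by
    intro y hy
    have e1 : ∀ x s : K[X], x ^ 2 + X * y ^ 2 + s ^ 4 = (x + s ^ 2) ^ 2 + X * y ^ 2 := by
      intro x s
      linear_combination (-(x * s ^ 2)) * h2
    simp only [e1]
    have htriv : |∑ x ∈ Pl K (k + 1), ∏ s ∈ T, mu ((x + s ^ 2) ^ 2 + X * y ^ 2)|
        ≤ q ^ (k + 1) := by
      refine (Finset.abs_sum_le_sum_abs _ _).trans ?_
      calc ∑ x ∈ Pl K (k + 1), |∏ s ∈ T, mu ((x + s ^ 2) ^ 2 + X * y ^ 2)|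
          ≤ ∑ _x ∈ Pl K (k + 1), (1 : ℝ) := Finset.sum_le_sum fun x _ => by
            rw [Finset.abs_prod]
            exact Finset.prod_le_one (fun _ _ => abs_nonneg _) (fun _ _ => abs_mu_le _)
        _ = q ^ (k + 1) := by
            rw [Finset.sum_const, card_Pl, nsmul_eq_mul, mul_one]; push_cast; rfl
    have hq1 : 0 < q ^ (k + 1) := by positivity
    by_cases b1 : y ∈ B1
    · rw [if_pos b1]
      refine htriv.trans (le_mul_of_one_le_right hq1.le ?_)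
      split_ifs <;> linarith
    by_cases b2 : y ∈ B2
    · rw [if_pos b2]
      refine htriv.trans (le_mul_of_one_le_right hq1.le ?_)
      split_ifs <;> linarith
    by_cases b3 : y ∈ B3
    · rw [if_pos b3]
      refine htriv.trans (le_mul_of_one_le_right hq1.le ?_)
      split_ifs <;> linarith
    rw [if_neg b1, if_neg b2, if_neg b3, add_zero, add_zero, add_zero,
      mul_comm (q ^ (k + 1))]
    refine good_of_not_bad (a := a) (b := 2 ^ j * a) (t := t) (e := e) hs₀ hΔ hΔd (by positivity)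
      (fun s hs => by have := hσle s hs; have := Nat.div_le_self k A; omega) (by omega) (by omega)
      hω hδe hy (fun h => b1 (Finset.mem_filter.2 ⟨hy, h⟩)) ?_
      (fun h => b3 (Finset.mem_filter.2 ⟨hy, h⟩))
    by_contra h
    exact b2 (Finset.mem_filter.2 ⟨hy, h⟩)
  have hind : ∀ S : Finset K[X], S ⊆ Mn K k →
      ∑ y ∈ Mn K k, (if y ∈ S then (1 : ℝ) else 0) = S.card := by
    intro S hS
    rw [Finset.sum_boole, Finset.filter_mem_eq_inter, Finset.inter_eq_right.2 hS]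
  rw [sum_Mn_odd]
  refine (Finset.abs_sum_le_sum_abs _ _).trans ((Finset.sum_le_sum hy).trans ?_)
  rw [← Finset.mul_sum, Finset.sum_add_distrib, Finset.sum_add_distrib, Finset.sum_add_distrib,
    hind B1 (Finset.filter_subset _ _), hind B2 (Finset.filter_subset _ _),
    hind B3 (Finset.filter_subset _ _), Finset.sum_const, card_Mn, nsmul_eq_mul]
  push_cast
  calc q ^ (k + 1) * (q ^ k * (ε / 4) + B1.card + B2.card + B3.card)
      ≤ q ^ (k + 1) * (ε * q ^ k) := mul_le_mul_of_nonneg_left (by linarith) (by positivity)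
    _ = ε * q ^ (2 * k + 1) := by ring

end Pool.Agent.P.MP_a9a441_nt
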