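import Pool.Agent.P.MP_a9a441_nt.BoxMu

/-! Local uniformity of the Liouville function. -/

namespace Pool.Agent.P.MP_a9a441_nt

open Polynomial Finset Pool.Agent.P.MP_a1177c_nt.HL
open scoped Classical BigOperators

variable {K : Type*} [Field K] [Fintype K] [CharP K 2]

omit [CharP K 2] in
theorem neg_mem_Pl {n : ℕ} {g : K[X]} (hg : g ∈ Pl K n) : -g ∈ Pl K n := by
  rw [mem_Pl] at hg ⊢
  rwa [degree_neg]

omit [CharP K 2] in
theorem sum_mem_Pl {n : ℕ} {ι : Type*} (S : Finset ι) {h : ι → K[X]} (hh : ∀ i, h i ∈ Pl K n) :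
    ∑ i ∈ S, h i ∈ Pl K n :=
  Finset.sum_induction h (fun z => z ∈ Pl K n) (fun _ _ => add_mem_Pl) (zero_mem_Pl n)
    fun i _ => hh i

omit [CharP K 2] in
theorem pi_shift {H s : ℕ} (Φ : (Fin s → K[X]) → ℝ) {t : Fin s → K[X]}
    (ht : ∀ i, t i ∈ Pl K H) :
    𝔼 h ∈ Fintype.piFinset fun _ : Fin s => Pl K H, Φ (fun i => h i + t i) =
      𝔼 h ∈ Fintype.piFinset fun _ : Fin s => Pl K H, Φ h := by
  refine Finset.expect_nbij' (fun h i => h i + t i) (fun h i => h i + -t i) (fun h hh => ?_)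
    (fun h hh => ?_) (fun h _ => ?_) (fun h _ => ?_) (fun _ _ => rfl)
  · exact Fintype.mem_piFinset.2 fun i => add_mem_Pl (Fintype.mem_piFinset.1 hh i) (ht i)
  · exact Fintype.mem_piFinset.2 fun i =>
      add_mem_Pl (Fintype.mem_piFinset.1 hh i) (neg_mem_Pl (ht i))
  · funext i; simp
  · funext i; simp

omit [CharP K 2] in
theorem pi_nonempty (H s : ℕ) : (Fintype.piFinset fun _ : Fin s => Pl K H).Nonempty :=
  ⟨fun _ => 0, Fintype.mem_piFinset.2 fun _ => zero_mem_Pl H⟩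

omit [CharP K 2] in
theorem Mn_nonempty (n : ℕ) : (Mn K n).Nonempty := by
  rw [← Finset.card_pos, card_Mn]; exact pow_pos Fintype.card_pos _

omit [CharP K 2] in
theorem expect_shift_sum {H n s : ℕ} (hH : H ≤ n) (Ψ : K[X] → ℝ) :
    𝔼 g ∈ Mn K n, 𝔼 h ∈ Fintype.piFinset fun _ : Fin s => Pl K H, Ψ (g + ∑ i, h i) =
      𝔼 g ∈ Mn K n, Ψ g := by
  rw [Finset.expect_comm, Finset.expect_congr rfl (g := fun _ => 𝔼 g ∈ Mn K n, Ψ g),
    Finset.expect_const (pi_nonempty H s)]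
  intro h hh
  rw [Finset.expect_eq_sum_div_card, Finset.expect_eq_sum_div_card,
    sum_Mn_shift (Pl_mono hH (sum_mem_Pl _ (Fintype.mem_piFinset.1 hh))) Ψ]

omit [CharP K 2] in
theorem add_mem_Mn {n : ℕ} {g w : K[X]} (hg : g ∈ Mn K n) (hw : w ∈ Pl K n) :
    g + w ∈ Mn K n := by
  obtain ⟨h1, h2⟩ := mem_Mn.1 hg
  have h3 : w.degree < g.degree := by
    rw [degree_eq_natDegree h1.ne_zero, h2]; exact mem_Pl.1 hw
  exact mem_Mn.2 ⟨h1.add_of_left h3, by rw [natDegree_add_eq_left_of_degree_lt h3, h2]⟩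

/-- the part of the Liouville function with square part `d ^ 2` -/
noncomputable def lamd (e₀ d z : K[X]) : ℝ :=
  if d ^ 2 ∣ e₀ * z then mu ((e₀ * z) /ₘ d ^ 2) else 0

theorem box_lamd {e₀ d : K[X]} (hd : d.Monic) (L s : ℕ) (G : K[X]) :
    Box (fun u : Pl K L => e₀ ^ 3 * d ^ 2 * (u : K[X]) ^ 4) s (lamd e₀ d) G =
      if d ^ 2 ∣ e₀ * G then
        Box (fun u : Pl K L => (e₀ * u) ^ 4) s (FT {0}) ((e₀ * G) /ₘ d ^ 2) else 0 := by
  split_ifs with h
  · refine box_rel _ _ (fun z z' => e₀ * z = d ^ 2 * z') (fun z z' u hz => ?_) s _ _ _ _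
      (fun z z' hz => ?_) ?_
    · show e₀ * (z + _) = d ^ 2 * (z' + _)
      linear_combination hz
    · have hz' : e₀ * z = d ^ 2 * z' := hz
      rw [lamd, hz', if_pos (dvd_mul_right _ _), mul_divByMonic_cancel_left _ (hd.pow 2), FT]
      simp
    · obtain ⟨G', hG'⟩ := h
      show e₀ * G = d ^ 2 * _
      rw [hG', mul_divByMonic_cancel_left _ (hd.pow 2)]
  · rw [← box_zero (fun u : Pl K L => e₀ ^ 3 * d ^ 2 * (u : K[X]) ^ 4) s G]
    refine box_rel _ _ (fun z _ => ¬ d ^ 2 ∣ e₀ * z) (fun z z' u hz hd' => hz ?_) s _ _ _ _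
      (fun z z' hz => if_neg hz) h
    rw [mul_add] at hd'
    exact (dvd_add_left ⟨e₀ ^ 4 * (u : K[X]) ^ 4, by ring⟩).1 hd'

theorem uniform_aux {e₀ : K[X]} (he₀ : e₀.Monic) (he₁ : e₀.natDegree ≤ 1) (s : ℕ) {ε : ℝ}
    (hε : 0 < ε) : ∃ H₀ n₀ : ℕ, ∀ n ≥ n₀, Odd (n + e₀.natDegree) → ∀ H, H₀ ≤ H → H ≤ n →
      ∃ Bd : K[X] → ℝ, 𝔼 g ∈ Mn K n, Bd g ≤ ε ∧ ∀ g ∈ Mn K n,
        ∀ b : Fin (s + 1) → (Fin (s + 1) → K[X]) → ℝ, (∀ j h, |b j h| ≤ 1) →
          (∀ j h z, b j (Function.update h j z) = b j h) →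
          |𝔼 h ∈ Fintype.piFinset fun _ : Fin (s + 1) => Pl K H,
            lam (g + ∑ i, h i) * ∏ j, b j h| ≤ Bd g := by
  set q : ℝ := (Fintype.card K : ℝ) with hq
  have hq2 : (2 : ℝ) ≤ q := by rw [hq]; exact_mod_cast Fintype.one_lt_card
  obtain ⟨t, ht⟩ := exists_two_pow_ge (2 * q / (ε / 3))
  set D := (Pl K t).filter Monic with hD
  set δ : ℝ := ε / (3 * (D.card + 1)) with hδ
  have hδ0 : 0 < δ := by positivity
  set M := 2 ^ (s + 1) - 1 with hM
  obtain ⟨L, hL⟩ := box_mu he₀.ne_zero (s + 1) 1 (δ * δ ^ M / q) (by positivity)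
  obtain ⟨k₀, hk₀⟩ := Filter.eventually_atTop.1
    (hL L le_rfl {0} (Finset.singleton_nonempty 0) (by simp))
  refine ⟨4 + 2 * t + 4 * L, 2 * k₀ + 2 * t + 1, fun n hn hodd H hH hHn => ?_⟩
  set P := Fintype.piFinset fun _ : Fin (s + 1) => Pl K H with hP
  set e : K[X] → Pl K L → K[X] := fun d u => e₀ ^ 3 * d ^ 2 * (u : K[X]) ^ 4 with he
  set I : K[X] → ℝ := fun z =>
    if ∃ g : K[X], g.Monic ∧ t ≤ g.natDegree ∧ g ^ 2 ∣ z then 1 else 0 with hI
  have hDd : ∀ d ∈ D, d.Monic ∧ d.natDegree < t := fun d hd => by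
    obtain ⟨h1, h2⟩ := Finset.mem_filter.1 hd
    exact ⟨h2, (natDegree_lt_iff_degree_lt h2.ne_zero).2 (mem_Pl.1 h1)⟩
  refine ⟨fun g => ∑ d ∈ D, (δ + (𝔼 h ∈ P, Box (e d) (s + 1) (lamd e₀ d) (g + ∑ i, h i)) / δ ^ M)
    + 𝔼 h ∈ P, I (e₀ * (g + ∑ i, h i)), ?_, fun g hg b hb hbu => ?_⟩
  · have h1 : ∀ d ∈ D, 𝔼 g ∈ Mn K n, (δ + (𝔼 h ∈ P, Box (e d) (s + 1) (lamd e₀ d)
        (g + ∑ i, h i)) / δ ^ M) ≤ 2 * δ := by
      intro d hd
      obtain ⟨hdm, hdt⟩ := hDd d hd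
      obtain ⟨k', hk'⟩ := hodd
      rw [Finset.expect_add_distrib, Finset.expect_const (Mn_nonempty n), ← Finset.expect_div,
        hP, expect_shift_sum hHn]
      simp only [he, box_lamd hdm]
      have h2 := expect_div_le he₀ he₁ (hdm.pow 2) (n := n) (N := 2 * (k' - d.natDegree) + 1)
        (by rw [hdm.natDegree_pow]; omega)
        (Box (fun u : Pl K L => (e₀ * u) ^ 4) (s + 1) (FT {0})) (box_nonneg _ s _)
      have h3 := hk₀ (k' - d.natDegree) (by omega)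
      have h4 : q * (δ * δ ^ M / q) = δ * δ ^ M := by field_simp
      have h5 := h2.trans ((mul_le_mul_of_nonneg_left h3 (by positivity)).trans h4.le)
      rw [← div_le_iff₀ (by positivity)] at h5
      linarith
    have h2 : 𝔼 g ∈ Mn K n, 𝔼 h ∈ P, I (e₀ * (g + ∑ i, h i)) ≤ ε / 3 := by
      rw [hP, expect_shift_sum hHn (fun z => I (e₀ * z))]
      have h3 := expect_div_le he₀ he₁ monic_one (n := n) (N := n + e₀.natDegree) (by simp) I
        (fun z => by simp only [hI]; split_ifs <;> norm_num)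
      simp only [one_dvd, if_true, divByMonic_one] at h3
      refine h3.trans ?_
      have h4 := card_bad_y (K := K) (n + e₀.natDegree) t
      rw [Finset.expect_eq_sum_div_card, card_Mn, hI, Finset.sum_boole]
      push_cast
      have h5 := ht t le_rfl
      have h6 : (0 : ℝ) ≤ t := Nat.cast_nonneg _
      have h7 : 2 * q / (ε / 3) ≤ q ^ t :=
        (le_trans (le_mul_of_one_le_right (by positivity) (by linarith)) h5).trans
          (pow_le_pow_left₀ (by norm_num) hq2 _)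
      rw [div_le_iff₀ (by positivity)] at h7
      rw [← mul_div_assoc, div_le_iff₀ (by positivity)]
      refine le_of_mul_le_mul_right ?_ (show 0 < q ^ t by positivity)
      calc _ = q * (_ * q ^ t) := mul_assoc _ _ _
        _ ≤ q * (2 * q ^ (n + e₀.natDegree)) := mul_le_mul_of_nonneg_left h4 (by positivity)
        _ = (2 * q) * q ^ (n + e₀.natDegree) := by ring
        _ ≤ (q ^ t * (ε / 3)) * q ^ (n + e₀.natDegree) :=
            mul_le_mul_of_nonneg_right h7 (by positivity)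
        _ = _ := by ring
    rw [Finset.expect_add_distrib, Finset.expect_sum_comm]
    have h3 := Finset.sum_le_sum h1
    rw [Finset.sum_const, nsmul_eq_mul] at h3
    have h4 : (D.card : ℝ) * (2 * δ) ≤ 2 * ε / 3 := by
      have h5 : (0 : ℝ) ≤ D.card := Nat.cast_nonneg _
      have h6 : δ * (3 * (D.card + 1)) = ε := by rw [hδ]; field_simp
      nlinarith
    linarith
  · have hPi : ∀ h, |∏ j, b j h| ≤ 1 := fun h => by
      rw [Finset.abs_prod]
      exact Finset.prod_le_one (fun _ _ => abs_nonneg _) fun _ _ => hb _ _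
    have hmem : ∀ h ∈ P, (g + ∑ i, h i).Monic := fun h hh =>
      (mem_Mn.1 (add_mem_Mn hg (Pl_mono hHn (sum_mem_Pl _ (Fintype.mem_piFinset.1 hh))))).1
    have e1 : 𝔼 h ∈ P, lam (g + ∑ i, h i) * ∏ j, b j h = lam e₀ *
        (∑ d ∈ D, (𝔼 h ∈ P, lamd e₀ d (g + ∑ i, h i) * ∏ j, b j h) +
          𝔼 h ∈ P, (lam (e₀ * (g + ∑ i, h i)) - ∑ d ∈ D, lamd e₀ d (g + ∑ i, h i)) *
            ∏ j, b j h) := by
      rw [← Finset.expect_sum_comm, ← Finset.expect_add_distrib, Finset.mul_expect]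
      refine Finset.expect_congr rfl fun h hh => ?_
      rw [← Finset.sum_mul, lam_mul he₀.ne_zero (hmem h hh).ne_zero]
      linear_combination (-(lam (g + ∑ i, h i) * ∏ j, b j h)) * lam_mul_self e₀
    rw [e1, abs_mul, abs_lam, one_mul]
    refine (abs_add_le _ _).trans (add_le_add ((Finset.abs_sum_le_sum_abs _ _).trans
      (Finset.sum_le_sum fun d hd => ?_)) ((Finset.abs_expect_le _ _).trans
        (Finset.expect_le_expect fun h hh => ?_)))
    · obtain ⟨hdm, hdt⟩ := hDd d hd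
      refine mult_le_box (e d) s P (pi_nonempty H _) (fun Φ w => pi_shift Φ fun i => ?_) _ b hb hbu
        g hδ0
      have hu : (w i : K[X]).natDegree ≤ L := by
        rcases eq_or_ne (w i : K[X]) 0 with h0 | h0
        · simp [h0]
        · exact ((natDegree_lt_iff_degree_lt h0).2 (mem_Pl.1 (w i).2)).le
      have h1 : (e d (w i)).natDegree < H := by
        have h2 := natDegree_mul_le (p := e₀ ^ 3 * d ^ 2) (q := (w i : K[X]) ^ 4)
        have h3 := natDegree_mul_le (p := e₀ ^ 3) (q := d ^ 2)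
        have h4 := natDegree_pow_le (p := e₀) (n := 3)
        have h5 := natDegree_pow_le (p := d) (n := 2)
        have h6 := natDegree_pow_le (p := (w i : K[X])) (n := 4)
        simp only [he]
        omega
      rw [mem_Pl]
      exact lt_of_le_of_lt degree_le_natDegree (by exact_mod_cast h1)
    · rw [abs_mul]
      exact (mul_le_of_le_one_right (abs_nonneg _) (hPi h)).trans
        (lam_decomp (he₀.mul (hmem h hh)) t)

theorem uniform (s : ℕ) {ε : ℝ} (hε : 0 < ε) : ∃ H₀ n₀ : ℕ, ∀ n ≥ n₀, ∀ H, H₀ ≤ H → H ≤ n →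
    ∃ Bd : K[X] → ℝ, 𝔼 g ∈ Mn K n, Bd g ≤ ε ∧ ∀ g ∈ Mn K n,
      ∀ b : Fin (s + 1) → (Fin (s + 1) → K[X]) → ℝ, (∀ j h, |b j h| ≤ 1) →
        (∀ j h z, b j (Function.update h j z) = b j h) →
        |𝔼 h ∈ Fintype.piFinset fun _ : Fin (s + 1) => Pl K H,
          lam (g + ∑ i, h i) * ∏ j, b j h| ≤ Bd g := by
  obtain ⟨H₁, n₁, h₁⟩ := uniform_aux (K := K) monic_one (by simp) s hε
  obtain ⟨H₂, n₂, h₂⟩ := uniform_aux (K := K) monic_X (by simp) s hε
  refine ⟨H₁ + H₂, n₁ + n₂, fun n hn H hH hHn => ?_⟩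
  rcases Nat.even_or_odd n with h | h
  · exact h₂ n (by omega) (by rw [natDegree_X]; exact h.add_one) H (by omega) hHn
  · exact h₁ n (by omega) (by simpa using h) H (by omega) hHn

end Pool.Agent.P.MP_a9a441_nt
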