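import Pool.Agent.P.MP_a9a441_nt.GoodK
import Pool.Agent.P.MP_a9a441_nt.Gowers

/-! Correlations of the Moebius function along the forms `α ^ 2 * G + B`. -/

namespace Pool.Agent.P.MP_a9a441_nt

open Polynomial Finset Pool.Agent.P.MP_a1177c_nt.HL
open scoped BigOperators Classical

variable {K : Type*} [Field K] [Fintype K] [CharP K 2]

omit [CharP K 2] in
theorem lin_mem_Mn {α v y : K[X]} {k : ℕ} (hα : α.Monic) (hv : v ∈ Pl K (α.natDegree + k))
    (hy : y ∈ Mn K k) : α * y + v ∈ Mn K (α.natDegree + k) := by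
  obtain ⟨h1, h2⟩ := mem_Mn.1 hy
  exact add_mem_Mn (mem_Mn.2 ⟨hα.mul h1, by rw [hα.natDegree_mul h1, h2]⟩) hv

omit [CharP K 2] in
theorem card_lin_le {α v : K[X]} {k : ℕ} (hα : α.Monic) (hv : v ∈ Pl K (α.natDegree + k))
    (P : K[X] → Prop) {_ : DecidablePred fun y => P (α * y + v)} {S : Finset K[X]}
    (hS : ∀ Y ∈ Mn K (α.natDegree + k), P Y → Y ∈ S) :
    ∑ y ∈ Mn K k, (if P (α * y + v) then (1 : ℝ) else 0) ≤ S.card := by
  rw [Finset.sum_boole]
  refine Nat.cast_le.2 (Finset.card_le_card_of_injOn (fun y => α * y + v) (fun y hy => ?_)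
    fun y _ y' _ h => mul_left_cancel₀ hα.ne_zero (add_right_cancel h))
  obtain ⟨h1, h2⟩ := Finset.mem_filter.1 (Finset.mem_coe.1 hy)
  exact Finset.mem_coe.2 (hS _ (lin_mem_Mn hα hv h1) h2)

omit [CharP K 2] in
theorem card_bad_div {Δ : K[X]} (hΔ : Δ ≠ 0) (n a : ℕ) :
    (((Mn K n).filter fun Y => ∃ π : K[X], π.Monic ∧ Irreducible π ∧ a ≤ π.natDegree ∧ π ∣ Δ ∧
      π ∣ Y).card : ℝ) * (Fintype.card K : ℝ) ^ a ≤ Δ.natDegree * (Fintype.card K : ℝ) ^ n := by
  have hq : (1 : ℝ) ≤ Fintype.card K := by exact_mod_cast Fintype.card_pos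
  set S := (pf Δ).filter fun π => a ≤ π.natDegree ∧ π.natDegree ≤ n with hS
  have h1 : ((Mn K n).filter fun Y => ∃ π : K[X], π.Monic ∧ Irreducible π ∧ a ≤ π.natDegree ∧
      π ∣ Δ ∧ π ∣ Y) ⊆ S.biUnion fun π => (Mn K n).filter fun Y => π ∣ Y - 0 := by
    intro Y hY
    obtain ⟨hY1, π, m1, i1, a1, d1, d2⟩ := Finset.mem_filter.1 hY
    obtain ⟨hm, hd⟩ := mem_Mn.1 hY1
    refine Finset.mem_biUnion.2 ⟨π, Finset.mem_filter.2 ⟨(mem_pf hΔ).2 ⟨m1, i1, d1⟩, a1, ?_⟩,
      Finset.mem_filter.2 ⟨hY1, by rwa [sub_zero]⟩⟩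
    exact hd ▸ natDegree_le_of_dvd d2 hm.ne_zero
  have h2 := (Finset.card_le_card h1).trans Finset.card_biUnion_le
  have h3 : ∀ π ∈ S, (((Mn K n).filter fun Y => π ∣ Y - 0).card : ℝ) *
      (Fintype.card K : ℝ) ^ a ≤ (π.natDegree : ℝ) * (Fintype.card K : ℝ) ^ n := by
    intro π hπ
    obtain ⟨h4, h5, h6⟩ := Finset.mem_filter.1 hπ
    obtain ⟨m1, i1, -⟩ := (mem_pf hΔ).1 h4
    have h7 : (1 : ℝ) ≤ π.natDegree := by exact_mod_cast i1.natDegree_pos
    rw [card_Mn_dvd_eq m1 h6, Nat.cast_pow, ← pow_add]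
    exact (pow_le_pow_right₀ hq (by omega)).trans (le_mul_of_one_le_left (by positivity) h7)
  have h4 : ∑ π ∈ S, (π.natDegree : ℝ) ≤ Δ.natDegree := by
    exact_mod_cast primes_sum_deg_le hΔ (Finset.filter_subset _ _)
  calc _ ≤ (∑ π ∈ S, (((Mn K n).filter fun Y => π ∣ Y - 0).card : ℝ)) *
        (Fintype.card K : ℝ) ^ a :=
        mul_le_mul_of_nonneg_right (by exact_mod_cast h2) (by positivity)
    _ ≤ (∑ π ∈ S, (π.natDegree : ℝ)) * (Fintype.card K : ℝ) ^ n := by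
        rw [Finset.sum_mul, Finset.sum_mul]
        exact Finset.sum_le_sum h3
    _ ≤ _ := mul_le_mul_of_nonneg_right h4 (by positivity)

omit [Fintype K] [CharP K 2] in
theorem le_of_mul_pow {x c δ Q R : ℝ} (hQ : 0 < Q) (hR : 0 ≤ R) (h1 : x * Q ≤ c * R)
    (h2 : c ≤ δ * Q) : x ≤ δ * R := by
  refine le_of_mul_le_mul_right (h1.trans ?_) hQ
  calc c * R ≤ δ * Q * R := mul_le_mul_of_nonneg_right h2 hR
    _ = δ * R * Q := by ring

theorem exists_pow_ge {q : ℝ} (hq : 2 ≤ q) (c : ℝ) {δ : ℝ} (hδ : 0 < δ) :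
    ∃ e₀ : ℕ, ∀ e ≥ e₀, c * (e + 1) ≤ δ * q ^ e := by
  obtain ⟨e₀, he₀⟩ := exists_two_pow_ge (c / δ)
  refine ⟨e₀, fun e he => ?_⟩
  have h := (he₀ e he).trans (pow_le_pow_left₀ (by norm_num) hq e)
  rwa [div_mul_eq_mul_div, div_le_iff₀ hδ, mul_comm (q ^ e)] at h

theorem chowla_mu {J : Type} [Fintype J] (i₀ : J) (C : ℕ) {ε : ℝ} (hε : 0 < ε) :
    ∃ k₀ : ℕ, ∀ k ≥ k₀, ∀ α B : J → K[X], (∀ i, (α i).Monic ∧ (α i).natDegree ≤ C) →
      (∀ i, B i ∈ Pl K (2 * ((α i).natDegree + k) + 1)) →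
      (∀ i, i ≠ i₀ → α i₀ ^ 2 * B i ≠ α i ^ 2 * B i₀) →
      |∑ G ∈ Mn K (2 * k + 1), ∏ i, mu (α i ^ 2 * G + B i)| ≤
        ε * (Fintype.card K : ℝ) ^ (2 * k + 1) := by
  have h2 : (2 : K[X]) = 0 := two_eq_zero_poly
  set q : ℝ := (Fintype.card K : ℝ) with hq
  have hq2 : (2 : ℝ) ≤ q := by rw [hq]; exact_mod_cast Fintype.one_lt_card
  have hq1 : (1 : ℝ) ≤ q := by linarith
  set r := Fintype.card J with hr
  have hr1 : (1 : ℝ) ≤ r := by
    have : 0 < r := Fintype.card_pos_iff.2 ⟨i₀⟩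
    exact_mod_cast this
  set δ : ℝ := ε / (4 * r) with hδ
  have hδ0 : 0 < δ := by positivity
  have hδε : 4 * r * δ = ε := by rw [hδ]; field_simp
  obtain ⟨j, hj⟩ := exists_nat_gt (4 * q ^ C / δ)
  obtain ⟨t, ht⟩ := exists_pow_ge hq2 (2 * q ^ C) hδ0
  obtain ⟨l, hl⟩ := exists_pow_ge hq2 (3 ^ (9 * r) * (r * 10))
    (δ := δ ^ 2 ^ (9 * r + 1)) (by positivity)
  set A := 2 ^ j * 3 with hA
  have hA0 : 0 < A := by positivity
  obtain ⟨a₀, ha₀⟩ := exists_pow_ge hq2 (r * (2 * C + A) * q ^ C) hδ0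
  refine ⟨A * (40 + 3 * t + 2 * l + C + a₀), fun k hk α B hα hB hne => ?_⟩
  set a := k / A with ha
  have ha1 : 40 + 3 * t + 2 * l + C + a₀ ≤ a := by
    rw [ha, Nat.le_div_iff_mul_le hA0]
    nlinarith
  have haA : a * A ≤ k := Nat.div_mul_le_self k A
  have hb : 3 * (2 ^ j * a) ≤ k := by rw [hA] at haA; nlinarith
  have hka : k < A * (a + 1) := by rw [ha]; exact Nat.lt_mul_div_succ k hA0
  choose u v hu hv huv using fun i => sq_add_split (hB i)
  obtain ⟨Δ, hΔ0, hΔd, hΔ⟩ : ∃ Δ : K[X], Δ ≠ 0 ∧ Δ.natDegree ≤ r * (2 * C + k) ∧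
      ∀ π : K[X], ∀ i, i ≠ i₀ → π ∣ α i₀ * u i + α i * u i₀ → π ∣ α i₀ * v i + α i * v i₀ →
        π ∣ Δ := by
    have h3 : ∀ w : J → K[X], (∀ i, (w i).natDegree ≤ (α i).natDegree + k) → ∀ i,
        (α i₀ * w i + α i * w i₀).natDegree ≤ 2 * C + k := by
      intro w hw i
      have h4 := natDegree_add_le (α i₀ * w i) (α i * w i₀)
      have h5 := natDegree_mul_le (p := α i₀) (q := w i)
      have h6 := natDegree_mul_le (p := α i) (q := w i₀)
      have h7 := hw i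
      have h8 := hw i₀
      have h9 := (hα i).2
      have h10 := (hα i₀).2
      omega
    have h4 : ∀ i, (v i).natDegree ≤ (α i).natDegree + k := fun i => by
      rcases eq_or_ne (v i) 0 with h | h
      · simp [h]
      · exact ((natDegree_lt_iff_degree_lt h).2 (mem_Pl.1 (hv i))).le
    set D : J → K[X] := fun i => if α i₀ * u i + α i * u i₀ = 0 then α i₀ * v i + α i * v i₀
      else α i₀ * u i + α i * u i₀ with hD
    refine ⟨∏ i ∈ univ.erase i₀, D i, Finset.prod_ne_zero_iff.2 fun i hi h5 => ?_, ?_,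
      fun π i hi h5 h6 => dvd_trans ?_ (Finset.dvd_prod_of_mem D (mem_erase.2 ⟨hi, mem_univ _⟩))⟩
    · simp only [hD] at h5
      split_ifs at h5 with h6
      · refine hne i (mem_erase.1 hi).1 ?_
        rw [huv i, huv i₀]
        linear_combination (α i₀ * u i - α i * u i₀) * h6 + X * (α i₀ * v i - α i * v i₀) * h5
      · exact h6 h5
    · refine (natDegree_prod_le _ _).trans ((sum_le_card_nsmul _ _ (2 * C + k) fun i _ => ?_).trans
        (Nat.mul_le_mul_right _ (card_erase_le.trans (card_univ (α := J)).le)))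
      simp only [hD]
      split_ifs
      · exact h3 v h4 i
      · exact h3 u hu i
    · simp only [hD]
      split_ifs
      · exact h6
      · exact h5
  set P1 : K[X] → Prop := fun Y => ∃ g : K[X], g.Monic ∧ t ≤ g.natDegree ∧ g ^ 2 ∣ Y with hP1
  set P2 : K[X] → Prop := fun Y => ¬ ∃ π : K[X], π.Monic ∧ Irreducible π ∧ a ≤ π.natDegree ∧
      π.natDegree < 2 ^ j * a ∧ π ∣ Y with hP2
  set P3 : K[X] → Prop := fun Y => ∃ π : K[X], π.Monic ∧ Irreducible π ∧ a ≤ π.natDegree ∧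
      π ∣ Δ ∧ π ∣ Y with hP3
  have hpow : ∀ i, q ^ ((α i).natDegree + k) ≤ q ^ C * q ^ k := fun i => by
    rw [← pow_add]
    exact pow_le_pow_right₀ hq1 (by have := (hα i).2; omega)
  have c1 : ∀ i, ∑ y ∈ Mn K k, (if P1 (α i * y + v i) then (1 : ℝ) else 0) ≤ δ * q ^ k := by
    intro i
    refine (card_lin_le (hα i).1 (hv i) P1 fun Y hY h => ?_).trans (le_of_mul_pow (Q := q ^ t)
      (c := 2 * q ^ C) (by positivity) (by positivity)
      ((card_bad_y ((α i).natDegree + k) t).trans ?_) ?_)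
    · exact Finset.mem_filter.2 ⟨hY, h⟩
    · rw [mul_assoc]
      exact mul_le_mul_of_nonneg_left (hpow i) (by norm_num)
    · exact (le_mul_of_one_le_right (by positivity) (by linarith [Nat.cast_nonneg (α := ℝ) t])).trans
        (ht t le_rfl)
  have c2 : ∀ i, ∑ y ∈ Mn K k, (if P2 (α i * y + v i) then (1 : ℝ) else 0) ≤ δ * q ^ k := by
    intro i
    have hj0 : (0 : ℝ) < j := lt_of_le_of_lt (by positivity) hj
    refine (card_lin_le (hα i).1 (hv i) P2 fun Y hY h => ?_).trans (le_of_mul_pow (Q := j)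
      (c := 4 * q ^ C) hj0 (by positivity) ((bad_two (a := a) (j := j) (k := (α i).natDegree + k)
      (by omega) (by omega)).trans ?_) ?_)
    · exact Finset.mem_filter.2 ⟨hY, h⟩
    · rw [mul_assoc]
      exact mul_le_mul_of_nonneg_left (hpow i) (by norm_num)
    · rw [div_lt_iff₀ hδ0] at hj
      linarith
  have c3 : ∀ i, ∑ y ∈ Mn K k, (if P3 (α i * y + v i) then (1 : ℝ) else 0) ≤ δ * q ^ k := by
    intro i
    refine (card_lin_le (hα i).1 (hv i) P3 fun Y hY h => ?_).trans (le_of_mul_pow (Q := q ^ a)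
      (c := r * (2 * C + A) * q ^ C * (a + 1)) (by positivity) (by positivity)
      ((card_bad_div hΔ0 ((α i).natDegree + k) a).trans ?_) (ha₀ a (by omega)))
    · exact Finset.mem_filter.2 ⟨hY, h⟩
    have h3 : Δ.natDegree ≤ r * ((2 * C + A) * (a + 1)) :=
      hΔd.trans (Nat.mul_le_mul_left _ (by nlinarith))
    have h4 : (Δ.natDegree : ℝ) ≤ r * ((2 * C + A) * (a + 1)) := by exact_mod_cast h3
    calc _ ≤ (r * ((2 * C + A) * (a + 1)) : ℝ) * (q ^ C * q ^ k) :=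
          mul_le_mul h4 (hpow i) (by positivity) (by positivity)
      _ = _ := by ring
  have hy : ∀ y ∈ Mn K k, |∑ x ∈ Pl K (k + 1), ∏ i, mu (α i ^ 2 * (x ^ 2 + X * y ^ 2) + B i)| ≤
      q ^ (k + 1) * ∑ i, (δ + (if P1 (α i * y + v i) then (1 : ℝ) else 0) +
        (if P2 (α i * y + v i) then (1 : ℝ) else 0) +
        (if P3 (α i * y + v i) then (1 : ℝ) else 0)) := by
    intro y hy
    have e1 : ∀ x i, α i ^ 2 * (x ^ 2 + X * y ^ 2) + B i =
        (α i * x + u i) ^ 2 + X * (α i * y + v i) ^ 2 := by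
      intro x i
      rw [huv i]
      linear_combination (-(α i * x * u i) - X * (α i * y * v i)) * h2
    simp only [e1]
    have hq0 : 0 < q ^ (k + 1) := by positivity
    have e2 : ∑ x ∈ Pl K (k + 1), ∏ i, mu ((α i * x + u i) ^ 2 + X * (α i * y + v i) ^ 2) =
        q ^ (k + 1) * 𝔼 x ∈ Pl K (k + 1),
          ∏ i, mu ((α i * x + u i) ^ 2 + X * (α i * y + v i) ^ 2) := by
      rw [Finset.expect_eq_sum_div_card, card_Pl]
      push_cast
      rw [mul_div_cancel₀ _ hq0.ne']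
    rw [e2, abs_mul, abs_of_pos hq0]
    refine mul_le_mul_of_nonneg_left ?_ hq0.le
    have hnn : ∀ i, 0 ≤ δ + (if P1 (α i * y + v i) then (1 : ℝ) else 0) +
        (if P2 (α i * y + v i) then (1 : ℝ) else 0) +
        (if P3 (α i * y + v i) then (1 : ℝ) else 0) := fun i => by positivity
    by_cases hbad : ∃ i, P1 (α i * y + v i) ∨ P2 (α i * y + v i) ∨ P3 (α i * y + v i)
    · obtain ⟨i, hi⟩ := hbad
      refine le_trans ?_ (Finset.single_le_sum (fun i _ => hnn i) (mem_univ i))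
      refine ((Finset.abs_expect_le _ _).trans (Finset.expect_le ⟨0, zero_mem_Pl _⟩
        (a := (1 : ℝ)) fun x _ => ?_)).trans ?_
      · rw [Finset.abs_prod]
        exact Finset.prod_le_one (fun _ _ => abs_nonneg _) fun _ _ => abs_mu_le _
      · rcases hi with hi | hi | hi <;> rw [if_pos hi] <;> split_ifs <;> linarith
    · have hg := fun i => not_or.1 (not_exists.1 hbad i)
      refine le_trans ?_ (Finset.single_le_sum (fun i _ => hnn i) (mem_univ i₀))
      rw [if_neg (hg i₀).1, if_neg (not_or.1 (hg i₀).2).1, if_neg (not_or.1 (hg i₀).2).2, add_zero,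
        add_zero, add_zero]
      have hg2 := fun i => not_not.1 (not_or.1 (hg i).2).1
      obtain ⟨π, m1, i1, a1, b1, d1⟩ := hg2 i₀
      have key := good_prime α u (fun i => α i * y + v i) i₀ m1 i1 (k := k) (l := l) (t := t)
        (C := C) (by omega) (by omega) hb a1 b1 (fun i => ⟨(hα i).1.ne_zero, (hα i).2⟩)
        (fun i => mem_Mn.1 (lin_mem_Mn (hα i).1 (hv i) hy)) hu (fun i => (hg i).1) hg2 d1
        fun i hi h3 h4 => (not_or.1 (hg i₀).2).2 ⟨π, m1, i1, a1, hΔ π i hi h4 (by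
          have h5 := dvd_add (h3.mul_left (α i₀)) (d1.mul_left (α i))
          rwa [show α i₀ * (α i * y + v i) + α i * (α i₀ * y + v i₀) =
            α i₀ * v i + α i * v i₀ by linear_combination (α i₀ * α i * y) * h2] at h5), d1⟩
      refine le_of_pow_le_pow_left₀ (n := 2 ^ (9 * r + 1)) (by positivity) hδ0.le ?_
      rw [(Nat.even_pow.2 ⟨even_two, by omega⟩).pow_abs]
      refine key.trans ?_
      rw [← mul_div_assoc, ← mul_div_assoc, div_le_iff₀ (by positivity)]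
      exact (le_mul_of_one_le_right (by positivity)
        (by linarith [Nat.cast_nonneg (α := ℝ) l])).trans (hl l le_rfl)
  rw [sum_Mn_odd]
  refine (Finset.abs_sum_le_sum_abs _ _).trans ((Finset.sum_le_sum hy).trans ?_)
  rw [← Finset.mul_sum, Finset.sum_comm]
  have h3 : ∀ i ∈ (univ : Finset J), ∑ y ∈ Mn K k, (δ + (if P1 (α i * y + v i) then (1 : ℝ) else 0) +
      (if P2 (α i * y + v i) then (1 : ℝ) else 0) +
      (if P3 (α i * y + v i) then (1 : ℝ) else 0)) ≤ 4 * δ * q ^ k := by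
    intro i _
    rw [Finset.sum_add_distrib, Finset.sum_add_distrib, Finset.sum_add_distrib, Finset.sum_const,
      card_Mn, nsmul_eq_mul]
    push_cast
    linarith [c1 i, c2 i, c3 i]
  refine (mul_le_mul_of_nonneg_left (Finset.sum_le_sum h3) (by positivity)).trans (le_of_eq ?_)
  rw [Finset.sum_const, card_univ, nsmul_eq_mul, ← hδε]
  ring

end Pool.Agent.P.MP_a9a441_nt
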