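import Pool.Agent.P.MP_a9a441_nt.Kill
import Pool.Agent.P.MP_a1177c_nt.HL.Local

/-! The local factors of the Moebius function as cubic phases. -/

namespace Pool.Agent.P.MP_a9a441_nt

open Polynomial Finset Pool.Agent.P.MP_a1177c_nt.HL
open scoped BigOperators Classical

variable {K : Type*} [Field K] [Fintype K] [CharP K 2]

/-- the local factor modulo `c` at the linear form `α * x + U` -/
noncomputable def kf (c s α U d x : K[X]) : ℝ :=
  kl c (s * (derivative (α * x + U) ^ 2 + d) ^ 3) ((α * x + U) ^ 2)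

omit [Fintype K] [CharP K 2] in
theorem abs_kf_le (c s α U d x : K[X]) : |kf c s α U d x| ≤ 1 := abs_kl_le _ _ _

omit [Fintype K] [CharP K 2] in
theorem kf_add (c s α U d x a : K[X]) : kf c s α U d (x + a) = kf c s α (U + α * a) d x := by
  unfold kf
  rw [show α * (x + a) + U = α * x + (U + α * a) by ring]

theorem chi_mul' {p₁ p₂ : K[X]} (h1 : p₁ ≠ 0) (h2 : p₂ ≠ 0) (g : K[X]) :
    chi (p₁ * p₂) g = chi p₁ g * chi p₂ g := by
  unfold chi
  have e : g * derivative (p₁ * p₂) = g * derivative p₁ * p₂ + g * derivative p₂ * p₁ := by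
    rw [derivative_mul]; ring
  rw [e, rs_add, psi_add, rs_mul_cancel _ _ h2, mul_comm p₁ p₂, rs_mul_cancel _ _ h1]

theorem kl_mul' {p₁ p₂ : K[X]} (h1 : p₁ ≠ 0) (h2 : p₂ ≠ 0) (α z : K[X]) :
    kl (p₁ * p₂) α z = kl p₁ α z * kl p₂ α z := by
  by_cases hz : IsCoprime z (p₁ * p₂)
  · obtain ⟨a, b, hab⟩ := hz
    have hw : p₁ * p₂ ∣ z * a - 1 := ⟨-b, by linear_combination hab⟩
    rw [kl_eq hw, kl_eq ((dvd_mul_right _ _).trans hw), kl_eq ((dvd_mul_left _ _).trans hw),
      chi_mul' h1 h2]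
  · rw [kl_eq_zero hz]
    rw [IsCoprime.mul_right_iff, not_and_or] at hz
    rcases hz with hz | hz
    · rw [kl_eq_zero hz, zero_mul]
    · rw [kl_eq_zero hz, mul_zero]

theorem kf_shift_unit {c s α U d x w : K[X]} (hw : c ∣ (α * x + U) * w - 1) (r : K[X]) :
    kf c s α U d (x + c * r) = chi c (s * w ^ 2 *
      (derivative (α * x + U) ^ 2 + d + (α * derivative c) ^ 2 * r ^ 2) ^ 3) := by
  have h2 : (2 : K[X]) = 0 := two_eq_zero_poly
  have e1 : α * (x + c * r) + U = (α * x + U) + c * (α * r) := by ring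
  obtain ⟨m, hm⟩ := hw
  have hw2 : c ∣ (α * x + U + c * (α * r)) ^ 2 * w ^ 2 - 1 := by
    have h3 : c ∣ (α * x + U + c * (α * r)) * w - 1 := ⟨m + α * r * w, by linear_combination hm⟩
    have h4 := h3.trans (sub_dvd_pow_sub_pow _ 1 2)
    rwa [mul_pow, one_pow] at h4
  unfold kf
  rw [e1, kl_eq hw2]
  apply chi_congr
  have h5 : c ∣ (derivative (α * x + U + c * (α * r)) ^ 2 + d) -
      (derivative (α * x + U) ^ 2 + d + (α * derivative c) ^ 2 * r ^ 2) := by
    rw [derivative_add (f := α * x + U), derivative_mul (f := c)]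
    refine ⟨c * derivative (α * r) ^ 2, ?_⟩
    linear_combination (derivative (α * x + U) * (derivative c * (α * r)) +
      derivative (α * x + U) * (c * derivative (α * r)) +
      derivative c * (α * r) * (c * derivative (α * r))) * h2
  have h6 := (h5.trans (sub_dvd_pow_sub_pow _ _ 3)).mul_left (s * w ^ 2)
  rw [mul_sub] at h6
  rwa [mul_right_comm s _ (w ^ 2)]

omit [Fintype K] [CharP K 2] in
theorem kf_shift_zero {c s α U d x : K[X]} (h : ¬ IsCoprime (α * x + U) c) (r : K[X]) :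
    kf c s α U d (x + c * r) = 0 := by
  unfold kf
  apply kl_eq_zero
  intro h1
  apply h
  rw [IsCoprime.pow_left_iff two_pos,
    show α * (x + c * r) + U = (α * x + U) + c * (α * r) by ring] at h1
  exact h1.of_add_mul_left_left

theorem cube_id {R : Type*} [CommRing R] (h2 : (2 : R) = 0) (A D a b b1 c c1 : R) :
    A * (D + (a + b + c)) ^ 3 + A * (D + (a + b + c1)) ^ 3 +
      (A * (D + (a + b1 + c)) ^ 3 + A * (D + (a + b1 + c1)) ^ 3) =
    A * (D + (b + c)) ^ 3 + A * (D + (b + c1)) ^ 3 +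
      (A * (D + (b1 + c)) ^ 3 + A * (D + (b1 + c1)) ^ 3) := by
  linear_combination (A * (6 * D^2 * a + 6 * D * a^2 + 6 * D * a * b + 6 * D * a * c + 2 * a^3 +
    3 * a^2 * b + 3 * a^2 * c + 3 * a * b^2 + 3 * a * b * c + 3 * a * c^2 + 6 * D * a * c1 +
    3 * a^2 * c1 + 3 * a * b * c1 + 3 * a * c1^2 + 6 * D * a * b1 + 3 * a^2 * b1 + 3 * a * b1^2 +
    3 * a * b1 * c + 3 * a * b1 * c1)) * h2

theorem deg_kf {ι : Type*} (c s α U d : K[X]) (ρ : ι → K[X]) :
    Deg (fun h => c * ρ h) 2 (kf c s α U d) := by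
  have h2 : (2 : K[X]) = 0 := two_eq_zero_poly
  have hb := abs_kf_le c s α U d
  refine ⟨hb, fun h h' => ⟨fun x => abs_mul_le_one' (hb _) (hb _), fun u u' =>
    ⟨fun x => abs_mul_le_one' (abs_mul_le_one' (hb _) (hb _)) (abs_mul_le_one' (hb _) (hb _)),
      fun x v => ?_⟩⟩⟩
  have e3 : ∀ a b e : K[X], x + c * a + c * b + c * e = x + c * (a + b + e) := fun a b e => by ring
  have e2 : ∀ a b : K[X], x + c * a + c * b = x + c * (a + b) := fun a b => by ring
  beta_reduce
  rw [e3, e3, e3, e3, e2, e2, e2, e2]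
  by_cases hz : IsCoprime (α * x + U) c
  · obtain ⟨w, b, hwb⟩ := hz
    have hw : c ∣ (α * x + U) * w - 1 := ⟨-b, by linear_combination hwb⟩
    simp only [kf_shift_unit hw, ← chi_add]
    have s2 : ∀ β a b : K[X], β * (a + b) ^ 2 = β * a ^ 2 + β * b ^ 2 := fun β a b => by
      linear_combination (β * a * b) * h2
    simp only [s2]
    rw [cube_id h2]
  · simp only [kf_shift_zero hz]

omit [CharP K 2] in
theorem roots_prime {π : K[X]} (hπ : Irreducible π) (F : K[X][X]) {β₀ : K[X]}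
    (h0 : ¬ π ∣ F.eval β₀) :
    ((Pl K π.natDegree).filter fun β => π ∣ F.eval β).card ≤ F.natDegree := by
  have : Fact (Irreducible π) := ⟨hπ⟩
  have hev : ∀ β, (F.map (AdjoinRoot.mk π)).eval (AdjoinRoot.mk π β) =
      AdjoinRoot.mk π (F.eval β) := fun β => by rw [eval_map, eval₂_at_apply]
  have hne : F.map (AdjoinRoot.mk π) ≠ 0 := by
    intro h
    apply h0
    rw [← AdjoinRoot.mk_eq_zero, ← hev, h, eval_zero]
  calc ((Pl K π.natDegree).filter fun β => π ∣ F.eval β).card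
      ≤ (F.map (AdjoinRoot.mk π)).roots.toFinset.card := by
        refine Finset.card_le_card_of_injOn (fun β => AdjoinRoot.mk π β) ?_ ?_
        · intro β hβ
          rw [Finset.mem_coe, Finset.mem_filter] at hβ
          rw [Finset.mem_coe, Multiset.mem_toFinset, mem_roots hne, IsRoot.def, hev]
          exact AdjoinRoot.mk_eq_zero.mpr hβ.2
        · intro β hβ β' hβ' h
          rw [Finset.mem_coe, Finset.mem_filter, mem_Pl, ← degree_eq_natDegree hπ.ne_zero] at hβ hβ'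
          exact sub_eq_zero.mp (eq_zero_of_dvd_of_degree_lt (AdjoinRoot.mk_eq_mk.mp h)
            (lt_of_le_of_lt (degree_sub_le _ _) (max_lt hβ.1 hβ'.1)))
    _ ≤ Multiset.card (F.map (AdjoinRoot.mk π)).roots := Multiset.toFinset_card_le _
    _ ≤ (F.map (AdjoinRoot.mk π)).natDegree := card_roots' _
    _ ≤ F.natDegree := natDegree_map_le

theorem exists_sq_mod' {π : K[X]} (hπ : Irreducible π) (B : K[X]) : ∃ τ : K[X], π ∣ τ ^ 2 - B := by
  have h2 : (2 : K[X]) = 0 := two_eq_zero_poly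
  obtain ⟨p₀, p₁, hp⟩ := exists_sq_add π
  obtain ⟨b₀, b₁, rfl⟩ := exists_sq_add B
  have hsep : IsCoprime π (derivative π) := PerfectField.separable_iff_squarefree.2 hπ.squarefree
  have hd : derivative π = p₁ ^ 2 := by rw [hp, derivative_sq_add]
  rw [hd, IsCoprime.pow_right_iff two_pos] at hsep
  obtain ⟨a, b, hab⟩ := hsep
  refine ⟨b₀ + p₀ * b * b₁, b₁ ^ 2 * (b ^ 2 + X * a ^ 2 * π), ?_⟩
  have e : b * p₁ = 1 - a * π := by linear_combination hab
  have e2 : X * (b * p₁) ^ 2 = X * (1 - a * π) ^ 2 := by rw [e]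
  linear_combination (-(b₁ ^ 2 * b ^ 2)) * hp - b₁ ^ 2 * e2 +
    (b₀ * p₀ * b * b₁ - X * b₁ ^ 2 + X * b₁ ^ 2 * a * π - X * b₁ ^ 2 * a ^ 2 * π ^ 2) * h2

theorem sum_chi_four {π : K[X]} (hm : π.Monic) (hπ : Irreducible π) {B : K[X]} (hB : ¬ π ∣ B) :
    ∑ r ∈ Pl K π.natDegree, chi π (r ^ 4 * B) = 0 := by
  obtain ⟨τ₁, h1⟩ := exists_sq_mod' hπ B
  obtain ⟨τ, h2⟩ := exists_sq_mod' hπ τ₁
  have h3 : π ∣ τ ^ 4 - B := by
    have e : τ ^ 4 - B = (τ ^ 2 - τ₁) * (τ ^ 2 + τ₁) + (τ₁ ^ 2 - B) := by ring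
    rw [e]
    exact dvd_add (h2.mul_right _) h1
  have h4 : ∀ r : K[X], chi π (r ^ 4 * B) = chi π (r * τ) := by
    intro r
    rw [← chi_sq π (r * τ), ← chi_sq π ((r * τ) ^ 2)]
    apply chi_congr
    have e : r ^ 4 * B - ((r * τ) ^ 2) ^ 2 = -r ^ 4 * (τ ^ 4 - B) := by ring
    rw [e]
    exact h3.mul_left _
  simp only [h4]
  rw [sum_chi hm hπ.squarefree, if_neg]
  intro h5
  apply hB
  have h6 := dvd_sub (h5.trans (dvd_pow_self τ (n := 4) (by norm_num))) h3
  rwa [sub_sub_cancel] at h6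

theorem weyl_cubic {π : K[X]} (hm : π.Monic) (hπ : Irreducible π) (Q Cc : K[X] → K[X])
    {A : K[X]} (hA : ¬ π ∣ A)
    (hQ : ∀ r ρ, Q r + Q (ρ + r) = Cc ρ + A * (r ^ 4 * ρ ^ 2 + r ^ 2 * ρ ^ 4)) :
    (𝔼 r ∈ Pl K π.natDegree, chi π (Q r)) ^ 2 ≤ 8 / (Fintype.card K : ℝ) ^ π.natDegree := by
  set N : ℝ := (Fintype.card K : ℝ) ^ π.natDegree with hN
  have hN0 : 0 < N := by
    have : (0 : ℝ) < Fintype.card K := by exact_mod_cast Fintype.card_pos
    positivity
  have hcard : ((Pl K π.natDegree).card : ℝ) = N := by rw [card_Pl]; push_cast; rfl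
  have h1 : ∀ r ρ, chi π (Q r) * chi π (Q (ρ + r)) =
      chi π (Cc ρ) * chi π (r ^ 4 * (A * ρ ^ 2 + A ^ 2 * ρ ^ 8)) := by
    intro r ρ
    rw [← chi_add, hQ, chi_add, mul_add A, chi_add, ← chi_sq π (A * (r ^ 2 * ρ ^ 4)), ← chi_add]
    congr 2
    ring
  have h2 : (∑ r ∈ Pl K π.natDegree, chi π (Q r)) ^ 2 ≤ 8 * N := by
    calc (∑ r ∈ Pl K π.natDegree, chi π (Q r)) ^ 2
        = ∑ r ∈ Pl K π.natDegree, ∑ ρ ∈ Pl K π.natDegree, chi π (Q r) * chi π (Q (ρ + r)) := by
          rw [sq, Finset.sum_mul]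
          refine Finset.sum_congr rfl fun r hr => ?_
          rw [← Finset.mul_sum, sum_Pl_shift hr fun v => chi π (Q v)]
      _ = ∑ ρ ∈ Pl K π.natDegree, chi π (Cc ρ) *
            ∑ r ∈ Pl K π.natDegree, chi π (r ^ 4 * (A * ρ ^ 2 + A ^ 2 * ρ ^ 8)) := by
          rw [Finset.sum_comm]
          simp only [h1, Finset.mul_sum]
      _ ≤ ∑ ρ ∈ Pl K π.natDegree,
            if π ∣ A * ρ ^ 2 + A ^ 2 * ρ ^ 8 then N else 0 := by
          refine Finset.sum_le_sum fun ρ _ => ?_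
          split_ifs with h
          · refine (le_abs_self _).trans ?_
            rw [abs_mul, abs_chi, one_mul]
            refine (Finset.abs_sum_le_sum_abs _ _).trans ?_
            simp only [abs_chi, sum_const, nsmul_eq_mul, mul_one, hcard, le_refl]
          · rw [sum_chi_four hm hπ h, mul_zero]
      _ ≤ 8 * N := by
          rw [← Finset.sum_filter, sum_const, nsmul_eq_mul]
          refine mul_le_mul_of_nonneg_right ?_ hN0.le
          set F₂ : K[X][X] := C (A ^ 2) + C (A ^ 3) * X ^ 6 with hF₂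
          have hd2 : F₂.natDegree ≤ 6 := by rw [hF₂]; compute_degree
          have h3 := roots_prime hπ F₂ (β₀ := 0) (by
            rw [hF₂]
            simp only [eval_add, eval_mul, eval_C, eval_pow, eval_X]
            rw [zero_pow (by norm_num), mul_zero, add_zero]
            exact fun h => hA (hπ.prime.dvd_of_dvd_pow h))
          have h4 := roots_prime hπ (X : K[X][X]) (β₀ := 1) (by
            rw [eval_X]
            exact hπ.not_dvd_one)
          have h5 : ((Pl K π.natDegree).filter fun ρ => π ∣ A * ρ ^ 2 + A ^ 2 * ρ ^ 8) ⊆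
              ((Pl K π.natDegree).filter fun β => π ∣ F₂.eval β) ∪
                ((Pl K π.natDegree).filter fun β => π ∣ (X : K[X][X]).eval β) := by
            intro ρ hρ
            rw [mem_filter] at hρ
            have h6 : π ∣ ρ ^ 2 * (A ^ 2 + A ^ 3 * ρ ^ 6) := by
              have h7 := hρ.2.mul_left A
              rwa [show A * (A * ρ ^ 2 + A ^ 2 * ρ ^ 8) = ρ ^ 2 * (A ^ 2 + A ^ 3 * ρ ^ 6) by ring]
                at h7
            rcases hπ.prime.dvd_or_dvd h6 with h8 | h8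
            · refine mem_union_right _ (mem_filter.2 ⟨hρ.1, ?_⟩)
              rw [eval_X]
              exact hπ.prime.dvd_of_dvd_pow h8
            · refine mem_union_left _ (mem_filter.2 ⟨hρ.1, ?_⟩)
              rw [hF₂]
              simpa only [eval_add, eval_mul, eval_C, eval_pow, eval_X] using h8
          have h9 := (card_le_card h5).trans (card_union_le _ _)
          rw [natDegree_X] at h4
          exact_mod_cast (by omega : ((Pl K π.natDegree).filter
            fun ρ => π ∣ A * ρ ^ 2 + A ^ 2 * ρ ^ 8).card ≤ 8)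
  rw [Finset.expect_eq_sum_div_card, hcard, div_pow, div_le_div_iff₀ (by positivity) hN0]
  nlinarith

end Pool.Agent.P.MP_a9a441_nt
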