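import Pool.Agent.P.MP_a9a441_nt.Mom
import Pool.Agent.P.MP_a1177c_nt.HL.Burgess
import Pool.Agent.P.MP_a1177c_nt.HL.Local

/-! The correlation sum over `x` for a modulus `y = y₁ p` with a convenient factorisation. -/

namespace Pool.Agent.P.MP_a9a441_nt

open Polynomial Finset Pool.Agent.P.MP_a1177c_nt.HL
open scoped Classical

variable {K : Type*} [Field K] [Fintype K] [CharP K 2]

theorem mult_le {p : K[X]} (hp : p.Monic) (hsq : Squarefree p) {s : K[X]} (hs : IsCoprime s p)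
    (c₀ : K[X]) {k : ℕ} (hk : k + 1 ≤ 2 * p.natDegree) (α β : K[X]) :
    (((Pl K (k + 1)).filter fun x =>
      p ∣ x - β ∧ p ∣ s * (derivative x ^ 2 + c₀) ^ 3 - α).card : ℝ) ≤ 6 ^ (pf p).card := by
  have h2 : (2 : K[X]) = 0 := two_eq_zero_poly
  set S := (Pl K (k + 1)).filter fun x =>
      p ∣ x - β ∧ p ∣ s * (derivative x ^ 2 + c₀) ^ 3 - α with hS
  rcases S.eq_empty_or_nonempty with h0 | ⟨x₀, hx₀⟩
  · rw [h0]; simp
  set F : K[X][X] :=
    C s * (C (derivative p ^ 2) * X ^ 2 + C (derivative x₀ ^ 2 + c₀)) ^ 3 - C α with hF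
  have hdeg : F.natDegree ≤ 6 := by
    rw [hF]
    compute_degree
  have hco : F.coeff 6 = s * (derivative p ^ 2) ^ 3 := by
    have h1 : (C (derivative p ^ 2) * X ^ 2 + C (derivative x₀ ^ 2 + c₀) : K[X][X]) ^ 3 =
        C ((derivative p ^ 2) ^ 3) * X ^ 6
          + C (3 * (derivative p ^ 2) ^ 2 * (derivative x₀ ^ 2 + c₀)) * X ^ 4
          + C (3 * (derivative p ^ 2) * (derivative x₀ ^ 2 + c₀) ^ 2) * X ^ 2
          + C ((derivative x₀ ^ 2 + c₀) ^ 3) := by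
      simp only [map_mul, map_pow, map_ofNat, map_add]
      ring
    rw [hF, h1]
    simp only [coeff_sub, coeff_add, coeff_C_mul, coeff_X_pow, coeff_C]
    simp
  have hsep : IsCoprime p (derivative p) := PerfectField.separable_iff_squarefree.2 hsq
  have key := card_roots_le hp hsq F (D := 6) (by norm_num) hdeg 1 (by
    intro π hπ _
    refine ⟨6, ?_⟩
    rw [mem_pf hp.ne_zero] at hπ
    rw [hco]
    intro hd
    have hc : IsCoprime (s * (derivative p ^ 2) ^ 3) p :=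
      hs.mul_left hsep.symm.pow_left.pow_left
    exact hπ.2.1.not_isUnit (hc.isUnit_of_dvd' hd hπ.2.2))
  have hempty : (pf p).filter (fun π => π ∣ (1 : K[X])) = ∅ := by
    refine filter_eq_empty_iff.2 fun π hπ hd => ?_
    rw [mem_pf hp.ne_zero] at hπ
    exact hπ.2.1.not_isUnit (isUnit_of_dvd_one hd)
  rw [hempty, prod_empty, mul_one] at key
  refine le_trans ?_ (by simpa using key)
  norm_cast
  have hdiv : ∀ x ∈ S, ∃ t, x - x₀ = p * t ∧ (x - x₀) /ₘ p = t := by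
    intro x hx
    have h1 := (Finset.mem_filter.1 hx).2.1
    have h3 := (Finset.mem_filter.1 hx₀).2.1
    obtain ⟨t, ht⟩ : p ∣ x - x₀ := by
      have := dvd_sub h1 h3
      rwa [sub_sub_sub_cancel_right] at this
    exact ⟨t, ht, by rw [ht, mul_divByMonic_cancel_left _ hp]⟩
  refine Finset.card_le_card_of_injOn (fun x => (x - x₀) /ₘ p) (fun x hx => ?_) ?_
  · obtain ⟨t, ht, ht'⟩ := hdiv x hx
    have hx1 := mem_Pl.1 (Finset.mem_filter.1 hx).1
    have hx2 := mem_Pl.1 (Finset.mem_filter.1 hx₀).1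
    show (x - x₀) /ₘ p ∈ ((Pl K p.natDegree).filter fun β => p ∣ F.eval β)
    rw [ht', Finset.mem_filter]
    constructor
    · rw [mem_Pl]
      by_cases ht0 : t = 0
      · rw [ht0, degree_zero]; exact WithBot.bot_lt_coe _
      have h3 : (x - x₀).degree < (k + 1 : ℕ) := lt_of_le_of_lt (degree_sub_le _ _) (max_lt hx1 hx2)
      rw [ht, degree_eq_natDegree (mul_ne_zero hp.ne_zero ht0), natDegree_mul hp.ne_zero ht0] at h3
      rw [degree_eq_natDegree ht0]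
      norm_cast at h3 ⊢
      omega
    · have hxe : x = x₀ + p * t := by rw [← ht]; ring
      have hd : derivative x = derivative x₀ + (derivative p * t + p * derivative t) := by
        rw [hxe, derivative_add, derivative_mul]
      have h3 := (Finset.mem_filter.1 hx).2.2
      have h4 : p ∣ (derivative x ^ 2 + c₀) ^ 3
          - (derivative p ^ 2 * t ^ 2 + (derivative x₀ ^ 2 + c₀)) ^ 3 := by
        refine dvd_trans ⟨p * derivative t ^ 2, ?_⟩ (sub_dvd_pow_sub_pow _ _ 3)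
        rw [hd]
        linear_combination (derivative x₀ * derivative p * t + derivative x₀ * p * derivative t
          + derivative p * t * p * derivative t) * h2
      have h5 : F.eval t = (s * (derivative x ^ 2 + c₀) ^ 3 - α) - s * ((derivative x ^ 2 + c₀) ^ 3
          - (derivative p ^ 2 * t ^ 2 + (derivative x₀ ^ 2 + c₀)) ^ 3) := by
        rw [hF]
        simp only [eval_sub, eval_mul, eval_add, eval_pow, eval_C, eval_X]
        ring
      rw [h5]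
      exact dvd_sub h3 (h4.mul_left s)
  · intro x hx x' hx' he
    obtain ⟨t, ht, ht'⟩ := hdiv x hx
    obtain ⟨t', hu, hu'⟩ := hdiv x' hx'
    have he' : (x - x₀) /ₘ p = (x' - x₀) /ₘ p := he
    rw [ht', hu'] at he'
    have : x - x₀ = x' - x₀ := by rw [ht, hu, he']
    exact sub_left_inj.1 this

theorem holder16 {T Z : Type*} (S : Finset T) (R : Finset Z) (π : T → Z)
    (hπ : ∀ t ∈ S, π t ∈ R) (W : Z → ℝ) (ν : ℝ)
    (hν : ∀ z ∈ R, ((S.filter fun t => π t = z).card : ℝ) ≤ ν) :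
    (∑ t ∈ S, |W (π t)|) ^ 16 ≤ (S.card : ℝ) ^ 15 * (ν * ∑ z ∈ R, W z ^ 16) := by
  refine (pow_sum_le_card_mul_sum_pow (fun t _ => abs_nonneg _) 15).trans
    (mul_le_mul_of_nonneg_left ?_ (by positivity))
  rw [← Finset.sum_fiberwise_of_maps_to hπ, Finset.mul_sum]
  refine Finset.sum_le_sum fun z hz => ?_
  have h16 : Even 16 := by decide
  rw [Finset.sum_congr rfl (g := fun _ => W z ^ 16)
    (fun t ht => by rw [(Finset.mem_filter.1 ht).2]; exact h16.pow_abs _),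
    Finset.sum_const, nsmul_eq_mul]
  exact mul_le_mul_of_nonneg_right (hν z hz) (h16.pow_nonneg _)

theorem good_fin {L a N P Y c₆ c₈ D B E : ℝ} (hL : 0 < L) (hN : 0 ≤ N) (hP : 0 ≤ P) (hY : 0 ≤ Y)
    (h6 : 0 ≤ c₆) (h8 : 0 ≤ c₈) (hD : 0 ≤ D) (hB : 0 ≤ B)
    (h4 : (L * a) ^ 16 ≤ N ^ 15 * (c₆ * (P * (c₈ * E + 16 * D * (L * (L * B) ^ 15)))))
    (h5 : E ≤ L ^ 16) (hPY : P * Y ≤ N) :
    a ^ 16 * Y ≤ N ^ 16 * (c₆ * (c₈ + 16 * D * B ^ 15)) := by
  have hl0 : 0 < L ^ 16 := by positivity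
  refine le_of_mul_le_mul_left ?_ hl0
  have h7 : N ^ 15 * (c₆ * (P * (c₈ * E + 16 * D * (L * (L * B) ^ 15)))) ≤
      N ^ 15 * (c₆ * (P * (c₈ * L ^ 16 + 16 * D * (L * (L * B) ^ 15)))) := by gcongr
  calc L ^ 16 * (a ^ 16 * Y) = (L * a) ^ 16 * Y := by ring
    _ ≤ N ^ 15 * (c₆ * (P * (c₈ * L ^ 16 + 16 * D * (L * (L * B) ^ 15)))) * Y :=
        mul_le_mul_of_nonneg_right (h4.trans h7) hY
    _ = L ^ 16 * (N ^ 15 * (P * Y) * (c₆ * (c₈ + 16 * D * B ^ 15))) := by ring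
    _ ≤ L ^ 16 * (N ^ 15 * N * (c₆ * (c₈ + 16 * D * B ^ 15))) := by gcongr
    _ = _ := by ring

theorem good_bound {y₁ p : K[X]} (hy₁ : y₁.Monic) (hp : p.Monic) (hsq : Squarefree p)
    (hc : IsCoprime y₁ p) {k : ℕ} (hk : (y₁ * p).natDegree = k) {T : Finset K[X]} {s₀ : K[X]}
    (hs₀ : s₀ ∈ T) (hT : ∀ s ∈ T, s ≠ s₀ → IsCoprime (s + s₀) p)
    (hTd : ∀ s ∈ T, 2 * s.natDegree ≤ k) {l : ℕ} (hl : 2 * (y₁.natDegree + l) ≤ k)
    (h2k : k + 1 ≤ 2 * p.natDegree) (h8 : p.natDegree ≤ 8 * l) (B : ℝ) (hB : 0 ≤ B)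
    (hΛ : ∑ w ∈ (Pl K l).erase 0, momWt p (zz T s₀ y₁ w) ≤ (Fintype.card K : ℝ) ^ l * B) :
    |∑ x ∈ Pl K (k + 1), ∏ s ∈ T, mu ((x + s ^ 2) ^ 2 + X * (y₁ * p) ^ 2)| ^ 16 *
        (Fintype.card K : ℝ) ^ y₁.natDegree ≤
      ((Fintype.card K : ℝ) ^ (k + 1)) ^ 16 *
        (6 ^ (pf p).card * (8 ^ 16 + 16 * (32 * T.card) ^ (pf p).card * B ^ 15)) := by
  have h2 : (2 : K[X]) = 0 := two_eq_zero_poly
  obtain ⟨κ, s₁, hκ, hκs, hs₁, hμ⟩ := mu_factor hy₁ hp hsq hc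
  set Q : ℝ := (Fintype.card K : ℝ) with hQdef
  have hQ : 1 ≤ Q := mom_one_le_card
  set c₀ := X * derivative (y₁ * p) ^ 2 with hc₀
  set A : K[X] → K[X] := fun x => s₁ * (derivative x ^ 2 + c₀) ^ 3 with hA
  set π : K[X] → K[X] × K[X] := fun x => (A x %ₘ p, x %ₘ p) with hπ
  set W : K[X] × K[X] → ℝ := fun z =>
    ∑ v ∈ Pl K l, ∏ s ∈ T, kl p z.1 ((z.2 + (s ^ 2 + (y₁ * v) ^ 2)) ^ 2) with hW
  set κ' : K[X] → ℝ := fun x => ∏ s ∈ T, κ (x + s ^ 2) with hκ'
  set S₀ : ℝ := ∑ x ∈ Pl K (k + 1), ∏ s ∈ T, mu ((x + s ^ 2) ^ 2 + X * (y₁ * p) ^ 2) with hS₀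
  have hdsq : ∀ x z : K[X], derivative (x + z ^ 2) = derivative x := by
    intro x z
    rw [derivative_add, derivative_sq]
    have : (C 2 : K[X]) = 0 := by
      rw [← h2]; rfl
    rw [this]; ring
  have hS1 : S₀ = ∑ x ∈ Pl K (k + 1), κ' x * ∏ s ∈ T, kl p (A x) ((x + s ^ 2) ^ 2) := by
    refine Finset.sum_congr rfl fun x hx => ?_
    rw [hκ', ← Finset.prod_mul_distrib]
    refine Finset.prod_congr rfl fun s hs => ?_
    rw [hμ, hdsq]
    rw [hk]
    refine (natDegree_add_le _ _).trans (max_le ?_ (natDegree_pow_le.trans (hTd s hs)))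
    by_cases h0 : x = 0
    · simp [h0]
    · have := (natDegree_lt_iff_degree_lt h0).2 (mem_Pl.1 hx)
      omega
  have hshift : ∀ v ∈ Pl K l, S₀ = ∑ x ∈ Pl K (k + 1),
      κ' x * ∏ s ∈ T, kl p (π x).1 (((π x).2 + (s ^ 2 + (y₁ * v) ^ 2)) ^ 2) := by
    intro v hv
    have hmem : (y₁ * v) ^ 2 ∈ Pl K (k + 1) := by
      have hv' : v.natDegree ≤ l := by
        rcases eq_or_ne v 0 with rfl | h0
        · simp
        · exact ((natDegree_lt_iff_degree_lt h0).2 (mem_Pl.1 hv)).le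
      have h3 : ((y₁ * v) ^ 2).natDegree ≤ k :=
        natDegree_pow_le.trans (by have := natDegree_mul_le (p := y₁) (q := v); omega)
      rw [mem_Pl]
      exact lt_of_le_of_lt degree_le_natDegree (by exact_mod_cast Nat.lt_succ_of_le h3)
    rw [hS1, ← sum_Pl_shift hmem
      (fun x => κ' x * ∏ s ∈ T, kl p (A x) ((x + s ^ 2) ^ 2))]
    refine Finset.sum_congr rfl fun x _ => ?_
    have hAx : A (x + (y₁ * v) ^ 2) = A x := by simp only [hA, hdsq]
    have hκx : κ' (x + (y₁ * v) ^ 2) = κ' x := by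
      refine Finset.prod_congr rfl fun s _ => ?_
      rw [add_right_comm, hκs]
    rw [hAx, hκx]
    refine congrArg (fun t => κ' x * t) (Finset.prod_congr rfl fun s _ => ?_)
    refine kl_scale (u := 1) isCoprime_one_left ?_ ?_
    · rw [one_mul]; exact burgess_dvd_mod p _
    · rw [one_mul]
      refine dvd_trans ?_ (sub_dvd_pow_sub_pow _ _ 2)
      have : x + (y₁ * v) ^ 2 + s ^ 2 - ((π x).2 + (s ^ 2 + (y₁ * v) ^ 2)) = x - x %ₘ p := by
        simp only [hπ]; ring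
      rw [this]
      exact burgess_dvd_mod p _
  have hsum : Q ^ l * S₀ = ∑ x ∈ Pl K (k + 1), κ' x * W (π x) := by
    simp only [hW, Finset.mul_sum]
    rw [Finset.sum_comm, Finset.sum_congr rfl (fun v hv => (hshift v hv).symm), Finset.sum_const,
      card_Pl, nsmul_eq_mul]
    push_cast
    rfl
  have hκ1 : ∀ x, |κ' x| ≤ 1 := fun x => by
    rw [hκ', Finset.abs_prod]
    exact Finset.prod_le_one (fun _ _ => abs_nonneg _) (fun _ _ => hκ _)
  have h1 : Q ^ l * |S₀| ≤ ∑ x ∈ Pl K (k + 1), |W (π x)| := by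
    have : Q ^ l * |S₀| = |Q ^ l * S₀| := by
      rw [abs_mul, abs_of_nonneg (a := Q ^ l) (by positivity)]
    rw [this, hsum]
    refine (Finset.abs_sum_le_sum_abs _ _).trans (Finset.sum_le_sum fun t _ => ?_)
    rw [abs_mul]
    exact mul_le_of_le_one_left (abs_nonneg _) (hκ1 _)
  have hmod : ∀ a : K[X], a %ₘ p ∈ Pl K p.natDegree := by
    intro a
    rw [mem_Pl, ← degree_eq_natDegree hp.ne_zero]
    exact degree_modByMonic_lt a hp
  have h3 := holder16 (Pl K (k + 1)) (Pl K p.natDegree ×ˢ Pl K p.natDegree) π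
    (fun t _ => Finset.mem_product.2 ⟨hmod _, hmod _⟩) W (6 ^ (pf p).card) (by
      intro z _
      refine le_trans ?_ (mult_le hp hsq hs₁ c₀ h2k z.1 z.2)
      refine Nat.cast_le.2 (Finset.card_le_card fun x hx => ?_)
      obtain ⟨hx1, hx2⟩ := (@Finset.mem_filter _ _ (_) _ _).1 hx
      rw [Finset.mem_filter, ← hx2]
      exact ⟨hx1, burgess_dvd_mod p _, burgess_dvd_mod p _⟩)
  have hM := moment16 hp hsq hs₀ hT y₁ l _ hΛ
  rw [← Finset.sum_product' (f := fun α β =>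
    (∑ v ∈ Pl K l, ∏ s ∈ T, kl p α ((β + (s ^ 2 + (y₁ * v) ^ 2)) ^ 2)) ^ 16)] at hM
  rw [card_Pl] at h3
  push_cast at h3
  have hdeg : y₁.natDegree + p.natDegree = k := by rw [← hk, hy₁.natDegree_mul hp]
  set ω := (pf p).card
  set D : ℝ := (32 * T.card) ^ ω with hD
  have hD0 : 0 ≤ D := by positivity
  have h4 : (Q ^ l * |S₀|) ^ 16 ≤ (Q ^ (k + 1)) ^ 15 * (6 ^ ω * (Q ^ p.natDegree *
      (8 ^ 16 * Q ^ (p.natDegree + 8 * l) + 16 * D * (Q ^ l * (Q ^ l * B) ^ 15)))) :=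
    (pow_le_pow_left₀ (by positivity) h1 16).trans (h3.trans
      (mul_le_mul_of_nonneg_left (mul_le_mul_of_nonneg_left hM (by positivity)) (by positivity)))
  have h5 : Q ^ (p.natDegree + 8 * l) ≤ (Q ^ l) ^ 16 := by
    rw [← pow_mul]
    exact pow_le_pow_right₀ hQ (by omega)
  have h6 : Q ^ p.natDegree * Q ^ y₁.natDegree ≤ Q ^ (k + 1) := by
    rw [← pow_add]
    exact pow_le_pow_right₀ hQ (by omega)
  exact good_fin (by positivity) (by positivity) (by positivity) (by positivity) (by positivity)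
    (by positivity) hD0 hB h4 h5 h6

end Pool.Agent.P.MP_a9a441_nt
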