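import Pool.Agent.P.MP_a9a441_nt.MainK

/-! The correlation sum over `x` when all moduli have a prime factor of medium degree. -/

namespace Pool.Agent.P.MP_a9a441_nt

open Polynomial Finset Pool.Agent.P.MP_a1177c_nt.HL
open scoped BigOperators Classical

variable {K : Type*} [Field K] [Fintype K] [CharP K 2]

theorem sq_add_split {m : ℕ} {B : K[X]} (hB : B ∈ Pl K (2 * m + 1)) :
    ∃ u v : K[X], u.natDegree ≤ m ∧ v ∈ Pl K m ∧ B = u ^ 2 + X * v ^ 2 := by
  obtain ⟨u, v, h⟩ := exists_sq_add B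
  have hB' : B.natDegree ≤ 2 * m := by
    rcases eq_or_ne B 0 with h0 | h0
    · simp [h0]
    · have := (natDegree_lt_iff_degree_lt h0).2 (mem_Pl.1 hB)
      omega
  have hv : v = 0 ∨ (v ≠ 0 ∧ v.natDegree < m) := by
    rcases eq_or_ne v 0 with h0 | h0
    · exact Or.inl h0
    · refine Or.inr ⟨h0, ?_⟩
      have h1 : derivative B = v ^ 2 := by rw [h, derivative_sq_add]
      have h2 : B.natDegree ≠ 0 := fun h3 => by
        rw [derivative_of_natDegree_zero h3] at h1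
        exact pow_ne_zero 2 h0 h1.symm
      have h3 := natDegree_derivative_lt h2
      rw [h1, natDegree_pow] at h3
      omega
  have h4 : (X * v ^ 2).natDegree ≤ 2 * m := by
    rcases hv with h0 | ⟨-, h0⟩
    · simp [h0]
    · have h5 := natDegree_mul_le (p := (X : K[X])) (q := v ^ 2)
      rw [natDegree_X, natDegree_pow] at h5
      omega
  refine ⟨u, v, ?_, ?_, h⟩
  · have h5 := natDegree_sub_le B (X * v ^ 2)
    rw [show B - X * v ^ 2 = u ^ 2 by rw [h]; ring, natDegree_pow] at h5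
    omega
  · rcases hv with h0 | ⟨h0, h1⟩
    · rw [h0]; exact zero_mem_Pl m
    · exact mem_Pl.2 ((natDegree_lt_iff_degree_lt h0).1 h1)

theorem local_split {Y π : K[X]} (hY : Y.Monic) (hπm : π.Monic) (hπ : Irreducible π) {t a b : ℕ}
    (hta : 3 * t ≤ a) (ha : a ≤ π.natDegree) (hb : π.natDegree < b)
    (h1 : ¬ ∃ g : K[X], g.Monic ∧ t ≤ g.natDegree ∧ g ^ 2 ∣ Y)
    (h2 : ∃ π' : K[X], π'.Monic ∧ Irreducible π' ∧ a ≤ π'.natDegree ∧ π'.natDegree < b ∧ π' ∣ Y) :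
    ∃ (κ : K[X] → ℝ) (w π' c s : K[X]), (∀ x, |κ x| ≤ 1) ∧ (∀ x v, κ (x + (w * v) ^ 2) = κ x) ∧
      ¬ π ∣ w ∧ w.natDegree ≤ 3 * t ∧ (π ∣ Y → π' = π ∧ ¬ π ∣ s) ∧ (¬ π ∣ Y → ¬ π ∣ π') ∧
      π'.natDegree < b ∧ ¬ π ∣ c ∧ c.natDegree + a ≤ Y.natDegree ∧
      ∀ x : K[X], x.natDegree ≤ Y.natDegree → mu (x ^ 2 + X * Y ^ 2) =
        κ x * kl c (s * (derivative x ^ 2 + X * derivative Y ^ 2) ^ 3) (x ^ 2) *
          kl π' (s * (derivative x ^ 2 + X * derivative Y ^ 2) ^ 3) (x ^ 2) := by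
  obtain ⟨g, w, p, hg, hw, hp, hgy, hyp, hsq, hc, hd⟩ := split_y hY monic_one
  rw [one_mul] at hc
  rw [natDegree_one, add_zero] at hd
  have hgt : g.natDegree < t := by
    by_contra h
    exact h1 ⟨g, hg, not_lt.1 h, hgy⟩
  obtain ⟨π', m1, i1, a1, b1, d1, e1⟩ : ∃ π' : K[X], π'.Monic ∧ Irreducible π' ∧
      a ≤ π'.natDegree ∧ π'.natDegree < b ∧ π' ∣ Y ∧ (π ∣ Y → π' = π) := by
    by_cases h : π ∣ Y
    · exact ⟨π, hπm, hπ, ha, hb, h, fun _ => rfl⟩
    · obtain ⟨π', m1, i1, a1, b1, d1⟩ := h2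
      exact ⟨π', m1, i1, a1, b1, d1, fun h' => absurd h' h⟩
  have hw' : ∀ ρ : K[X], a ≤ ρ.natDegree → ¬ ρ ∣ w := fun ρ h3 h4 => by
    have := natDegree_le_of_dvd h4 hw.ne_zero
    omega
  obtain ⟨c, hpc⟩ : π' ∣ p := (i1.prime.dvd_or_dvd (hyp ▸ d1)).resolve_left (hw' π' a1)
  have hc0 : c ≠ 0 := by
    rintro rfl
    exact hp.ne_zero (by rw [hpc, mul_zero])
  obtain ⟨κ, s, hκ, hκs, hs, hμ⟩ := mu_factor hw hp hsq hc
  have hpY : p ∣ Y := ⟨w, by rw [hyp, mul_comm]⟩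
  refine ⟨κ, w, π', c, s, hκ, hκs, hw' π ha, by omega, fun h => ⟨e1 h, fun h3 => ?_⟩,
    fun h h3 => h (h3.trans d1), b1, fun h3 => ?_, ?_, fun x hx => ?_⟩
  · exact hπ.not_isUnit (hs.isUnit_of_dvd' h3 (e1 h ▸ ⟨c, hpc⟩))
  · have h4 : π ∣ p := h3.trans ⟨π', by rw [hpc, mul_comm]⟩
    have h5 := e1 (h4.trans hpY)
    refine hπ.not_isUnit (hsq π ?_)
    rw [hpc, h5]
    exact mul_dvd_mul_left π h3
  · have h4 := natDegree_le_of_dvd hpY hY.ne_zero
    rw [hpc, natDegree_mul m1.ne_zero hc0] at h4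
    omega
  · rw [← hyp] at hμ
    rw [hμ x hx, mul_assoc]
    refine congrArg (fun z => κ x * z) ?_
    rw [hpc, kl_mul' m1.ne_zero hc0, mul_comm]

theorem good_prime {J : Type} [Fintype J] (α u Y : J → K[X]) (i₀ : J) {π : K[X]} (hπm : π.Monic)
    (hπ : Irreducible π) {k l t a b C : ℕ} (hta : 3 * t ≤ a) (hlC : 2 * l + C < a)
    (hb : 3 * b ≤ k) (ha : a ≤ π.natDegree) (hπb : π.natDegree < b)
    (hα : ∀ i, α i ≠ 0 ∧ (α i).natDegree ≤ C)
    (hY : ∀ i, (Y i).Monic ∧ (Y i).natDegree = (α i).natDegree + k)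
    (hu : ∀ i, (u i).natDegree ≤ (α i).natDegree + k)
    (h1 : ∀ i, ¬ ∃ g : K[X], g.Monic ∧ t ≤ g.natDegree ∧ g ^ 2 ∣ Y i)
    (h2 : ∀ i, ∃ π' : K[X], π'.Monic ∧ Irreducible π' ∧ a ≤ π'.natDegree ∧ π'.natDegree < b ∧
      π' ∣ Y i) (h0 : π ∣ Y i₀)
    (h3 : ∀ i, i ≠ i₀ → π ∣ Y i → ¬ π ∣ α i₀ * u i + α i * u i₀) :
    (𝔼 x ∈ Pl K (k + 1), ∏ i, mu ((α i * x + u i) ^ 2 + X * Y i ^ 2)) ^
        2 ^ (9 * Fintype.card J + 1) ≤
      3 ^ (9 * Fintype.card J) * (Fintype.card J * (10 / (Fintype.card K : ℝ) ^ l)) := by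
  choose κ w π' c s hκ hκs hw hwd hs hπ' hπ'd hc hcd hμ using
    fun i => local_split (hY i).1 hπm hπ hta ha hπb (h1 i) (h2 i)
  have hαu : ∀ i, ¬ π ∣ α i := fun i h => by
    have h4 := natDegree_le_of_dvd h (hα i).1
    have h5 := (hα i).2
    omega
  set d : J → K[X] := fun i => X * derivative (Y i) ^ 2 with hd
  set F : K[X] → ℝ := fun x => ∏ j : {i // π ∣ Y i}, kf π (s j) (α j) (u j) (d j) x with hF
  set f : J ⊕ J ⊕ J → K[X] → ℝ := Sum.elim (fun i x => κ i (α i * x + u i))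
    (Sum.elim (fun i => kf (c i) (s i) (α i) (u i) (d i))
      fun i x => if π ∣ Y i then 1 else kf (π' i) (s i) (α i) (u i) (d i) x) with hf
  have hM : MainP π (Fintype.card J) F :=
    ⟨{i // π ∣ Y i}, inferInstance, fun j => s j, fun j => α j, fun j => u j, fun j => d j,
      ⟨i₀, h0⟩, Fintype.card_subtype_le _, fun j => ⟨(hs j j.2).2, hαu j⟩,
      fun j hj => h3 j (fun h => hj (Subtype.ext h)) j.2, fun _ => rfl⟩
  have hJ : Junk (DirP π (k + 1) l) (9 * Fintype.card J) fun x => ∏ j, f j x := by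
    have h4 := Junk.prod (Dir := DirP π (k + 1) l) univ f (by
      rintro (i | i | i) -
      · refine ⟨fun h => α i * w i ^ 2 * (h : K[X]) ^ 2, ⟨α i * w i ^ 2, fun h => ?_, ?_,
          fun _ => rfl⟩, deg_of_inv 2 (fun x => hκ i _) fun x h => ?_⟩
        · exact (hπ.prime.dvd_or_dvd h).elim (hαu i) fun h' => hw i (hπ.prime.dvd_of_dvd_pow h')
        · have h5 := natDegree_mul_le (p := α i) (q := w i ^ 2)
          have h6 := hwd i
          have h7 := (hα i).2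
          rw [natDegree_pow] at h5
          omega
        · simp only [hf, Sum.elim_inl]
          rw [show α i * (x + α i * w i ^ 2 * (h : K[X]) ^ 2) + u i =
            α i * x + u i + (w i * (α i * h)) ^ 2 by ring, hκs]
      · refine ⟨fun h => c i * (h : K[X]) ^ 2, ⟨c i, hc i, ?_, fun _ => rfl⟩,
          deg_kf _ _ _ _ _ fun h : Pl K l => (h : K[X]) ^ 2⟩
        have h5 := hcd i
        have h6 := (hY i).2
        have h7 := (hα i).2
        omega
      · by_cases h5 : π ∣ Y i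
        · refine ⟨fun h => 1 * (h : K[X]) ^ 2, ⟨1, hπ.not_dvd_one, ?_, fun _ => rfl⟩,
            deg_of_inv 2 (fun x => ?_) fun x h => ?_⟩
          · rw [natDegree_one]
            omega
          · simp only [hf, Sum.elim_inr, if_pos h5, abs_one, le_refl]
          · simp only [hf, Sum.elim_inr, if_pos h5]
        · refine ⟨fun h => π' i * (h : K[X]) ^ 2, ⟨π' i, hπ' i h5, ?_, fun _ => rfl⟩, ?_⟩
          · have h6 := hπ'd i
            omega
          · simp only [hf, Sum.elim_inr, if_neg h5]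
            exact deg_kf _ _ _ _ _ fun h : Pl K l => (h : K[X]) ^ 2)
    rwa [card_univ, Fintype.card_sum, Fintype.card_sum,
      show 3 * (Fintype.card J + (Fintype.card J + Fintype.card J)) = 9 * Fintype.card J by ring]
      at h4
  refine le_of_eq_of_le ?_ (kill_prime hπm hπ (l := l) (by omega) (by omega) hM hJ)
  refine congrArg (fun z : ℝ => z ^ 2 ^ (9 * Fintype.card J + 1))
    (Finset.expect_congr rfl fun x hx => ?_)
  have hx' : x.natDegree ≤ k := by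
    rcases eq_or_ne x 0 with h | h
    · simp [h]
    · have := (natDegree_lt_iff_degree_lt h).2 (mem_Pl.1 hx)
      omega
  have h5 : F x = ∏ i, if π ∣ Y i then kf (π' i) (s i) (α i) (u i) (d i) x else 1 := by
    rw [← Finset.prod_filter, Finset.prod_subtype (p := fun i => π ∣ Y i) _ (by simp)]
    exact Finset.prod_congr rfl fun j _ => by rw [(hs j j.2).1]
  rw [h5]
  simp only [Fintype.prod_sum_type, hf, Sum.elim_inl, Sum.elim_inr, ← Finset.prod_mul_distrib]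
  refine Finset.prod_congr rfl fun i _ => ?_
  rw [hμ i]
  · unfold kf
    split_ifs <;> ring
  · have h6 := natDegree_add_le (α i * x) (u i)
    have h7 := natDegree_mul_le (p := α i) (q := x)
    have h8 := hu i
    rw [(hY i).2]
    omega

end Pool.Agent.P.MP_a9a441_nt
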