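import Pool.Agent.P.MP_a9a441_nt.Gowers

/-! All local uniformity seminorms of the Liouville function of `K[X]` vanish, `K` finite of
characteristic two. -/

namespace Pool.Agent.P.MP_a9a441_nt.GowersStmt

open Polynomial Finset Pool.Agent.P.MP_a1177c_nt.HL Pool.Agent.P.MP_a9a441_nt
open scoped BigOperators

theorem result (K : Type*) [Field K] [Fintype K] [CharP K 2] (s : ℕ) (hs : 1 ≤ s) (ε : ℝ)
    (hε : 0 < ε) :
    ∃ H₀ : ℕ, ∀ n H : ℕ, H₀ ≤ H → H ≤ n →
      ∑ g ∈ Mn K n, |∑ h ∈ Fintype.piFinset fun _ : Fin s => Pl K H,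
          ∏ ω : Finset (Fin s), lam (g + ∑ i ∈ ω, h i)| ≤
        ε * (Fintype.card K : ℝ) ^ n * ((Fintype.card K : ℝ) ^ H) ^ s := by
  obtain ⟨s, rfl⟩ : ∃ s', s = s' + 1 := ⟨s - 1, by omega⟩
  obtain ⟨H₀, n₀, h₀⟩ := uniform (K := K) s hε
  refine ⟨H₀ + n₀, fun n H hH hHn => ?_⟩
  obtain ⟨Bd, hB, hBd⟩ := h₀ n (by omega) H (by omega) hHn
  have hq : (0 : ℝ) < Fintype.card K := by exact_mod_cast Fintype.card_pos
  rw [Finset.expect_eq_sum_div_card, card_Mn, div_le_iff₀ (by positivity)] at hB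
  push_cast at hB
  refine le_trans ?_ (mul_le_mul_of_nonneg_right hB (by positivity))
  rw [Finset.sum_mul]
  refine Finset.sum_le_sum fun g hg => ?_
  obtain ⟨b, hb1, hb2, hb3⟩ := cube_factor s lam (fun z => (abs_lam z).le) g
  have h1 := hBd g hg b hb1 hb2
  rw [Finset.expect_eq_sum_div_card, Fintype.card_piFinset, Finset.prod_const, card_Pl,
    Finset.card_univ, Fintype.card_fin, abs_div,
    abs_of_pos (a := (((Fintype.card K ^ H) ^ (s + 1) : ℕ) : ℝ)) (by positivity),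
    div_le_iff₀ (by positivity)] at h1
  push_cast at h1
  simpa only [hb3] using h1

end Pool.Agent.P.MP_a9a441_nt.GowersStmt
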