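import Pool.Agent.P.MP_a9a441_nt.Box

/-! Removing factors of bounded degree by repeated van der Corput steps. -/

namespace Pool.Agent.P.MP_a9a441_nt

open Finset
open scoped BigOperators Classical

variable {G ι : Type*} [AddCommGroup G]

/-- bounded functions of degree at most `n` along the shifts `e h` -/
def Deg (e : ι → G) : ℕ → (G → ℝ) → Prop
  | 0, f => (∀ x, |f x| ≤ 1) ∧ ∀ x h, f (x + e h) = f x
  | n + 1, f => (∀ x, |f x| ≤ 1) ∧ ∀ h h', Deg e n fun x => f (x + e h) * f (x + e h')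

/-- functions which disappear after `s` steps along admissible shifts -/
def Junk (Dir : (ι → G) → Prop) : ℕ → (G → ℝ) → Prop
  | 0, g => ∀ x, g x = 1
  | s + 1, g => ∃ e, Dir e ∧ ∃ g₀ g₁ : G → ℝ, (∀ x, |g₀ x| ≤ 1) ∧ (∀ x, |g₁ x| ≤ 1) ∧
      (∀ x h, g₀ (x + e h) = g₀ x) ∧ (∀ x, g x = g₀ x * g₁ x) ∧
      ∀ h h', Junk Dir s fun x => g₁ (x + e h) * g₁ (x + e h')

theorem abs_mul_le_one' {a b : ℝ} (ha : |a| ≤ 1) (hb : |b| ≤ 1) : |a * b| ≤ 1 := by
  rw [abs_mul]
  exact mul_le_one₀ ha (abs_nonneg _) hb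

theorem deg_of_inv {e : ι → G} (n : ℕ) : ∀ {f : G → ℝ}, (∀ x, |f x| ≤ 1) →
    (∀ x h, f (x + e h) = f x) → Deg e n f := by
  induction n with
  | zero => exact fun h1 h2 => ⟨h1, h2⟩
  | succ n ih =>
    intro f h1 h2
    refine ⟨h1, fun h h' => ih (fun x => abs_mul_le_one' (h1 _) (h1 _)) fun x u => ?_⟩
    simp only [h2]

theorem Junk.abs_le {Dir : (ι → G) → Prop} {s : ℕ} {g : G → ℝ} (h : Junk Dir s g) (x : G) :
    |g x| ≤ 1 := by
  cases s with
  | zero => rw [h x, abs_one]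
  | succ s =>
    obtain ⟨e, -, g₀, g₁, h0, h1, -, h3, -⟩ := h
    rw [h3]
    exact abs_mul_le_one' (h0 x) (h1 x)

theorem Junk.double {Dir : (ι → G) → Prop} (s : ℕ) : ∀ {g : G → ℝ}, Junk Dir s g → ∀ a a' : G,
    Junk Dir s fun x => g (x + a) * g (x + a') := by
  induction s with
  | zero =>
    intro g h a a' x
    simp only [h (x + a), h (x + a'), mul_one]
  | succ s ih =>
    rintro g ⟨e, he, g₀, g₁, h0, h1, h2, h3, h4⟩ a a'
    refine ⟨e, he, fun x => g₀ (x + a) * g₀ (x + a'), fun x => g₁ (x + a) * g₁ (x + a'),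
      fun x => abs_mul_le_one' (h0 _) (h0 _), fun x => abs_mul_le_one' (h1 _) (h1 _),
      fun x h => ?_, fun x => ?_, fun h h' => ?_⟩
    · beta_reduce
      rw [add_right_comm x (e h) a, add_right_comm x (e h) a', h2, h2]
    · simp only [h3]
      ring
    · have h5 := ih (h4 h h') a a'
      have h6 : (fun x => g₁ (x + e h + a) * g₁ (x + e h + a') *
          (g₁ (x + e h' + a) * g₁ (x + e h' + a'))) = fun x => g₁ (x + a + e h) * g₁ (x + a + e h') *
          (g₁ (x + a' + e h) * g₁ (x + a' + e h')) := by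
        funext x
        rw [add_right_comm x (e h) a, add_right_comm x (e h) a', add_right_comm x (e h') a,
          add_right_comm x (e h') a']
        ring
      rw [h6]
      exact h5

theorem Junk.mul_deg {Dir : (ι → G) → Prop} {e : ι → G} (he : Dir e) {s : ℕ} (n : ℕ) :
    ∀ {f g : G → ℝ}, Deg e n f → Junk Dir s g → Junk Dir (s + n + 1) fun x => f x * g x := by
  induction n with
  | zero =>
    intro f g hf hg
    exact ⟨e, he, f, g, hf.1, hg.abs_le, hf.2, fun _ => rfl, fun h h' => Junk.double s hg _ _⟩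
  | succ n ih =>
    intro f g hf hg
    refine ⟨e, he, fun _ => 1, fun x => f x * g x, fun _ => by rw [abs_one],
      fun x => abs_mul_le_one' (hf.1 x) (hg.abs_le x), fun _ _ => rfl, fun x => (one_mul _).symm,
      fun h h' => ?_⟩
    have h5 := ih (hf.2 h h') (Junk.double s hg (e h) (e h'))
    have h6 : (fun x => f (x + e h) * g (x + e h) * (f (x + e h') * g (x + e h'))) =
        fun x => f (x + e h) * f (x + e h') * (g (x + e h) * g (x + e h')) := by
      funext x
      ring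
    rw [h6]
    exact h5

theorem Junk.prod {Dir : (ι → G) → Prop} {J : Type*} (S : Finset J) (f : J → G → ℝ)
    (hf : ∀ j ∈ S, ∃ e, Dir e ∧ Deg e 2 (f j)) :
    Junk Dir (3 * S.card) fun x => ∏ j ∈ S, f j x := by
  induction S using Finset.induction_on with
  | empty => intro x; simp
  | insert a S ha ih =>
    obtain ⟨e, he, hd⟩ := hf a (mem_insert_self _ _)
    have h := Junk.mul_deg he 2 hd (ih fun j hj => hf j (mem_insert_of_mem hj))
    rw [card_insert_of_notMem ha, show 3 * (S.card + 1) = 3 * S.card + 2 + 1 by ring]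
    simpa only [prod_insert ha] using h

theorem kill [Fintype ι] [Nonempty ι] {Dir : (ι → G) → Prop} (P : Finset G) (hP : P.Nonempty)
    (Main : ℕ → (G → ℝ) → Prop) {θ : ℝ} (hθ : 0 ≤ θ)
    (h1 : ∀ e, Dir e → ∀ (F : G → ℝ) (h : ι), 𝔼 x ∈ P, F (x + e h) = 𝔼 x ∈ P, F x)
    (h2 : ∀ m F, Main m F → ∀ e, Dir e → ∀ h : ι,
      𝔼 h' : ι, (if Main (2 * m) (fun x => F (x + e h) * F (x + e h')) then (0 : ℝ) else 1) ≤ m * θ)
    (h3 : ∀ m F, Main m F → (∀ x, |F x| ≤ 1) ∧ (𝔼 x ∈ P, F x) ^ 2 ≤ m * θ) (s : ℕ) :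
    ∀ (m : ℕ) (F g : G → ℝ), Main m F → Junk Dir s g →
      (𝔼 x ∈ P, F x * g x) ^ 2 ^ (s + 1) ≤ 3 ^ s * (m * θ) := by
  induction s with
  | zero =>
    intro m F g hF hg
    have : ∀ x, g x = 1 := hg
    simpa only [this, mul_one, zero_add, pow_one, pow_zero, one_mul] using (h3 m F hF).2
  | succ s ih =>
    rintro m F g hF ⟨e, he, g₀, g₁, h0, hg1, hi, hg, hj⟩
    set Z : G → ι → ℝ := fun x h => F (x + e h) * g₁ (x + e h) with hZ
    have a1 : 𝔼 x ∈ P, F x * g x = 𝔼 x ∈ P, g₀ x * 𝔼 h, Z x h := by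
      have b1 : ∀ h : ι, 𝔼 x ∈ P, F x * g x = 𝔼 x ∈ P, g₀ x * Z x h := by
        intro h
        rw [← h1 e he (fun x => F x * g x) h]
        refine Finset.expect_congr rfl fun x _ => ?_
        rw [hg, hi, hZ]
        ring
      calc 𝔼 x ∈ P, F x * g x = 𝔼 _h : ι, 𝔼 x ∈ P, F x * g x :=
            (Finset.expect_const Finset.univ_nonempty _).symm
        _ = 𝔼 h : ι, 𝔼 x ∈ P, g₀ x * Z x h := Finset.expect_congr rfl fun h _ => b1 h
        _ = 𝔼 x ∈ P, g₀ x * 𝔼 h, Z x h := by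
            rw [Finset.expect_comm]
            exact Finset.expect_congr rfl fun x _ => (Finset.mul_expect _ _ _).symm
    set B : ι × ι → ℝ := fun w => 𝔼 x ∈ P, Z x w.1 * Z x w.2 with hB
    have a2 : (𝔼 x ∈ P, F x * g x) ^ 2 ≤ 𝔼 w : ι × ι, B w := by
      rw [a1]
      refine (sq_expect_le P _).trans ?_
      rw [hB, Finset.expect_comm]
      refine Finset.expect_le_expect fun x _ => ?_
      have b1 : 𝔼 w : ι × ι, Z x w.1 * Z x w.2 = (𝔼 h, Z x h) ^ 2 := by
        rw [sq, Finset.expect_mul_expect, ← Finset.expect_product', Finset.univ_product_univ]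
      rw [b1, mul_pow]
      have b2 : g₀ x ^ 2 ≤ 1 := by
        rw [← sq_abs]
        exact pow_le_one₀ (abs_nonneg _) (h0 x)
      exact mul_le_of_le_one_left (sq_nonneg _) b2
    have a3 : ∀ w : ι × ι, B w ^ 2 ^ (s + 1) ≤
        (if Main (2 * m) (fun x => F (x + e w.1) * F (x + e w.2)) then (0 : ℝ) else 1) +
          3 ^ s * ((2 * m : ℕ) * θ) := by
      intro w
      have b0 : (0 : ℝ) ≤ 3 ^ s * ((2 * m : ℕ) * θ) := by positivity
      split_ifs with hm
      · have b1 := ih (2 * m) _ _ hm (hj w.1 w.2)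
        have b2 : B w = 𝔼 x ∈ P, F (x + e w.1) * F (x + e w.2) *
            (g₁ (x + e w.1) * g₁ (x + e w.2)) := by
          refine Finset.expect_congr rfl fun x _ => ?_
          rw [hZ]
          ring
        rw [b2, zero_add]
        exact b1
      · have b1 : |B w| ≤ 1 := by
          refine (Finset.abs_expect_le _ _).trans ?_
          refine (Finset.expect_le_expect (g := fun _ => (1 : ℝ)) fun x _ => ?_).trans
            (Finset.expect_const hP _).le
          exact abs_mul_le_one' (abs_mul_le_one' ((h3 m F hF).1 _) (hg1 _))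
            (abs_mul_le_one' ((h3 m F hF).1 _) (hg1 _))
        have b2 : B w ^ 2 ^ (s + 1) ≤ 1 :=
          (le_abs_self _).trans (by rw [abs_pow]; exact pow_le_one₀ (abs_nonneg _) b1)
        linarith
    have a4 : 𝔼 w : ι × ι,
        (if Main (2 * m) (fun x => F (x + e w.1) * F (x + e w.2)) then (0 : ℝ) else 1) ≤ m * θ := by
      rw [← Finset.univ_product_univ, Finset.expect_product]
      exact (Finset.expect_le_expect fun h _ => h2 m F hF e he h).trans
        (Finset.expect_const Finset.univ_nonempty _).le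
    calc (𝔼 x ∈ P, F x * g x) ^ 2 ^ (s + 1 + 1)
        = ((𝔼 x ∈ P, F x * g x) ^ 2) ^ 2 ^ (s + 1) := by rw [← pow_mul, pow_succ' 2 (s + 1)]
      _ ≤ (𝔼 w : ι × ι, B w) ^ 2 ^ (s + 1) := pow_le_pow_left₀ (sq_nonneg _) a2 _
      _ ≤ 𝔼 w : ι × ι, B w ^ 2 ^ (s + 1) := expect_pow_two_pow_le _ _ _
      _ ≤ m * θ + 3 ^ s * ((2 * m : ℕ) * θ) := by
          refine (Finset.expect_le_expect fun w _ => a3 w).trans ?_
          rw [Finset.expect_add_distrib, Finset.expect_const Finset.univ_nonempty]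
          linarith
      _ ≤ 3 ^ (s + 1) * (m * θ) := by
          have b1 : (1 : ℝ) ≤ 3 ^ s := one_le_pow₀ (by norm_num)
          have b2 : (0 : ℝ) ≤ m * θ := by positivity
          push_cast
          rw [pow_succ]
          nlinarith

end Pool.Agent.P.MP_a9a441_nt
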