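import Pool.Agent.P.MP_a9a441_nt.Cubic
import Pool.Agent.P.MP_a9a441_nt.BoxMu

/-! Products of local factors modulo one prime with an isolated pole. -/

namespace Pool.Agent.P.MP_a9a441_nt

open Polynomial Finset Pool.Agent.P.MP_a1177c_nt.HL
open scoped BigOperators Classical

variable {K : Type*} [Field K] [Fintype K] [CharP K 2]

/-- products of at most `m` local factors modulo `π`, one pole being different from the others -/
def MainP (π : K[X]) (m : ℕ) (F : K[X] → ℝ) : Prop :=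
  ∃ (J : Type) (_ : Fintype J) (s α U d : J → K[X]) (j₀ : J), Fintype.card J ≤ m ∧
    (∀ j, ¬ π ∣ s j ∧ ¬ π ∣ α j) ∧ (∀ j, j ≠ j₀ → ¬ π ∣ α j₀ * U j + α j * U j₀) ∧
    ∀ x, F x = ∏ j, kf π (s j) (α j) (U j) (d j) x

/-- admissible shifts -/
def DirP (π : K[X]) (N l : ℕ) (e : Pl K l → K[X]) : Prop :=
  ∃ γ : K[X], ¬ π ∣ γ ∧ γ.natDegree + 2 * l ≤ N ∧ ∀ h, e h = γ * (h : K[X]) ^ 2

omit [CharP K 2] in
theorem expect_Pl_shift {n : ℕ} {w : K[X]} (hw : w ∈ Pl K n) (F : K[X] → ℝ) :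
    𝔼 v ∈ Pl K n, F (v + w) = 𝔼 v ∈ Pl K n, F v := by
  rw [Finset.expect_eq_sum_div_card, Finset.expect_eq_sum_div_card, sum_Pl_shift hw]

omit [CharP K 2] in
theorem mul_mem_Pl {γ h : K[X]} {l N : ℕ} (hh : h ∈ Pl K l) (hN : γ.natDegree + l ≤ N) :
    γ * h ∈ Pl K N := by
  by_cases h0 : γ * h = 0
  · rw [h0]; exact zero_mem_Pl N
  have h1 := right_ne_zero_of_mul h0
  rw [mem_Pl, ← natDegree_lt_iff_degree_lt h1] at hh
  rw [mem_Pl, ← natDegree_lt_iff_degree_lt h0]
  have := natDegree_mul_le (p := γ) (q := h)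
  omega

omit [CharP K 2] in
theorem sq_mem_Pl {h : K[X]} {l : ℕ} (hh : h ∈ Pl K l) : h ^ 2 ∈ Pl K (2 * l) := by
  by_cases h0 : h = 0
  · rw [h0, zero_pow two_ne_zero]; exact zero_mem_Pl _
  rw [mem_Pl, ← natDegree_lt_iff_degree_lt h0] at hh
  rw [mem_Pl, ← natDegree_lt_iff_degree_lt (pow_ne_zero 2 h0), natDegree_pow]
  omega

omit [CharP K 2] in
theorem dirP_shift {π : K[X]} {N l : ℕ} (e : Pl K l → K[X]) (he : DirP π N l e) (F : K[X] → ℝ)
    (h : Pl K l) : 𝔼 x ∈ Pl K N, F (x + e h) = 𝔼 x ∈ Pl K N, F x := by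
  obtain ⟨γ, -, h1, h2⟩ := he
  rw [h2]
  exact expect_Pl_shift (mul_mem_Pl (sq_mem_Pl h.2) h1) F

theorem mainP_double {π : K[X]} (hπ : Irreducible π) {N l : ℕ} (hl : l ≤ π.natDegree) (m : ℕ)
    (F : K[X] → ℝ) (hF : MainP π m F) (e : Pl K l → K[X]) (he : DirP π N l e) (h : Pl K l) :
    𝔼 h' : Pl K l, (if MainP π (2 * m) (fun x => F (x + e h) * F (x + e h')) then (0 : ℝ) else 1) ≤
      m * (10 / (Fintype.card K : ℝ) ^ l) := by
  have h2 : (2 : K[X]) = 0 := two_eq_zero_poly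
  obtain ⟨J, _, s, α, U, d, j₀, hc, hu, hp, hF⟩ := hF
  obtain ⟨γ, hγ, -, he⟩ := he
  set B : J → Finset (Pl K l) := fun j => univ.filter fun h' =>
    π ∣ α j₀ * (U j + α j * e h') + α j * (U j₀ + α j₀ * e h) with hB
  have hB1 : ∀ j, (B j).card ≤ 1 := by
    intro j
    refine Finset.card_le_one.2 fun a ha b hb => ?_
    have h3 := dvd_sub (mem_filter.1 ha).2 (mem_filter.1 hb).2
    have e1 : α j₀ * (U j + α j * e a) + α j * (U j₀ + α j₀ * e h) -
        (α j₀ * (U j + α j * e b) + α j * (U j₀ + α j₀ * e h)) =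
        α j₀ * (α j * (γ * ((a : K[X]) - b) ^ 2)) := by
      rw [he a, he b]
      linear_combination (α j₀ * α j * γ * ((a : K[X]) * b - (b : K[X]) ^ 2)) * h2
    rw [e1] at h3
    have h4 : π ∣ (a : K[X]) - b := hπ.prime.dvd_of_dvd_pow
      ((hπ.prime.dvd_or_dvd ((hπ.prime.dvd_or_dvd ((hπ.prime.dvd_or_dvd h3).resolve_left
        (hu j₀).2)).resolve_left (hu j).2)).resolve_left hγ)
    have ha' := mem_Pl.1 (Pl_mono hl a.2)
    have hb' := mem_Pl.1 (Pl_mono hl b.2)
    rw [← degree_eq_natDegree hπ.ne_zero] at ha' hb'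
    exact Subtype.ext (sub_eq_zero.mp (eq_zero_of_dvd_of_degree_lt h4
      (lt_of_le_of_lt (degree_sub_le _ _) (max_lt ha' hb'))))
  have hgood : ∀ h' : Pl K l, h' ∉ univ.biUnion B →
      MainP π (2 * m) (fun x => F (x + e h) * F (x + e h')) := by
    intro h' hh'
    refine ⟨J ⊕ J, inferInstance, Sum.elim s s, Sum.elim α α,
      Sum.elim (fun j => U j + α j * e h) (fun j => U j + α j * e h'), Sum.elim d d, Sum.inl j₀,
      by rw [Fintype.card_sum]; omega, ?_, ?_, fun x => ?_⟩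
    · rintro (j | j) <;> exact hu j
    · rintro (j | j) hj
      · have h3 := hp j fun h4 => hj (by rw [h4])
        simp only [Sum.elim_inl]
        rwa [show α j₀ * (U j + α j * e h) + α j * (U j₀ + α j₀ * e h) =
          α j₀ * U j + α j * U j₀ by linear_combination (α j₀ * α j * e h) * h2]
      · simp only [Sum.elim_inl, Sum.elim_inr]
        exact fun h3 => hh' (mem_biUnion.2 ⟨j, mem_univ _, mem_filter.2 ⟨mem_univ _, h3⟩⟩)
    · simp only [Fintype.prod_sum_type, Sum.elim_inl, Sum.elim_inr, hF, kf_add]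
  have hq : (0 : ℝ) < (Fintype.card K : ℝ) ^ l := by
    have : (0 : ℝ) < Fintype.card K := by exact_mod_cast Fintype.card_pos
    positivity
  rw [Fintype.expect_eq_sum_div_card, Fintype.card_coe, card_Pl, ← mul_div_assoc]
  push_cast
  refine div_le_div_of_nonneg_right ?_ hq.le
  simp only [← ite_not (MainP _ _ _)]
  rw [Finset.sum_boole]
  have h5 : (univ.filter fun h' : Pl K l =>
      ¬ MainP π (2 * m) (fun x => F (x + e h) * F (x + e h'))).card ≤ m := by
    refine (card_le_card (t := univ.biUnion B) fun h' hh' => ?_).trans ?_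
    · by_contra h6
      exact (mem_filter.1 hh').2 (hgood h' h6)
    · refine card_biUnion_le.trans ((sum_le_sum fun j _ => hB1 j).trans ?_)
      rw [sum_const, card_univ, smul_eq_mul, mul_one]
      exact hc
  have h6 : (0 : ℝ) ≤ m := Nat.cast_nonneg _
  refine le_trans (by exact_mod_cast h5 : _ ≤ (m : ℝ)) (by linarith)

theorem chi_sum {J : Type*} (S : Finset J) (p : K[X]) (g : J → K[X]) :
    ∏ j ∈ S, chi p (g j) = chi p (∑ j ∈ S, g j) := by
  induction S using Finset.induction_on with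
  | empty =>
    have h := chi_add p 0 0
    have h1 := abs_chi p (0 : K[X])
    rw [add_zero] at h
    rw [prod_empty, sum_empty]
    have h2 : chi p 0 ≠ 0 := fun h3 => by rw [h3, abs_zero] at h1; exact zero_ne_one h1
    exact mul_left_cancel₀ h2 (by rw [← h, mul_one])
  | insert a S ha ih => rw [prod_insert ha, sum_insert ha, chi_add, ih]

omit [CharP K 2] in
theorem expect_dvd_eval {π : K[X]} (hm : π.Monic) (hπ : Irreducible π) (F : K[X][X]) {β₀ : K[X]}
    (h0 : ¬ π ∣ F.eval β₀) {N : ℕ} (hN : π.natDegree ≤ N) :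
    𝔼 x ∈ Pl K N, (if π ∣ F.eval x then (1 : ℝ) else 0) ≤
      F.natDegree / (Fintype.card K : ℝ) ^ π.natDegree := by
  obtain ⟨j, rfl⟩ := Nat.exists_eq_add_of_le hN
  have hq : (0 : ℝ) < Fintype.card K := by exact_mod_cast Fintype.card_pos
  have h1 : ∀ b u : K[X], π ∣ F.eval (b + π * u) ↔ π ∣ F.eval b := by
    intro b u
    have h2 : π ∣ F.eval (b + π * u) - F.eval b :=
      (show π ∣ b + π * u - b from ⟨u, by ring⟩).trans (sub_dvd_eval_sub _ _ F)
    exact (dvd_iff_dvd_of_dvd_sub h2)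
  rw [Finset.expect_eq_sum_div_card, card_Pl, sum_Pl_divmod hm]
  simp only [h1, sum_const, card_Pl, nsmul_eq_mul]
  rw [← Finset.mul_sum, Finset.sum_boole]
  push_cast
  rw [pow_add, div_le_div_iff₀ (by positivity) (by positivity)]
  have h3 : (((Pl K π.natDegree).filter fun b => π ∣ F.eval b).card : ℝ) ≤ F.natDegree := by
    exact_mod_cast roots_prime hπ F h0
  calc _ = (((Pl K π.natDegree).filter fun b => π ∣ F.eval b).card : ℝ) *
        ((Fintype.card K : ℝ) ^ π.natDegree * (Fintype.card K : ℝ) ^ j) := by ring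
    _ ≤ _ := mul_le_mul_of_nonneg_right h3 (by positivity)

theorem mainP_base {π : K[X]} (hm : π.Monic) (hπ : Irreducible π) {N l : ℕ} (hl : l ≤ π.natDegree)
    (hN : 2 * π.natDegree ≤ N) (m : ℕ) (F : K[X] → ℝ) (hF : MainP π m F) :
    (∀ x, |F x| ≤ 1) ∧ (𝔼 x ∈ Pl K N, F x) ^ 2 ≤ m * (10 / (Fintype.card K : ℝ) ^ l) := by
  have h2 : (2 : K[X]) = 0 := two_eq_zero_poly
  obtain ⟨J, _, s, α, U, d, j₀, hc, hu, hp, hF⟩ := hF
  have hb : ∀ x, |F x| ≤ 1 := fun x => by
    rw [hF, Finset.abs_prod]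
    exact Finset.prod_le_one (fun _ _ => abs_nonneg _) fun _ _ => abs_kf_le _ _ _ _ _ _
  refine ⟨hb, ?_⟩
  have hq1 : (1 : ℝ) ≤ Fintype.card K := by exact_mod_cast Fintype.card_pos
  set Q : ℝ := (Fintype.card K : ℝ) ^ π.natDegree with hQ
  have hQ0 : 0 < Q := by positivity
  have hne : (Pl K π.natDegree).Nonempty := ⟨0, zero_mem_Pl _⟩
  have hsep : ¬ π ∣ derivative π := hπ.coprime_iff_not_dvd.1
    (PerfectField.separable_iff_squarefree.2 hπ.squarefree)
  set β : J → K[X] := fun j => (α j * derivative π) ^ 2 with hβ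
  have hβu : ∀ j, ¬ π ∣ s j * β j ^ 3 := fun j h => by
    rcases hπ.prime.dvd_or_dvd h with h | h
    · exact (hu j).1 h
    · rcases hπ.prime.dvd_or_dvd (hπ.prime.dvd_of_dvd_pow (hπ.prime.dvd_of_dvd_pow h)) with h | h
      · exact (hu j).2 h
      · exact hsep h
  set Np : K[X][X] := ∑ j, C (s j * β j ^ 3) * ∏ i ∈ univ.erase j, (C (α i) * X + C (U i)) ^ 2
    with hNp
  have hev : ∀ x, Np.eval x = ∑ j, s j * β j ^ 3 * ∏ i ∈ univ.erase j, (α i * x + U i) ^ 2 := by
    intro x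
    simp only [hNp, eval_finset_sum, eval_mul, eval_C, eval_prod, eval_pow, eval_add, eval_X]
  have hdeg : Np.natDegree ≤ 2 * m := by
    refine natDegree_sum_le_of_forall_le _ _ fun j _ => (natDegree_C_mul_le _ _).trans ?_
    refine (natDegree_prod_le _ _).trans ?_
    refine (sum_le_card_nsmul _ _ 2 fun i _ => by compute_degree).trans ?_
    have := card_erase_le (s := (univ : Finset J)) (a := j)
    rw [card_univ] at this
    rw [smul_eq_mul]
    omega
  obtain ⟨a₀, b₀, hab⟩ := (hπ.coprime_iff_not_dvd.2 (hu j₀).2).symm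
  have hN0 : ¬ π ∣ Np.eval (a₀ * U j₀) := by
    have h3 : π ∣ α j₀ * (a₀ * U j₀) + U j₀ :=
      ⟨-(b₀ * U j₀), by linear_combination (U j₀) * hab + U j₀ * h2⟩
    rw [hev, ← Finset.add_sum_erase _ _ (mem_univ j₀)]
    intro h4
    have h5 : π ∣ ∑ j ∈ univ.erase j₀,
        s j * β j ^ 3 * ∏ i ∈ univ.erase j, (α i * (a₀ * U j₀) + U i) ^ 2 :=
      dvd_sum fun j hj => ((h3.trans (dvd_pow_self _ two_ne_zero)).trans
        (dvd_prod_of_mem (fun i => (α i * (a₀ * U j₀) + U i) ^ 2)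
          (mem_erase.2 ⟨(mem_erase.1 hj).1.symm, mem_univ _⟩))).mul_left _
    rcases hπ.prime.dvd_or_dvd ((dvd_add_left h5).1 h4) with h6 | h6
    · exact hβu j₀ h6
    · obtain ⟨i, hi, h7⟩ := (hπ.prime.dvd_finset_prod_iff _).1 h6
      refine hp i (mem_erase.1 hi).1 ?_
      have h8 := dvd_sub ((hπ.prime.dvd_of_dvd_pow h7).mul_left (α j₀)) (h3.mul_left (α i))
      rwa [show α j₀ * (α i * (a₀ * U j₀) + U i) - α i * (α j₀ * (a₀ * U j₀) + U j₀) =
        α j₀ * U i + α i * U j₀ by linear_combination (-(α i * U j₀)) * h2] at h8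
  have a1 : 𝔼 x ∈ Pl K N, F x = 𝔼 x ∈ Pl K N, 𝔼 r ∈ Pl K π.natDegree, F (x + π * r) := by
    rw [Finset.expect_comm, ← Finset.expect_const hne (𝔼 x ∈ Pl K N, F x)]
    exact Finset.expect_congr rfl fun r hr =>
      (expect_Pl_shift (mul_mem_Pl hr (by omega)) F).symm
  have a2 : ∀ x, (𝔼 r ∈ Pl K π.natDegree, F (x + π * r)) ^ 2 ≤
      (if π ∣ Np.eval x then (1 : ℝ) else 0) + 8 / Q := by
    intro x
    have b0 : (0 : ℝ) ≤ 8 / Q := by positivity
    split_ifs with hx
    · have b1 : |𝔼 r ∈ Pl K π.natDegree, F (x + π * r)| ≤ 1 :=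
        (Finset.abs_expect_le _ _).trans ((Finset.expect_le_expect (g := fun _ => (1 : ℝ))
          fun r _ => hb _).trans (Finset.expect_const hne _).le)
      have b2 : (𝔼 r ∈ Pl K π.natDegree, F (x + π * r)) ^ 2 ≤ 1 := by
        rw [← sq_abs]
        exact pow_le_one₀ (abs_nonneg _) b1
      linarith
    rw [zero_add]
    by_cases hz : ∀ j, IsCoprime (α j * x + U j) π
    · choose w b hwb using hz
      have hw : ∀ j, π ∣ (α j * x + U j) * w j - 1 := fun j => ⟨-b j, by linear_combination hwb j⟩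
      simp only [hF, kf_shift_unit (hw _), chi_sum]
      refine weyl_cubic hm hπ (fun r => ∑ j, s j * w j ^ 2 *
          (derivative (α j * x + U j) ^ 2 + d j + (α j * derivative π) ^ 2 * r ^ 2) ^ 3)
        (fun ρ => ∑ j, s j * w j ^ 2 *
          ((derivative (α j * x + U j) ^ 2 + d j) ^ 2 * (β j * ρ ^ 2) +
          (derivative (α j * x + U j) ^ 2 + d j) * (β j * ρ ^ 2) ^ 2 + (β j * ρ ^ 2) ^ 3))
        (A := ∑ j, s j * w j ^ 2 * β j ^ 3) (fun h => hx ?_) fun r ρ => ?_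
      · have b3 : π ∣ (∑ j, s j * w j ^ 2 * β j ^ 3) * ∏ i, (α i * x + U i) ^ 2 - Np.eval x := by
          rw [hev, Finset.sum_mul, ← Finset.sum_sub_distrib]
          refine dvd_sum fun j _ => ?_
          rw [← Finset.mul_prod_erase _ _ (mem_univ j)]
          have b4 := ((hw j).trans (sub_dvd_pow_sub_pow _ 1 2)).mul_left
            (s j * β j ^ 3 * ∏ i ∈ univ.erase j, (α i * x + U i) ^ 2)
          rwa [show s j * w j ^ 2 * β j ^ 3 * ((α j * x + U j) ^ 2 *
              ∏ i ∈ univ.erase j, (α i * x + U i) ^ 2) -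
              s j * β j ^ 3 * ∏ i ∈ univ.erase j, (α i * x + U i) ^ 2 =
            (s j * β j ^ 3 * ∏ i ∈ univ.erase j, (α i * x + U i) ^ 2) *
              (((α j * x + U j) * w j) ^ 2 - 1 ^ 2) by ring]
        have b5 := dvd_sub (h.mul_right (∏ i, (α i * x + U i) ^ 2)) b3
        rwa [sub_sub_cancel] at b5
      · rw [Finset.sum_mul, ← Finset.sum_add_distrib, ← Finset.sum_add_distrib]
        refine Finset.sum_congr rfl fun j _ => ?_
        have b6 : (α j * derivative π) ^ 2 * (ρ + r) ^ 2 = β j * r ^ 2 + β j * ρ ^ 2 := by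
          rw [hβ]
          linear_combination ((α j * derivative π) ^ 2 * ρ * r) * h2
        rw [b6, show (α j * derivative π) ^ 2 = β j from rfl]
        generalize derivative (α j * x + U j) ^ 2 + d j = D
        generalize s j * w j ^ 2 = A
        linear_combination (A * ((D + β j * r ^ 2) ^ 3 + (D + β j * r ^ 2) ^ 2 * (β j * ρ ^ 2) +
          (D + β j * r ^ 2) * (β j * ρ ^ 2) ^ 2 + D * (β j * r ^ 2) * (β j * ρ ^ 2))) * h2
    · obtain ⟨j, hj⟩ := not_forall.1 hz
      have b1 : ∀ r, F (x + π * r) = 0 := fun r => by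
        rw [hF]
        exact Finset.prod_eq_zero (mem_univ j) (kf_shift_zero hj r)
      simp only [b1, Finset.expect_const_zero]
      simpa using b0
  have a3 := expect_dvd_eval hm hπ Np hN0 (N := N) (by omega)
  have hm1 : (1 : ℝ) ≤ m := by
    have : 0 < Fintype.card J := Fintype.card_pos_iff.2 ⟨j₀⟩
    exact_mod_cast (by omega : 1 ≤ m)
  have hdeg' : (Np.natDegree : ℝ) ≤ 2 * m := by exact_mod_cast hdeg
  rw [a1]
  refine (sq_expect_le _ _).trans ((Finset.expect_le_expect fun x _ => a2 x).trans ?_)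
  rw [Finset.expect_add_distrib, Finset.expect_const ⟨0, zero_mem_Pl N⟩]
  calc _ ≤ Np.natDegree / Q + 8 / Q := by linarith
    _ ≤ m * 10 / Q := by
        rw [← add_div]
        exact div_le_div_of_nonneg_right (by linarith) hQ0.le
    _ ≤ m * (10 / (Fintype.card K : ℝ) ^ l) := by
        rw [← mul_div_assoc]
        exact div_le_div_of_nonneg_left (by positivity) (by positivity)
          (pow_le_pow_right₀ hq1 hl)

theorem kill_prime {π : K[X]} (hm : π.Monic) (hπ : Irreducible π) {N l : ℕ} (hl : l ≤ π.natDegree)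
    (hN : 2 * π.natDegree ≤ N) {m s : ℕ} {F g : K[X] → ℝ} (hF : MainP π m F)
    (hg : Junk (DirP π N l) s g) :
    (𝔼 x ∈ Pl K N, F x * g x) ^ 2 ^ (s + 1) ≤ 3 ^ s * (m * (10 / (Fintype.card K : ℝ) ^ l)) :=
  kill (Pl K N) ⟨0, zero_mem_Pl N⟩ (MainP π) (by positivity) dirP_shift
    (fun m F hF e he h => mainP_double hπ hl m F hF e he h)
    (fun m F hF => mainP_base hm hπ hl hN m F hF) s m F g hF hg

end Pool.Agent.P.MP_a9a441_nt
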