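import Pool.Agent.P.MP_a1177c_nt.HL.Moment

/-! Sixteenth moment of products of Kloosterman fractions with several poles. -/

namespace Pool.Agent.P.MP_a9a441_nt

open Polynomial Finset Pool.Agent.P.MP_a1177c_nt.HL
open scoped Classical

variable {K : Type*} [Field K] [Fintype K] [CharP K 2]

/-- numerator of the sum of `1 / (Y + c i) ^ 2` -/
noncomputable def momG {ι : Type*} [Fintype ι] (c : ι → K[X]) : K[X][X] :=
  ∑ i, ∏ j ∈ univ.erase i, (X + C (c j)) ^ 2

/-- the product of the differences of poles -/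
noncomputable def zz (T : Finset K[X]) (s₀ y₁ w : K[X]) : K[X] := ∏ s ∈ T, (s + s₀ + y₁ * w)

omit [Fintype K] [CharP K 2] in
theorem momG_natDegree {ι : Type*} [Fintype ι] (c : ι → K[X]) :
    (momG c).natDegree ≤ 2 * Fintype.card ι := by
  refine natDegree_sum_le_of_forall_le _ _ (fun i _ => ?_)
  refine (natDegree_prod_le _ _).trans ?_
  calc ∑ j ∈ univ.erase i, ((X + C (c j) : K[X][X]) ^ 2).natDegree
      ≤ ∑ _j ∈ univ.erase i, 2 := Finset.sum_le_sum (fun j _ => by
        refine natDegree_pow_le.trans ?_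
        rw [natDegree_X_add_C])
    _ ≤ ∑ _j : ι, 2 := Finset.sum_le_sum_of_subset (Finset.erase_subset _ _)
    _ = 2 * Fintype.card ι := by simp [mul_comm]

omit [Fintype K] [CharP K 2] in
theorem momG_eval {ι : Type*} [Fintype ι] (c : ι → K[X]) (β : K[X]) :
    (momG c).eval β = ∑ i, ∏ j ∈ univ.erase i, (β + c j) ^ 2 := by
  simp [momG, eval_finsetSum, eval_prod]

theorem momG_eval_self {ι : Type*} [Fintype ι] (c : ι → K[X]) (i : ι) :
    (momG c).eval (c i) = ∏ j ∈ univ.erase i, (c i + c j) ^ 2 := by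
  have h2 : (2 : K[X]) = 0 := two_eq_zero_poly
  rw [momG_eval, Finset.sum_eq_single i]
  · intro i' _ hi'
    refine Finset.prod_eq_zero (i := i) (Finset.mem_erase.2 ⟨hi'.symm, Finset.mem_univ _⟩) ?_
    have : c i + c i = 0 := by linear_combination (c i) * h2
    rw [this]; ring
  · intro h; exact absurd (Finset.mem_univ i) h

theorem mom_count {p : K[X]} (hp : p.Monic) (hsq : Squarefree p) {T : Finset K[X]} {s₀ : K[X]}
    (hs₀ : s₀ ∈ T) (hT : ∀ s ∈ T, s ≠ s₀ → IsCoprime (s + s₀) p) (y₁ : K[X])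
    (v : Fin 16 → K[X]) (i : Fin 16) :
    (((Pl K p.natDegree).filter fun β => p ∣ (momG fun a : Fin 16 × T =>
        (a.2 : K[X]) ^ 2 + (y₁ * v a.1) ^ 2).eval β).card : ℝ) ≤
      (32 * T.card) ^ (pf p).card * ∏ j ∈ univ.erase i, momWt p (zz T s₀ y₁ (v j + v i)) := by
  have h2 : (2 : K[X]) = 0 := two_eq_zero_poly
  have hTc : 1 ≤ T.card := Finset.card_pos.2 ⟨s₀, hs₀⟩
  set c : Fin 16 × T → K[X] := fun a => (a.2 : K[X]) ^ 2 + (y₁ * v a.1) ^ 2 with hc
  have hdeg : (momG c).natDegree ≤ 32 * T.card := by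
    refine (momG_natDegree c).trans (le_of_eq ?_)
    simp only [Fintype.card_prod, Fintype.card_fin, Fintype.card_coe]
    ring
  have h := card_roots_le hp hsq (momG c) (D := 32 * T.card) (by omega) hdeg
    (∏ j ∈ univ.erase i, zz T s₀ y₁ (v j + v i)) (by
      intro π hπ hnd
      by_contra hcon
      push Not at hcon
      obtain ⟨-, hirr, hπp⟩ := (mem_pf hp.ne_zero).1 hπ
      have h1 : C π ∣ momG c := (C_dvd_iff_dvd_coeff π _).2 hcon
      have h3 := eval_dvd (x := c (i, ⟨s₀, hs₀⟩)) h1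
      rw [eval_C, momG_eval_self] at h3
      obtain ⟨⟨j, s⟩, hj, hd⟩ := hirr.prime.exists_mem_finset_dvd h3
      have e : c (i, ⟨s₀, hs₀⟩) + c (j, s) = ((s : K[X]) + s₀ + y₁ * (v j + v i)) ^ 2 := by
        simp only [hc]
        linear_combination (-((s : K[X]) * s₀ + (s + s₀) * y₁ * (v j + v i)
          + y₁ ^ 2 * v j * v i)) * h2
      rw [e] at hd
      have hd' := hirr.prime.dvd_of_dvd_pow (hirr.prime.dvd_of_dvd_pow hd)
      by_cases hji : j = i
      · subst hji
        have hs : (s : K[X]) ≠ s₀ := by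
          intro hs
          exact ((@Finset.mem_erase _ (_) _ _ _).1 hj).1 (Prod.ext rfl (Subtype.ext hs))
        have e2 : (s : K[X]) + s₀ + y₁ * (v j + v j) = s + s₀ := by
          linear_combination (y₁ * v j) * h2
        rw [e2] at hd'
        exact hirr.not_isUnit ((hT s s.2 hs).isUnit_of_dvd' hd' hπp)
      · refine hnd (hd'.trans (dvd_trans ?_
          (Finset.dvd_prod_of_mem _ (Finset.mem_erase.2 ⟨hji, Finset.mem_univ j⟩))))
        exact Finset.dvd_prod_of_mem (fun s => s + s₀ + y₁ * (v j + v i)) s.2)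
  refine h.trans ?_
  push_cast
  exact mul_le_mul_of_nonneg_left (momWt_prod_le hp.ne_zero _ _) (by positivity)

omit [CharP K 2] in
theorem mom_card_A16 (l : ℕ) :
    ((Fintype.piFinset fun _ : Fin 16 => Pl K l).filter
      fun v => ∀ i, ∃ j, j ≠ i ∧ v j = v i).card ≤ 8 ^ 16 * Fintype.card K ^ (8 * l) := by
  have hsub : ((Fintype.piFinset fun _ : Fin 16 => Pl K l).filter
      fun v => ∀ i, ∃ j, j ≠ i ∧ v j = v i) ⊆
      ((univ : Finset (Fin 16 → Fin 8)) ×ˢ (Fintype.piFinset fun _ : Fin 8 => Pl K l)).image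
        (fun z => z.2 ∘ z.1) := by
    intro v hv
    obtain ⟨hv1, hv2⟩ := Finset.mem_filter.1 hv
    have hc : 2 * ((univ : Finset (Fin 16)).image v).card ≤ (univ : Finset (Fin 16)).card := by
      refine Finset.mul_card_image_le_card _ 2 (fun b hb => ?_)
      obtain ⟨i, -, rfl⟩ := Finset.mem_image.1 hb
      obtain ⟨j, hj, hji⟩ := hv2 i
      rw [← Finset.card_pair hj]
      refine Finset.card_le_card (fun x hx => ?_)
      rcases Finset.mem_insert.1 hx with rfl | hx
      · simp [hji]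
      · rw [Finset.mem_singleton.1 hx]; simp
    have hc' : Fintype.card ((univ : Finset (Fin 16)).image v) ≤ Fintype.card (Fin 8) := by
      rw [Fintype.card_coe, Fintype.card_fin]
      rw [Finset.card_univ, Fintype.card_fin] at hc
      omega
    obtain ⟨e⟩ := Function.Embedding.nonempty_of_card_le hc'
    have hne : Nonempty ((univ : Finset (Fin 16)).image v) :=
      ⟨⟨v 0, Finset.mem_image_of_mem _ (Finset.mem_univ _)⟩⟩
    refine Finset.mem_image.2 ⟨(fun i => e ⟨v i, Finset.mem_image_of_mem _ (Finset.mem_univ _)⟩,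
      fun k => (Function.invFun e k).1), ?_, ?_⟩
    · refine Finset.mem_product.2 ⟨Finset.mem_univ _, Fintype.mem_piFinset.2 (fun k => ?_)⟩
      obtain ⟨i, -, hi⟩ := Finset.mem_image.1 (Function.invFun e k).2
      show (Function.invFun e k).1 ∈ Pl K l
      rw [← hi]
      exact Fintype.mem_piFinset.1 hv1 i
    · funext i
      show (Function.invFun e (e _)).1 = v i
      rw [Function.leftInverse_invFun e.injective]
  refine (Finset.card_le_card hsub).trans (Finset.card_image_le.trans (le_of_eq ?_))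
  rw [Finset.card_product, Fintype.card_piFinset, Finset.prod_const, card_Pl, Finset.card_univ,
    Finset.card_univ, Fintype.card_fun, Fintype.card_fin, Fintype.card_fin, ← pow_mul,
    mul_comm l 8]

omit [CharP K 2] in
theorem mom_sum16 (l : ℕ) (W : K[X] → ℝ) (hW0 : ∀ h, 0 ≤ W h) (Λ : ℝ)
    (hΛ : ∑ x ∈ Pl K l, W x ≤ Λ) (i : Fin 16) :
    ∑ v ∈ Fintype.piFinset fun _ : Fin 16 => Pl K l, ∏ j ∈ univ.erase i, W (v j + v i) ≤
      (Fintype.card K : ℝ) ^ l * Λ ^ 15 := by
  set T : K[X] → Fin 16 → K[X] → ℝ :=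
    fun w j x => if j = i then (if x = w then 1 else 0) else W (x + w) with hT
  have h1 : ∀ v ∈ Fintype.piFinset fun _ : Fin 16 => Pl K l,
      ∏ j ∈ univ.erase i, W (v j + v i) = ∑ w ∈ Pl K l, ∏ j, T w j (v j) := by
    intro v hv
    rw [Finset.sum_eq_single (v i)]
    · rw [← Finset.mul_prod_erase univ _ (Finset.mem_univ i)]
      simp only [hT, if_true, one_mul]
      refine Finset.prod_congr rfl (fun j hj => ?_)
      rw [if_neg (Finset.mem_erase.1 hj).1]
    · intro w _ hw
      refine Finset.prod_eq_zero (Finset.mem_univ i) ?_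
      simp only [hT, if_true]
      rw [if_neg hw.symm]
    · intro h; exact absurd (Fintype.mem_piFinset.1 hv i) h
  rw [Finset.sum_congr rfl h1, Finset.sum_comm]
  calc ∑ w ∈ Pl K l, ∑ v ∈ Fintype.piFinset fun _ : Fin 16 => Pl K l, ∏ j, T w j (v j)
      ≤ ∑ _w ∈ Pl K l, Λ ^ 15 := by
        refine Finset.sum_le_sum (fun w hw => ?_)
        rw [← Finset.prod_univ_sum, ← Finset.mul_prod_erase univ _ (Finset.mem_univ i)]
        have e1 : ∑ x ∈ Pl K l, T w i x = 1 := by
          simp only [hT, if_true]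
          rw [Finset.sum_ite_eq' (Pl K l) w (fun _ => (1 : ℝ)), if_pos hw]
        rw [e1, one_mul]
        calc ∏ j ∈ univ.erase i, ∑ x ∈ Pl K l, T w j x ≤ ∏ _j ∈ univ.erase i, Λ := by
              refine Finset.prod_le_prod (fun j hj => Finset.sum_nonneg (fun x _ => ?_))
                (fun j hj => ?_)
              · simp only [hT]
                rw [if_neg (Finset.mem_erase.1 hj).1]
                exact hW0 _
              · simp only [hT, if_neg (Finset.mem_erase.1 hj).1]
                rw [sum_Pl_shift hw W]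
                exact hΛ
          _ = _ := by simp
    _ = _ := by rw [Finset.sum_const, card_Pl, nsmul_eq_mul]; push_cast; rfl

theorem moment16 {p : K[X]} (hp : p.Monic) (hsq : Squarefree p) {T : Finset K[X]} {s₀ : K[X]}
    (hs₀ : s₀ ∈ T) (hT : ∀ s ∈ T, s ≠ s₀ → IsCoprime (s + s₀) p) (y₁ : K[X]) (l : ℕ) (Λ : ℝ)
    (hΛ : ∑ w ∈ (Pl K l).erase 0, momWt p (zz T s₀ y₁ w) ≤ Λ) :
    ∑ α ∈ Pl K p.natDegree, ∑ β ∈ Pl K p.natDegree,
      (∑ v ∈ Pl K l, ∏ s ∈ T, kl p α ((β + (s ^ 2 + (y₁ * v) ^ 2)) ^ 2)) ^ 16 ≤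
      (Fintype.card K : ℝ) ^ p.natDegree *
        (8 ^ 16 * (Fintype.card K : ℝ) ^ (p.natDegree + 8 * l) +
          16 * (32 * T.card) ^ (pf p).card * ((Fintype.card K : ℝ) ^ l * Λ ^ 15)) := by
  have h2 : (2 : K[X]) = 0 := two_eq_zero_poly
  set q : ℝ := (Fintype.card K : ℝ) with hq
  have hq0 : 0 ≤ q := Nat.cast_nonneg _
  set P := Fintype.piFinset fun _ : Fin 16 => Pl K l with hP
  set W : K[X] → ℝ := fun w => if w = 0 then 0 else momWt p (zz T s₀ y₁ w) with hW
  have hW0 : ∀ h, 0 ≤ W h := fun h => by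
    simp only [hW]; split_ifs
    · exact le_rfl
    · exact momWt_nonneg _ _
  have hWΛ : ∑ x ∈ Pl K l, W x ≤ Λ := by
    refine le_trans (le_of_eq ?_) hΛ
    rw [← Finset.sum_erase (Pl K l) (a := 0) (f := W) (by simp [hW])]
    refine Finset.sum_congr rfl (fun h hh => ?_)
    simp only [hW]
    rw [if_neg (Finset.mem_erase.1 hh).1]
  set c : (Fin 16 → K[X]) → Fin 16 × T → K[X] :=
    fun v a => (a.2 : K[X]) ^ 2 + (y₁ * v a.1) ^ 2 with hc
  have e1 : ∀ α β : K[X],
      (∑ v ∈ Pl K l, ∏ s ∈ T, kl p α ((β + (s ^ 2 + (y₁ * v) ^ 2)) ^ 2)) ^ 16 =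
      ∑ v ∈ P, ∏ a : Fin 16 × T, kl p α ((β + c v a) ^ 2) := by
    intro α β
    have := Finset.prod_univ_sum (fun _ : Fin 16 => Pl K l)
      (fun _ x => ∏ s ∈ T, kl p α ((β + (s ^ 2 + (y₁ * x) ^ 2)) ^ 2))
    rw [Finset.prod_const, Finset.card_univ, Fintype.card_fin] at this
    rw [this]
    refine Finset.sum_congr rfl fun v _ => ?_
    rw [Fintype.prod_prod_type]
    refine Finset.prod_congr rfl fun j _ => ?_
    rw [← Finset.prod_coe_sort T]
  simp only [e1]
  rw [Finset.sum_comm]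
  simp only [fun β => Finset.sum_comm (s := Pl K p.natDegree) (t := P)
    (f := fun α v => ∏ a : Fin 16 × T, kl p α ((β + c v a) ^ 2))]
  rw [Finset.sum_comm]
  have e2 : ∀ v ∈ P, ∑ β ∈ Pl K p.natDegree, ∑ α ∈ Pl K p.natDegree,
      ∏ a : Fin 16 × T, kl p α ((β + c v a) ^ 2) ≤ q ^ p.natDegree *
        ((if ∀ i, ∃ j, j ≠ i ∧ v j = v i then q ^ p.natDegree else 0) +
          (32 * T.card) ^ (pf p).card * ∑ i, ∏ j ∈ univ.erase i, W (v j + v i)) := by
    intro v _
    have hnn : ∀ i : Fin 16, 0 ≤ ∏ j ∈ univ.erase i, W (v j + v i) := fun i =>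
      Finset.prod_nonneg fun j _ => hW0 _
    have a1 : ∑ β ∈ Pl K p.natDegree, ∑ α ∈ Pl K p.natDegree,
        ∏ a : Fin 16 × T, kl p α ((β + c v a) ^ 2) ≤ q ^ p.natDegree *
          (((Pl K p.natDegree).filter fun β => p ∣ (momG (c v)).eval β).card : ℝ) := by
      rw [Finset.card_filter]
      push_cast
      rw [Finset.mul_sum]
      refine Finset.sum_le_sum (fun β _ => ?_)
      rw [sum_prod_kl hp hsq (fun a => (β + c v a) ^ 2), momG_eval]
      split_ifs with h1 h3 h3
      · rw [mul_one]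
      · exfalso
        refine h3 ?_
        convert h1.2
      · positivity
      · rw [mul_zero]
    refine a1.trans (mul_le_mul_of_nonneg_left ?_ (by positivity))
    by_cases hA : ∀ i, ∃ j, j ≠ i ∧ v j = v i
    · rw [if_pos hA]
      have a2 : (((Pl K p.natDegree).filter fun β => p ∣ (momG (c v)).eval β).card : ℝ)
          ≤ q ^ p.natDegree := by
        rw [hq, ← Nat.cast_pow, ← card_Pl]
        exact_mod_cast Finset.card_filter_le _ _
      have a3 : (0 : ℝ) ≤ (32 * T.card) ^ (pf p).card *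
          ∑ i, ∏ j ∈ univ.erase i, W (v j + v i) :=
        mul_nonneg (by positivity) (Finset.sum_nonneg fun i _ => hnn i)
      linarith
    · rw [if_neg hA, zero_add]
      push Not at hA
      obtain ⟨i, hi⟩ := hA
      refine (mom_count hp hsq hs₀ hT y₁ v i).trans
        (mul_le_mul_of_nonneg_left ?_ (by positivity))
      refine le_trans (le_of_eq ?_)
        (Finset.single_le_sum (fun i _ => hnn i) (Finset.mem_univ i))
      refine Finset.prod_congr rfl (fun j hj => ?_)
      simp only [hW]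
      rw [if_neg]
      intro h0
      refine hi j (Finset.mem_erase.1 hj).1 ?_
      linear_combination h0 - v i * h2
  refine (Finset.sum_le_sum e2).trans ?_
  rw [← Finset.mul_sum, Finset.sum_add_distrib]
  refine mul_le_mul_of_nonneg_left (add_le_add ?_ ?_) (by positivity)
  · rw [← Finset.sum_filter, Finset.sum_const, nsmul_eq_mul, pow_add, mul_comm (q ^ _),
      ← mul_assoc]
    refine mul_le_mul_of_nonneg_right ?_ (by positivity)
    have := mom_card_A16 (K := K) l
    rw [hq]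
    exact_mod_cast this
  · rw [← Finset.mul_sum, Finset.sum_comm]
    calc ((32 : ℝ) * T.card) ^ (pf p).card * ∑ i : Fin 16, ∑ v ∈ P, ∏ j ∈ univ.erase i,
          W (v j + v i)
        ≤ (32 * T.card) ^ (pf p).card * ∑ _i : Fin 16, q ^ l * Λ ^ 15 :=
          mul_le_mul_of_nonneg_left
            (Finset.sum_le_sum fun i _ => mom_sum16 l W hW0 Λ hWΛ i) (by positivity)
      _ = _ := by
          simp only [Finset.sum_const, Finset.card_univ, Fintype.card_fin, nsmul_eq_mul]
          push_cast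
          ring

end Pool.Agent.P.MP_a9a441_nt
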